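import Pool.Agent.TUB.Defs

/-!
# TUB-Div: the divergence theorem for compactly supported fields (Mathlib only)

PLAN.  Linearity (the integrand of each `i` is continuous with compact support, so integrable:
`HasCompactSupport.fderiv`, `ContDiff.continuous_fderiv`); for each `i` apply
`integral_mul_fderiv_eq_neg_fderiv_mul_of_integrable` (file Analysis/Calculus/LineDeriv/IntegrationByParts.lean) with the function
`g y = Y y i` and the constant function `1` (or `integral_bilinear_hasFDerivAt_right_eq_neg_left_of_integrable`);
`fderiv ℝ (fun y => Y y i) y v = (fderiv ℝ Y y v) i` (composition with the continuous linear projection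
`EuclideanSpace.proj i`).
-/

open scoped BigOperators Topology ContDiff
open MeasureTheory Filter Set

namespace Pool.Agent.TUB

private noncomputable def pr {n : ℕ} (i : Fin n) : E n →L[ℝ] ℝ := EuclideanSpace.proj i

private theorem fderiv_coord {n : ℕ} {Y : E n → E n} (hY : ContDiff ℝ 1 Y) (i : Fin n) (y v : E n) :
    fderiv ℝ (fun y => Y y i) y v = (fderiv ℝ Y y v) i := by
  have h1 : HasFDerivAt Y (fderiv ℝ Y y) y :=
    (hY.differentiable (by norm_num)).differentiableAt.hasFDerivAt
  have h2 := (pr i).hasFDerivAt.comp y h1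
  have h3 : HasFDerivAt (fun y => Y y i)
      ((pr i).comp (fderiv ℝ Y y)) y := h2
  rw [h3.fderiv]
  rfl

private theorem coord_contDiff {n : ℕ} {Y : E n → E n} (hY : ContDiff ℝ 1 Y) (i : Fin n) :
    ContDiff ℝ 1 (fun y => Y y i) :=
  (pr i).contDiff.comp hY

private theorem coord_supp {n : ℕ} {Y : E n → E n} (hc : HasCompactSupport Y) (i : Fin n) :
    HasCompactSupport (fun y => Y y i) :=
  hc.comp_left (g := fun z : E n => z i) rfl

private theorem coord_int {n : ℕ} {Y : E n → E n} (hY : ContDiff ℝ 1 Y)
    (hc : HasCompactSupport Y) (i : Fin n) (v : E n) :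
    Integrable (fun y => fderiv ℝ (fun y => Y y i) y v) := by
  have h1 : Continuous (fun y => fderiv ℝ (fun y => Y y i) y v) :=
    ((coord_contDiff hY i).continuous_fderiv (by norm_num)).clm_apply continuous_const
  refine h1.integrable_of_hasCompactSupport ?_
  exact ((coord_supp hc i).fderiv ℝ).comp_left
    (g := fun L : E n →L[ℝ] ℝ => L v) rfl

private theorem coord_zero {n : ℕ} {Y : E n → E n} (hY : ContDiff ℝ 1 Y)
    (hc : HasCompactSupport Y) (i : Fin n) (v : E n) :
    ∫ y, fderiv ℝ (fun y => Y y i) y v = 0 := by
  have h1 := integral_mul_fderiv_eq_neg_fderiv_mul_of_integrable (μ := volume)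
    (f := fun _ : E n => (1 : ℝ)) (g := fun y => Y y i) (v := v) (by simp)
    (by simpa using coord_int hY hc i v)
    (by
      simp only [one_mul]
      exact (coord_contDiff hY i).continuous.integrable_of_hasCompactSupport (coord_supp hc i))
    (fun _ _ => differentiableAt_const _)
    (fun x _ => ((coord_contDiff hY i).differentiable (by norm_num)).differentiableAt)
  simpa using h1

theorem integral_div {n : ℕ} (Y : E n → E n) (hY : ContDiff ℝ 1 Y) (hc : HasCompactSupport Y) :
    ∫ y, ∑ i : Fin n, (fderiv ℝ Y y (EuclideanSpace.single i 1)) i = 0 := by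
  have h1 : (fun y => ∑ i : Fin n, (fderiv ℝ Y y (EuclideanSpace.single i 1)) i) =
      fun y => ∑ i : Fin n, fderiv ℝ (fun y => Y y i) y (EuclideanSpace.single i 1) := by
    funext y
    exact Finset.sum_congr rfl fun i _ => (fderiv_coord hY i y _).symm
  rw [h1, integral_finsetSum _ fun i _ => coord_int hY hc i _]
  exact Finset.sum_eq_zero fun i _ => coord_zero hY hc i _

end Pool.Agent.TUB
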