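import Pool.Agent.TUB.ZField
import Pool.Agent.TUB.Div

/-!
# TUB-Barta: `λ ∫ S ≤ ∫ T`

The divergence theorem for the field `S • Zf n l`, and the Riccati equation `Zf_div`.
-/

open scoped BigOperators Topology ContDiff
open MeasureTheory Filter Set

namespace Pool.Agent.TUB

private theorem amgm {g z s t : ℝ} (hz : 0 ≤ z) (hs : 0 ≤ s) (ht : 0 ≤ t) (h : g ^ 2 ≤ 4 * s * t) :
    g * z ≤ t + s * z ^ 2 := by
  have h1 : 0 ≤ t + s * z ^ 2 := by positivity
  refine le_of_sq_le_sq ?_ h1
  have h2 : g ^ 2 * z ^ 2 ≤ 4 * s * t * z ^ 2 := mul_le_mul_of_nonneg_right h (by positivity)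
  nlinarith [sq_nonneg (t - s * z ^ 2)]

theorem barta {n : ℕ} (hn : 1 ≤ n) {l ρ : ℝ} (hl : 0 < l) (hρ : 0 < ρ) (hlρ : l * ρ ^ 2 < jw n)
    (S T : E n → ℝ) (hS : ContDiff ℝ 1 S) (hS0 : ∀ y, 0 ≤ S y) (hsupp : ∀ y, ρ < ‖y‖ → S y = 0)
    (hT : Integrable T) (hT0 : ∀ y, 0 ≤ T y)
    (hg : ∀ y, ‖fderiv ℝ S y‖ ^ 2 ≤ 4 * S y * T y) :
    l * ∫ y, S y ≤ ∫ y, T y := by
  have hout : ∀ y : E n, ρ < ‖y‖ → (fun y' => S y' • Zf n l y') =ᶠ[𝓝 y] fun _ => (0 : E n) := by
    intro y hy
    have h1 : ∀ᶠ y' in 𝓝 y, ρ < ‖y'‖ := continuous_norm.continuousAt.eventually_const_lt hy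
    filter_upwards [h1] with y' hy'
    rw [hsupp y' hy', zero_smul]
  have hin : ∀ y : E n, ‖y‖ ≤ ρ → l * ‖y‖ ^ 2 < jw n := by
    intro y hy
    have h1 : ‖y‖ ^ 2 ≤ ρ ^ 2 := pow_le_pow_left₀ (norm_nonneg _) hy 2
    exact lt_of_le_of_lt (mul_le_mul_of_nonneg_left h1 hl.le) hlρ
  have hY : ContDiff ℝ 1 (fun y => S y • Zf n l y) := by
    rw [contDiff_iff_contDiffAt]
    intro y
    by_cases hy : ‖y‖ ≤ ρ
    · exact hS.contDiffAt.smul (Zf_contDiffAt hn hl (hin y hy))
    · push Not at hy
      exact contDiffAt_const.congr_of_eventuallyEq (hout y hy)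
  have hYc : HasCompactSupport (fun y => S y • Zf n l y) := by
    refine HasCompactSupport.of_support_subset_isCompact (isCompact_closedBall (0 : E n) ρ) ?_
    intro y hy
    rw [mem_closedBall_zero_iff]
    by_contra h
    push Not at h
    apply hy
    show S y • Zf n l y = 0
    rw [hsupp y h, zero_smul]
  have hSc : HasCompactSupport S := by
    refine HasCompactSupport.of_support_subset_isCompact (isCompact_closedBall (0 : E n) ρ) ?_
    intro y hy
    rw [mem_closedBall_zero_iff]
    by_contra h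
    push Not at h
    exact hy (hsupp y h)
  have hSi : Integrable S := hS.continuous.integrable_of_hasCompactSupport hSc
  have hD0 : ∀ y : E n, ρ < ‖y‖ →
      ∑ i : Fin n, (fderiv ℝ (fun y => S y • Zf n l y) y (EuclideanSpace.single i 1)) i = 0 := by
    intro y hy
    have h1 : fderiv ℝ (fun y => S y • Zf n l y) y = 0 := by
      rw [(hout y hy).fderiv_eq]
      exact fderiv_const_apply _
    rw [h1]
    simp
  have hDi : Integrable (fun y : E n =>
      ∑ i : Fin n, (fderiv ℝ (fun y => S y • Zf n l y) y (EuclideanSpace.single i 1)) i) := by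
    apply Continuous.integrable_of_hasCompactSupport
    · refine continuous_finsetSum _ fun i _ => ?_
      have h1 : Continuous fun y : E n =>
          fderiv ℝ (fun y => S y • Zf n l y) y (EuclideanSpace.single i 1) :=
        (hY.continuous_fderiv one_ne_zero).clm_apply continuous_const
      exact (EuclideanSpace.proj (𝕜 := ℝ) i).continuous.comp h1
    · refine HasCompactSupport.of_support_subset_isCompact (isCompact_closedBall (0 : E n) ρ) ?_
      intro y hy
      rw [mem_closedBall_zero_iff]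
      by_contra h
      push Not at h
      exact hy (hD0 y h)
  have hle : ∀ y : E n,
      ∑ i : Fin n, (fderiv ℝ (fun y => S y • Zf n l y) y (EuclideanSpace.single i 1)) i ≤
        T y - l * S y := by
    intro y
    by_cases hy : ‖y‖ ≤ ρ
    · have hd1 : DifferentiableAt ℝ S y := hS.differentiable (by norm_num) y
      have hd2 : DifferentiableAt ℝ (Zf n l) y :=
        (Zf_contDiffAt hn hl (hin y hy)).differentiableAt (by norm_num)
      have h1 : fderiv ℝ (fun y => S y • Zf n l y) y =
          S y • fderiv ℝ (Zf n l) y + (fderiv ℝ S y).smulRight (Zf n l y) := fderiv_fun_smul hd1 hd2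
      have h2 : ∑ i : Fin n, (fderiv ℝ (fun y => S y • Zf n l y) y (EuclideanSpace.single i 1)) i =
          S y * ∑ i : Fin n, (fderiv ℝ (Zf n l) y (EuclideanSpace.single i 1)) i +
            fderiv ℝ S y (Zf n l y) := by
        have h3 : Zf n l y = ∑ i : Fin n, (Zf n l y) i • EuclideanSpace.single i (1 : ℝ) := by
          ext j
          simp [Finset.sum_apply, Pi.single_apply]
        have h4 : fderiv ℝ S y (Zf n l y) =
            ∑ i : Fin n, (Zf n l y) i * fderiv ℝ S y (EuclideanSpace.single i 1) := by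
          conv_lhs => rw [h3, map_sum]
          exact Finset.sum_congr rfl fun i _ => by rw [map_smul, smul_eq_mul]
        rw [h1, h4, Finset.mul_sum, ← Finset.sum_add_distrib]
        refine Finset.sum_congr rfl fun i _ => ?_
        simp only [_root_.add_apply, _root_.smul_apply,
          ContinuousLinearMap.smulRight_apply, PiLp.add_apply, PiLp.smul_apply, smul_eq_mul]
        ring
      rw [h2, Zf_div hn hl (hin y hy)]
      have h5 : fderiv ℝ S y (Zf n l y) ≤ ‖fderiv ℝ S y‖ * ‖Zf n l y‖ :=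
        (le_abs_self _).trans ((fderiv ℝ S y).le_opNorm _)
      have h6 := amgm (norm_nonneg (Zf n l y)) (hS0 y) (hT0 y) (hg y)
      nlinarith
    · push Not at hy
      rw [hD0 y hy, hsupp y hy, mul_zero, sub_zero]
      exact hT0 y
  have h7 : ∫ y, ∑ i : Fin n, (fderiv ℝ (fun y => S y • Zf n l y) y (EuclideanSpace.single i 1)) i ≤
      ∫ y, (T y - l * S y) := integral_mono hDi (hT.sub (hSi.const_mul l)) hle
  rw [integral_div _ hY hYc, integral_sub hT (hSi.const_mul l), integral_const_mul] at h7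
  linarith

end Pool.Agent.TUB
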