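import Pool.Agent.TUB.Defs

/-!
# TUB-ChA: the immersion in a chart (Defs only)

PLAN.  `φ = (extChartAt (𝓡 m) x₀).symm`, target `O` open (`isOpen_extChartAt_target`).  `φ` is `C^∞` on `O`
(`contMDiffOn_extChartAt_symm`), so `f ∘ φ` is `ContMDiffOn`, i.e. `ContDiffOn` (`contMDiffOn_iff_contDiffOn`) on `O`.
`chart_range`: `mfderiv (f ∘ φ) u = mfderiv f (φ u) ∘ mfderiv φ u` (chain rule, `O` is a neighbourhood of
`u`), `mfderiv (f ∘ φ) u = fderiv` (`mfderiv_eq_fderiv`) and `mfderiv φ u` is invertible with inverse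
`mfderiv (extChartAt x₀) (φ u)` (`φ ∘ extChartAt = id` near `φ u`, `extChartAt ∘ φ = id` near `u`), so it is surjective and injective.
-/

open scoped BigOperators Topology Manifold ContDiff
open Filter Set

namespace Pool.Agent.TUB

variable {m n : ℕ} {X : Type*} [TopologicalSpace X] [ChartedSpace (E m) X]
  [IsManifold (𝓡 m) ∞ X]

theorem chart_smooth (f : X → E n) (hf : Imm m f) (x₀ : X) :
    ContDiffOn ℝ ∞ (f ∘ (extChartAt (𝓡 m) x₀).symm) (extChartAt (𝓡 m) x₀).target := by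
  have h1 : ContMDiffOn 𝓘(ℝ, E m) (𝓡 m) ∞ (extChartAt (𝓡 m) x₀).symm
      (extChartAt (𝓡 m) x₀).target := contMDiffOn_extChartAt_symm x₀
  exact contMDiffOn_iff_contDiffOn.1 (hf.smooth.comp_contMDiffOn h1)

private theorem chart_key (f : X → E n) (hf : Imm m f) (x₀ : X) (u : E m)
    (hu : u ∈ (extChartAt (𝓡 m) x₀).target) :
    ∃ e : E m ≃L[ℝ] E m, fderiv ℝ (f ∘ (extChartAt (𝓡 m) x₀).symm) u =
      (dm m f ((extChartAt (𝓡 m) x₀).symm u)).comp (e : E m →L[ℝ] E m) := by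
  have hinv := isInvertible_mfderivWithin_extChartAt_symm (I := 𝓡 m) (M := X) hu
  have hd := mdifferentiableWithinAt_extChartAt_symm (I := 𝓡 m) (M := X) hu
  rw [ModelWithCorners.range_eq_univ, mfderivWithin_univ] at hinv
  rw [ModelWithCorners.range_eq_univ, mdifferentiableWithinAt_univ] at hd
  obtain ⟨e, he⟩ := hinv
  refine ⟨e, ?_⟩
  have hfd : MDifferentiableAt (𝓡 m) 𝓘(ℝ, E n) f ((extChartAt (𝓡 m) x₀).symm u) :=
    (hf.smooth.mdifferentiable (by simp)) _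
  have h2 := mfderiv_comp u hfd hd
  rw [← he] at h2
  rw [← mfderiv_eq_fderiv]
  exact h2

theorem chart_range (f : X → E n) (hf : Imm m f) (x₀ : X) (u : E m)
    (hu : u ∈ (extChartAt (𝓡 m) x₀).target) :
    tan m f ((extChartAt (𝓡 m) x₀).symm u) =
      LinearMap.range (fderiv ℝ (f ∘ (extChartAt (𝓡 m) x₀).symm) u : E m →ₗ[ℝ] E n) := by
  obtain ⟨e, he⟩ := chart_key f hf x₀ u hu
  rw [he]
  ext y
  unfold tan
  constructor
  · rintro ⟨v, rfl⟩
    exact ⟨e.symm v, by simp⟩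
  · rintro ⟨v, rfl⟩
    exact ⟨e v, by simp⟩

theorem chart_inj (f : X → E n) (hf : Imm m f) (x₀ : X) (u : E m)
    (hu : u ∈ (extChartAt (𝓡 m) x₀).target) :
    Function.Injective (fderiv ℝ (f ∘ (extChartAt (𝓡 m) x₀).symm) u) := by
  obtain ⟨e, he⟩ := chart_key f hf x₀ u hu
  rw [he]
  exact (hf.inj _).comp e.injective

end Pool.Agent.TUB
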