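import Pool.Agent.TUB.BPos

/-!
# TUB-BJ: the Bessel function and `B κ`

PLAN.  `besselJ_eq`: termwise, `(-1)^i/(i! Γ(i+ν+1)) (x/2)^(2i+ν) = (x/2)^ν/Γ(ν+1) * bc (2ν+2) i * (x²)^i`:
by induction on `i`, `bc (2ν+2) i = (-1)^i Γ(ν+1)/(4^i i! Γ(i+ν+1))` (`Real.Gamma_add_one`, nonzero arguments
because `ν > -1`); `tsum_mul_left`.
`jz_eq`: with `ν = κ/2 - 1`, `2ν + 2 = κ`; for `x > 0`: `besselJ ν x = 0 ↔ B κ (x²) = 0`; so the set in the
definition of `jz` is the preimage of the set of `jw` under `x ↦ x²`, its least element is `√(jw κ)`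
(`jw_facts`).
`jz_le`: `k = 1`: `jz = √(jw 1) ≤ π/2`; `k ≥ 2`: `jw k ≤ k(k+4)/2 ≤ (kπ/2)²` as `2(k+4) ≤ 9 k ≤ k π²`
(`2(k+4) ≤ 9k` for `k ≥ 2`, `Real.pi_gt_three`).
-/

open scoped BigOperators Topology ContDiff
open Filter Set

namespace Pool.Agent.TUB

/-- the coefficients. -/
private theorem bj_coef {ν : ℝ} (hν : -1 < ν) (i : ℕ) :
    bc (2 * ν + 2) i = (-1 : ℝ) ^ i * Real.Gamma (ν + 1) /
      (4 ^ i * (i.factorial : ℝ) * Real.Gamma (i + ν + 1)) := by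
  have hpos : ∀ i : ℕ, 0 < Real.Gamma (i + ν + 1) := fun i => by
    apply Real.Gamma_pos_of_pos
    have : (0 : ℝ) ≤ i := Nat.cast_nonneg i
    linarith
  induction i with
  | zero =>
    have h0 := hpos 0
    rw [Nat.cast_zero, zero_add] at h0
    simp only [bc, pow_zero, Nat.factorial_zero, Nat.cast_zero, Nat.cast_one, zero_add, one_mul]
    rw [div_self h0.ne']
  | succ i ih =>
    have h1 : Real.Gamma ((i + 1 : ℕ) + ν + 1) = (i + ν + 1) * Real.Gamma (i + ν + 1) := by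
      rw [← Real.Gamma_add_one]
      · congr 1
        push_cast
        ring
      · have : (0 : ℝ) ≤ i := Nat.cast_nonneg i
        linarith
    have hi : (0 : ℝ) ≤ i := Nat.cast_nonneg i
    have h2 : (i : ℝ) + ν + 1 ≠ 0 := by linarith
    have h3 : (i : ℝ) + 1 ≠ 0 := by linarith
    have h4 := (hpos i).ne'
    have h5 : ((i.factorial : ℕ) : ℝ) ≠ 0 := by exact_mod_cast Nat.factorial_ne_zero i
    rw [bc, ih, h1, Nat.factorial_succ, show (i : ℝ) + (2 * ν + 2) / 2 = i + ν + 1 by ring]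
    push_cast
    rw [pow_succ, pow_succ]
    field_simp

theorem besselJ_eq {ν x : ℝ} (hν : -1 < ν) (hx : 0 < x) :
    besselJ ν x = (x / 2) ^ ν / Real.Gamma (ν + 1) * B (2 * ν + 2) (x ^ 2) := by
  rw [besselJ, B, ← tsum_mul_left]
  refine tsum_congr fun i => ?_
  have hx2 : (0 : ℝ) < x / 2 := by linarith
  have hG : Real.Gamma (ν + 1) ≠ 0 := (Real.Gamma_pos_of_pos (by linarith)).ne'
  have hGi : Real.Gamma (i + ν + 1) ≠ 0 := by
    have : (0 : ℝ) ≤ i := Nat.cast_nonneg i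
    exact (Real.Gamma_pos_of_pos (by linarith)).ne'
  have h5 : ((i.factorial : ℕ) : ℝ) ≠ 0 := by exact_mod_cast Nat.factorial_ne_zero i
  have h1 : (x / 2) ^ (2 * (i : ℝ) + ν) = (x / 2) ^ ν * ((x ^ 2) ^ i / 4 ^ i) := by
    rw [Real.rpow_add hx2, mul_comm, show (2 : ℝ) * i = ((2 * i : ℕ) : ℝ) by push_cast; ring,
      Real.rpow_natCast, pow_mul, div_pow, div_pow]
    norm_num
  rw [h1, bj_coef hν i]
  field_simp

private theorem bj_iff {κ x : ℝ} (hκ : 1 ≤ κ) (hx : 0 < x) :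
    besselJ (κ / 2 - 1) x = 0 ↔ B κ (x ^ 2) = 0 := by
  rw [besselJ_eq (by linarith) hx, show 2 * (κ / 2 - 1) + 2 = κ by ring]
  have h1 : (x / 2) ^ (κ / 2 - 1) / Real.Gamma (κ / 2 - 1 + 1) ≠ 0 := by
    refine div_ne_zero (Real.rpow_pos_of_pos (by linarith) _).ne' ?_
    exact (Real.Gamma_pos_of_pos (by linarith)).ne'
  rw [mul_eq_zero, or_iff_right h1]

theorem jz_eq {κ : ℝ} (hκ : 1 ≤ κ) : jz (κ / 2 - 1) = Real.sqrt (jw κ) ∧
    IsLeast {x : ℝ | 0 < x ∧ besselJ (κ / 2 - 1) x = 0} (jz (κ / 2 - 1)) := by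
  obtain ⟨h1, h2, h3, _⟩ := jw_facts hκ
  have hs : 0 < Real.sqrt (jw κ) := Real.sqrt_pos.2 h1
  have hleast : IsLeast {x : ℝ | 0 < x ∧ besselJ (κ / 2 - 1) x = 0} (Real.sqrt (jw κ)) := by
    constructor
    · refine ⟨hs, ?_⟩
      rw [bj_iff hκ hs, Real.sq_sqrt h1.le]
      exact h2
    · rintro x ⟨hx, hx0⟩
      rw [bj_iff hκ hx] at hx0
      by_contra hlt
      push Not at hlt
      have h4 : x ^ 2 < jw κ := (Real.lt_sqrt hx.le).1 hlt
      exact (h3 (x ^ 2) (sq_nonneg x) h4).ne' hx0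
  have heq : jz (κ / 2 - 1) = Real.sqrt (jw κ) := hleast.csInf_eq
  exact ⟨heq, heq ▸ hleast⟩

theorem jz_le {k : ℕ} (hk : 1 ≤ k) : jz ((k : ℝ) / 2 - 1) ≤ k * Real.pi / 2 := by
  have hk1 : (1 : ℝ) ≤ k := by exact_mod_cast hk
  have hpi := Real.pi_gt_three
  rw [(jz_eq hk1).1]
  refine Real.sqrt_le_iff.2 ⟨by positivity, ?_⟩
  rcases Nat.eq_or_lt_of_le hk with h | h
  · rw [← h, Nat.cast_one]
    refine jw_one_le.trans (le_of_eq ?_)
    ring
  · have h2 : (2 : ℝ) ≤ k := by exact_mod_cast h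
    refine (jw_facts hk1).2.2.2.trans ?_
    have h3 : (9 : ℝ) ≤ Real.pi ^ 2 := by nlinarith
    have h4 : 2 * ((k : ℝ) + 4) ≤ k * Real.pi ^ 2 := by nlinarith
    have h5 : (k : ℝ) * (2 * ((k : ℝ) + 4)) ≤ k * (k * Real.pi ^ 2) :=
      mul_le_mul_of_nonneg_left h4 (by linarith)
    have h6 : ((k : ℝ) * Real.pi / 2) ^ 2 = k * (k * Real.pi ^ 2) / 4 := by ring
    rw [h6]
    linarith

end Pool.Agent.TUB
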