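import Pool.Agent.TUB.BZero

/-!
# TUB-BPos: `B κ ≤ B (κ+2)` and `0 < B (κ+2)` on `[0, jw κ]`

PLAN.  `B_two_pos`: for `w > 0`, `D(w) = w^(κ/2) B (κ+2) w` has the derivative `(κ/2) w^(κ/2-1) B κ w`
(`B_hasDeriv`, `B_rec`: `(κ/2) w^(κ/2-1) B(κ+2) - w^(κ/2) B(κ+4)/(2(κ+2))`), which is positive on
`(0, jw κ)`; `D(0) = 0` and `D` is continuous on `[0, ∞)`, so `D` is strictly increasing on `[0, jw κ]`
(`strictMonoOn_of_deriv_pos`).  (`w = 0`: `B_zero`.)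
`B_le_two`: `B_two_pos` for `κ` shows `B (κ+2) > 0` on `[0, jw κ]`, so `jw κ < jw (κ+2)` (`jw_facts` for
`κ + 2`: `B (κ+2) (jw (κ+2)) = 0`), and `B_two_pos` for `κ + 2` gives `B (κ+4) > 0` on `[0, jw κ]`; now
`B_rec`.
`jw_one_le`: `B_one (π/2)`: `B 1 (π²/4) = 0`, so `jw 1 ≤ π²/4` (`csInf_le`).
-/

open scoped BigOperators Topology ContDiff
open Filter Set

namespace Pool.Agent.TUB

private theorem D_deriv {κ : ℝ} (hκ : 0 < κ) {w : ℝ} (hw : 0 < w) :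
    HasDerivAt (fun w => w ^ (κ / 2) * B (κ + 2) w) (κ / 2 * w ^ (κ / 2 - 1) * B κ w) w := by
  have h1 : HasDerivAt (fun w : ℝ => w ^ (κ / 2)) (κ / 2 * w ^ (κ / 2 - 1)) w :=
    Real.hasDerivAt_rpow_const (Or.inl hw.ne')
  have h2 := B_hasDeriv (show 0 < κ + 2 by linarith) w
  refine (h1.mul h2).congr_deriv ?_
  have h3 : κ + 2 + 2 = κ + 4 := by ring
  rw [h3, B_rec hκ w]
  have h4 : w ^ (κ / 2) = w ^ (κ / 2 - 1) * w := by
    rw [← Real.rpow_add_one hw.ne', sub_add_cancel]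
  rw [h4]
  have h5 : κ + 2 ≠ 0 := by linarith
  field_simp
  ring

theorem B_two_pos {κ : ℝ} (hκ : 1 ≤ κ) {w : ℝ} (h0 : 0 ≤ w) (h1 : w ≤ jw κ) :
    0 < B (κ + 2) w := by
  have hκ0 : 0 < κ := by linarith
  rcases h0.eq_or_lt with h | h
  · rw [← h, B_zero]
    exact one_pos
  · obtain ⟨hj, _, hpos, _⟩ := jw_facts hκ
    have hB : Continuous (B (κ + 2)) := (B_smooth (show 0 < κ + 2 by linarith)).continuous
    have hcont : Continuous (fun w : ℝ => w ^ (κ / 2) * B (κ + 2) w) :=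
      (Real.continuous_rpow_const (by linarith)).mul hB
    have hmono : StrictMonoOn (fun w : ℝ => w ^ (κ / 2) * B (κ + 2) w) (Icc 0 (jw κ)) := by
      refine strictMonoOn_of_deriv_pos (convex_Icc _ _) hcont.continuousOn ?_
      intro x hx
      rw [interior_Icc] at hx
      rw [(D_deriv hκ0 hx.1).deriv]
      have h2 := hpos x hx.1.le hx.2
      have h3 : 0 < x ^ (κ / 2 - 1) := Real.rpow_pos_of_pos hx.1 _
      positivity
    have h4 := hmono (left_mem_Icc.mpr hj.le) ⟨h.le, h1⟩ h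
    simp only at h4
    rw [Real.zero_rpow (by linarith), zero_mul] at h4
    exact pos_of_mul_pos_right h4 (Real.rpow_nonneg h.le _)

theorem B_le_two {κ : ℝ} (hκ : 1 ≤ κ) {w : ℝ} (h0 : 0 ≤ w) (h1 : w ≤ jw κ) :
    B κ w ≤ B (κ + 2) w := by
  have hκ0 : 0 < κ := by linarith
  have hκ2 : 1 ≤ κ + 2 := by linarith
  have hj : jw κ ≤ jw (κ + 2) := by
    by_contra hcon
    push Not at hcon
    obtain ⟨h2, h3, _, _⟩ := jw_facts hκ2
    have h4 := B_two_pos hκ h2.le hcon.le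
    linarith
  have h5 := B_two_pos hκ2 h0 (h1.trans hj)
  have h6 : κ + 2 + 2 = κ + 4 := by ring
  rw [h6] at h5
  rw [B_rec hκ0 w]
  have h7 : 0 ≤ w / (κ * (κ + 2)) * B (κ + 4) w := by positivity
  linarith

theorem jw_one_le : jw 1 ≤ Real.pi ^ 2 / 4 := by
  have h1 : B 1 ((Real.pi / 2) ^ 2) = 0 := by
    rw [B_one, Real.cos_pi_div_two]
  have h2 : (Real.pi / 2) ^ 2 = Real.pi ^ 2 / 4 := by ring
  rw [h2] at h1
  refine csInf_le ⟨0, fun w hw => hw.1.le⟩ ⟨?_, h1⟩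
  have := Real.pi_pos
  positivity

end Pool.Agent.TUB
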