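import Mathlib

/-!
# TUB-Abel: a summation by parts inequality (Mathlib only)

The function `A - A r` is approximated from below by finite sums of indicator functions of initial
intervals.
-/

open scoped BigOperators Topology
open MeasureTheory Filter Set

namespace Pool.Agent.TUB

private theorem ind_nonneg {r : ℝ} (hr : 0 < r) (w a : ℝ → ℝ) (ha : AntitoneOn a (Ioc 0 r))
    (hW : ∀ s ∈ Ioc 0 r, 0 ≤ ∫ u in (0 : ℝ)..s, w u) (c : ℝ) :
    0 ≤ ∫ u in Ioc 0 r, w u * (if c ≤ a u then 1 else 0) := by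
  set S : Set ℝ := insert 0 {u | u ∈ Ioc 0 r ∧ c ≤ a u} with hS
  have hbdd : BddAbove S := by
    refine ⟨r, ?_⟩
    rintro u (rfl | hu)
    · exact hr.le
    · exact hu.1.2
  have h0 : (0 : ℝ) ∈ S := mem_insert _ _
  set s := sSup S with hs
  have hs0 : 0 ≤ s := le_csSup hbdd h0
  have hsr : s ≤ r := by
    refine csSup_le ⟨0, h0⟩ ?_
    rintro u (rfl | hu)
    · exact hr.le
    · exact hu.1.2
  have key : ∫ u in Ioc 0 r, w u * (if c ≤ a u then 1 else 0) = ∫ u in Ioc 0 s, w u := by
    have h1 : ∫ u in Ioc 0 r, w u * (if c ≤ a u then 1 else 0) =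
        ∫ u in Ioc 0 r, (Ioc 0 s).indicator w u := by
      refine integral_congr_ae ?_
      have h2 : ∀ᵐ u ∂(volume.restrict (Ioc 0 r)), u ≠ s := by
        refine ae_restrict_of_ae ?_
        have : (volume : Measure ℝ) {s} = 0 := Real.volume_singleton
        exact compl_mem_ae_iff.mpr this
      filter_upwards [h2, ae_restrict_mem measurableSet_Ioc] with u hus hu
      by_cases hlt : u < s
      · obtain ⟨u', hu', hlt'⟩ := exists_lt_of_lt_csSup ⟨0, h0⟩ hlt
        rcases hu' with rfl | hu'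
        · exact absurd hu.1 (not_lt.mpr hlt'.le)
        · have h3 : c ≤ a u := hu'.2.trans (ha hu hu'.1 hlt'.le)
          rw [if_pos h3, mul_one, indicator_of_mem]
          exact ⟨hu.1, hlt.le⟩
      · have hgt : s < u := lt_of_le_of_ne (not_lt.mp hlt) (Ne.symm hus)
        have h3 : ¬ c ≤ a u := by
          intro h
          have : u ≤ s := le_csSup hbdd (Or.inr ⟨hu, h⟩)
          linarith
        rw [if_neg h3, mul_zero, indicator_of_notMem]
        intro h
        linarith [h.2]
    rw [h1, setIntegral_indicator measurableSet_Ioc]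
    congr 2
    ext u
    simp only [mem_inter_iff, mem_Ioc]
    constructor
    · exact fun h => h.2
    · exact fun h => ⟨⟨h.1, h.2.trans hsr⟩, h⟩
  rw [key]
  rcases eq_or_lt_of_le hs0 with h | h
  · rw [← h]
    simp
  · have := hW s ⟨h, hsr⟩
    rwa [intervalIntegral.integral_of_le hs0] at this

private theorem sum_ind (x : ℝ) (hx : 0 ≤ x) (M : ℕ) :
    ∑ k ∈ Finset.range M, (if ((k : ℝ) + 1) ≤ x then (1 : ℝ) else 0) =
      ((min M ⌊x⌋₊ : ℕ) : ℝ) := by
  induction M with
  | zero => simp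
  | succ M ih =>
    rw [Finset.sum_range_succ, ih]
    by_cases h : ((M : ℝ) + 1) ≤ x
    · rw [if_pos h]
      have h1 : M + 1 ≤ ⌊x⌋₊ := by
        rw [Nat.le_floor_iff hx]
        push_cast
        exact h
      rw [min_eq_left (by omega), min_eq_left h1]
      push_cast
      rfl
    · rw [if_neg h]
      have h1 : ⌊x⌋₊ < M + 1 := by
        rw [Nat.floor_lt hx]
        push_cast
        exact lt_of_not_ge h
      rw [min_eq_right (by omega), min_eq_right (by omega)]
      simp

/-- the approximation of `x ≥ 0` -/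
private noncomputable def gg (N : ℕ) (x : ℝ) : ℝ :=
  (∑ k ∈ Finset.range ((N + 1) * (N + 1)), (if ((k : ℝ) + 1) / (N + 1) ≤ x then (1 : ℝ) else 0)) /
    (N + 1)

private theorem gg_eq (N : ℕ) (x : ℝ) (hx : 0 ≤ x) :
    gg N x = ((min ((N + 1) * (N + 1)) ⌊(N + 1) * x⌋₊ : ℕ) : ℝ) / (N + 1) := by
  unfold gg
  have hN : (0 : ℝ) < (N : ℝ) + 1 := by positivity
  rw [← sum_ind ((N + 1) * x) (by positivity)]
  congr 1
  refine Finset.sum_congr rfl fun k _ => ?_
  have h : ((k : ℝ) + 1) / (N + 1) ≤ x ↔ ((k : ℝ) + 1) ≤ (N + 1) * x := by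
    rw [div_le_iff₀ hN, mul_comm]
  simp only [h]

private theorem gg_nonneg (N : ℕ) (x : ℝ) : 0 ≤ gg N x := by
  unfold gg
  refine div_nonneg (Finset.sum_nonneg fun k _ => ?_) (by positivity)
  split_ifs <;> norm_num

private theorem gg_le (N : ℕ) (x : ℝ) (hx : 0 ≤ x) : gg N x ≤ x := by
  rw [gg_eq N x hx, div_le_iff₀ (by positivity)]
  have h1 : ((min ((N + 1) * (N + 1)) ⌊(N + 1) * x⌋₊ : ℕ) : ℝ) ≤ ((⌊(N + 1) * x⌋₊ : ℕ) : ℝ) := by
    exact_mod_cast min_le_right _ _
  have h2 : ((⌊(N + 1) * x⌋₊ : ℕ) : ℝ) ≤ (N + 1) * x := Nat.floor_le (by positivity)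
  linarith

private theorem gg_tendsto (x : ℝ) (hx : 0 ≤ x) :
    Tendsto (fun N : ℕ => gg N x) atTop (𝓝 x) := by
  have h1 : Tendsto (fun N : ℕ => x - 1 / ((N : ℝ) + 1)) atTop (𝓝 x) := by
    have := (tendsto_const_nhds (x := x)).sub (tendsto_one_div_add_atTop_nhds_zero_nat (𝕜 := ℝ))
    simpa using this
  refine tendsto_of_tendsto_of_tendsto_of_le_of_le' h1 tendsto_const_nhds ?_
    (Eventually.of_forall fun N => gg_le N x hx)
  filter_upwards [eventually_ge_atTop ⌈x⌉₊] with N hN
  have hxN : x ≤ N := (Nat.le_ceil x).trans (by exact_mod_cast hN)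
  have hN0 : (0 : ℝ) < (N : ℝ) + 1 := by positivity
  rw [gg_eq N x hx]
  have h2 : ⌊((N : ℝ) + 1) * x⌋₊ ≤ (N + 1) * (N + 1) := by
    refine Nat.floor_le_of_le ?_
    push_cast
    nlinarith
  rw [min_eq_right h2, le_div_iff₀ hN0]
  have h3 : ((N : ℝ) + 1) * x < ((⌊((N : ℝ) + 1) * x⌋₊ : ℕ) : ℝ) + 1 := Nat.lt_floor_add_one _
  have h4 : (x - 1 / ((N : ℝ) + 1)) * ((N : ℝ) + 1) = ((N : ℝ) + 1) * x - 1 := by
    field_simp
  linarith

theorem abel_pos {r : ℝ} (hr : 0 < r) (w A : ℝ → ℝ) (hA : AntitoneOn A (Ioc 0 r))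
    (hw : ContinuousOn w (Icc 0 r)) (hW : ∀ s ∈ Ioc 0 r, 0 ≤ ∫ u in (0 : ℝ)..s, w u)
    (hint : IntegrableOn (fun u => w u * A u) (Ioc 0 r)) :
    A r * ∫ u in (0 : ℝ)..r, w u ≤ ∫ u in (0 : ℝ)..r, w u * A u := by
  have hwi : IntegrableOn w (Ioc 0 r) :=
    (hw.integrableOn_Icc).mono_set Ioc_subset_Icc_self
  set a : ℝ → ℝ := fun u => A u - A r with ha
  have haa : AntitoneOn a (Ioc 0 r) := by
    intro u hu v hv huv
    have := hA hu hv huv
    simp only [ha]
    linarith
  have ha0 : ∀ u ∈ Ioc 0 r, 0 ≤ a u := by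
    intro u hu
    have := hA hu ⟨hr, le_rfl⟩ hu.2
    simp only [ha]
    linarith
  have hiwa : IntegrableOn (fun u => w u * a u) (Ioc 0 r) := by
    have h := hint.sub (hwi.mul_const (A r))
    refine h.congr (Eventually.of_forall fun u => ?_)
    simp only [ha, Pi.sub_apply]
    ring
  have ham : AEMeasurable a (volume.restrict (Ioc 0 r)) :=
    aemeasurable_restrict_of_antitoneOn measurableSet_Ioc haa
  have hggm : ∀ N, Measurable (gg N) := by
    intro N
    unfold gg
    refine Measurable.div_const ?_ _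
    refine Finset.measurable_sum _ fun k _ => ?_
    exact Measurable.ite measurableSet_Ici measurable_const measurable_const
  have hnn : ∀ N : ℕ, 0 ≤ ∫ u in Ioc 0 r, w u * gg N (a u) := by
    intro N
    have h1 : ∀ u, w u * gg N (a u) = ∑ k ∈ Finset.range ((N + 1) * (N + 1)),
        (1 / ((N : ℝ) + 1)) * (w u * (if ((k : ℝ) + 1) / (N + 1) ≤ a u then (1 : ℝ) else 0)) := by
      intro u
      unfold gg
      rw [← Finset.mul_sum, ← Finset.mul_sum]
      ring
    simp only [h1]
    rw [integral_finsetSum]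
    · refine Finset.sum_nonneg fun k _ => ?_
      rw [integral_const_mul]
      exact mul_nonneg (by positivity) (ind_nonneg hr w a haa hW _)
    · intro k _
      refine Integrable.const_mul ?_ _
      have h2 : AEStronglyMeasurable (fun u => (if ((k : ℝ) + 1) / (N + 1) ≤ a u then (1 : ℝ) else 0))
          (volume.restrict (Ioc 0 r)) := by
        have h3 : Measurable (fun x : ℝ => if ((k : ℝ) + 1) / (N + 1) ≤ x then (1 : ℝ) else 0) :=
          Measurable.ite measurableSet_Ici measurable_const measurable_const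
        exact (h3.comp_aemeasurable ham).aestronglyMeasurable
      refine Integrable.mul_bdd hwi h2 (c := 1) (Eventually.of_forall fun u => ?_)
      split_ifs <;> simp
  have hlim : Tendsto (fun N : ℕ => ∫ u in Ioc 0 r, w u * gg N (a u)) atTop
      (𝓝 (∫ u in Ioc 0 r, w u * a u)) := by
    refine tendsto_integral_of_dominated_convergence (fun u => ‖w u * a u‖) ?_ hiwa.norm ?_ ?_
    · intro N
      exact hwi.aestronglyMeasurable.mul ((hggm N).comp_aemeasurable ham).aestronglyMeasurable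
    · intro N
      filter_upwards [ae_restrict_mem measurableSet_Ioc] with u hu
      rw [norm_mul, norm_mul]
      refine mul_le_mul_of_nonneg_left ?_ (norm_nonneg _)
      rw [Real.norm_of_nonneg (gg_nonneg _ _), Real.norm_of_nonneg (ha0 u hu)]
      exact gg_le N _ (ha0 u hu)
    · filter_upwards [ae_restrict_mem measurableSet_Ioc] with u hu
      exact (gg_tendsto (a u) (ha0 u hu)).const_mul _
  have hfin : 0 ≤ ∫ u in Ioc 0 r, w u * a u := ge_of_tendsto' hlim hnn
  have heq : ∫ u in Ioc 0 r, w u * a u =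
      (∫ u in Ioc 0 r, w u * A u) - A r * ∫ u in Ioc 0 r, w u := by
    rw [← integral_const_mul, ← integral_sub hint (hwi.const_mul _)]
    refine integral_congr_ae (Eventually.of_forall fun u => ?_)
    simp only [ha]
    ring
  rw [intervalIntegral.integral_of_le hr.le, intervalIntegral.integral_of_le hr.le]
  linarith

end Pool.Agent.TUB
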