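import Pool.Agent.TUB.Defs

/-!
# TUB-BSer: the power series `B κ` (Defs only)

PLAN.  `|bc κ i| ≤ C / i!` (for `κ > 0`: `4 (i+1) (i + κ/2) ≥ (i+1)` as soon as `i ≥ 1`; for `i = 0` the
factor is `2κ > 0`; so `C = max 1 (1/(2κ))`), hence the series and its derivatives converge
(`hasDerivAt_tsum_of_isPreconnected`; a similar proof is in `outputs/live/Pool/Agent/Neu/Bes.lean`).
Coefficients: `(i+1) * bc κ (i+1) = -(1/(2κ)) * bc (κ+2) i` (induction on `i`), this gives `B_hasDeriv`.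
`B_rec`: comparison of coefficients, `bc κ (i+1) = bc (κ+2) (i+1) - (1/(κ(κ+2))) * bc (κ+4) i`; both sides
are multiples of `bc (κ+2) i`: from the relation above `bc (κ+4) i = -(2(κ+2))(i+1) bc (κ+2) (i+1)` and
`bc κ (i+1) = -(1/(2κ)) bc (κ+2) i/(i+1)`, and `bc (κ+2) i = -4 (i+1) (i + κ/2 + 1) bc (κ+2) (i+1)`.
`B_smooth`: induction on the order (`contDiff_infty_iff_deriv` or `contDiff_of_differentiable_iteratedDeriv`, for all `κ > 0` at
the same time), as `deriv (B κ) = fun w => -(1/(2κ)) * B (κ+2) w`.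
`B_one`: `bc 1 i = (-1)^i/(2i)!` and `Real.cos_eq_tsum`/`Real.hasSum_cos`.
-/

open scoped BigOperators Topology ContDiff
open Filter Set

namespace Pool.Agent.TUB

private theorem ps_summable (a : ℕ → ℝ) (C : ℝ) (ha : ∀ i, |a i| ≤ C / (i.factorial : ℝ)) (w : ℝ) :
    Summable (fun i : ℕ => a i * w ^ i) := by
  have h := (Real.summable_pow_div_factorial |w|).mul_left C
  refine Summable.of_norm_bounded h fun i => ?_
  rw [Real.norm_eq_abs, abs_mul, abs_pow]
  calc |a i| * |w| ^ i ≤ C / (i.factorial : ℝ) * |w| ^ i :=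
        mul_le_mul_of_nonneg_right (ha i) (by positivity)
    _ = C * (|w| ^ i / (i.factorial : ℝ)) := by ring

private theorem ps_deriv (a : ℕ → ℝ) (C : ℝ) (ha : ∀ i, |a i| ≤ C / (i.factorial : ℝ)) (w : ℝ) :
    HasDerivAt (fun w : ℝ => ∑' i : ℕ, a i * w ^ i) (∑' i : ℕ, (((i : ℝ) + 1) * a (i + 1)) * w ^ i) w := by
  set R : ℝ := |w| + 1 with hR
  have hR0 : 0 < R := by positivity
  have hu : Summable (fun n : ℕ => |a n| * (n * R ^ (n - 1))) := by
    rw [← summable_nat_add_iff 1]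
    have h := (Real.summable_pow_div_factorial R).mul_left C
    refine Summable.of_nonneg_of_le (fun n => by positivity) (fun n => ?_) h
    have h1 := ha (n + 1)
    calc |a (n + 1)| * (((n + 1 : ℕ) : ℝ) * R ^ (n + 1 - 1))
        ≤ C / ((n + 1).factorial : ℝ) * (((n + 1 : ℕ) : ℝ) * R ^ (n + 1 - 1)) :=
          mul_le_mul_of_nonneg_right h1 (by positivity)
      _ = C * (R ^ n / (n.factorial : ℝ)) := by
          rw [Nat.factorial_succ, Nat.add_sub_cancel]
          push_cast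
          field_simp
  have hd := hasDerivAt_tsum_of_isPreconnected (𝕜 := ℝ) (g := fun (n : ℕ) (y : ℝ) => a n * y ^ n)
    (g' := fun (n : ℕ) (y : ℝ) => a n * (n * y ^ (n - 1))) (y₀ := 0) (y := w)
    hu (Metric.isOpen_ball (x := (0 : ℝ)) (ε := R)) (convex_ball _ _).isPreconnected
    (fun n y _ => (hasDerivAt_pow n y).const_mul (a n))
    (fun n y hy => by
      rw [Real.norm_eq_abs, abs_mul, abs_mul, abs_pow, Nat.abs_cast]
      have hy' : |y| ≤ R := by
        have := mem_ball_zero_iff.1 hy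
        rw [Real.norm_eq_abs] at this
        exact this.le
      gcongr)
    (Metric.mem_ball_self hR0) (ps_summable a C ha 0) (by
      rw [mem_ball_zero_iff, Real.norm_eq_abs, hR]; linarith)
  have hs : Summable (fun n : ℕ => a n * (n * w ^ (n - 1))) := by
    refine Summable.of_norm_bounded hu fun n => ?_
    rw [Real.norm_eq_abs, abs_mul, abs_mul, abs_pow, Nat.abs_cast]
    have : |w| ≤ R := by rw [hR]; linarith
    gcongr
  have e : ∑' n : ℕ, a n * (n * w ^ (n - 1)) =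
      ∑' i : ℕ, (((i : ℝ) + 1) * a (i + 1)) * w ^ i := by
    rw [hs.tsum_eq_zero_add]
    simp only [Nat.cast_zero, zero_mul, mul_zero, zero_add, Nat.add_sub_cancel]
    refine tsum_congr fun i => ?_
    push_cast
    ring
  rw [← e]
  exact hd

private theorem bc_bound {κ : ℝ} (hκ : 0 < κ) (i : ℕ) :
    |bc κ i| ≤ max 1 (1 / (2 * κ)) / (i.factorial : ℝ) := by
  set C := max 1 (1 / (2 * κ)) with hC
  have hC1 : 1 ≤ C := le_max_left _ _
  have hC2 : 1 / (2 * κ) ≤ C := le_max_right _ _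
  have h1 : ∀ i : ℕ, |bc κ (i + 1)| ≤ C / ((i + 1).factorial : ℝ) := by
    intro i
    induction i with
    | zero =>
      have : bc κ (0 + 1) = -(1 / (2 * κ)) := by
        simp only [bc]
        field_simp
        norm_num
        ring
      rw [this, abs_neg, abs_of_pos (by positivity)]
      simpa using hC2
    | succ i ih =>
      have hd : (1 : ℝ) ≤ 4 * (((i + 1 : ℕ) : ℝ) + κ / 2) := by
        push_cast
        have : (0 : ℝ) ≤ i := Nat.cast_nonneg i
        linarith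
      have e : bc κ (i + 1 + 1) =
          -bc κ (i + 1) / (4 * (((i + 1 : ℕ) : ℝ) + 1) * (((i + 1 : ℕ) : ℝ) + κ / 2)) := rfl
      rw [e, abs_div, abs_neg, abs_of_pos (by positivity :
        (0 : ℝ) < 4 * (((i + 1 : ℕ) : ℝ) + 1) * (((i + 1 : ℕ) : ℝ) + κ / 2))]
      rw [div_le_iff₀ (by positivity)]
      refine ih.trans ?_
      rw [Nat.factorial_succ (i + 1)]
      have hf : (0 : ℝ) < ((i + 1).factorial : ℝ) := by positivity
      have : C / (((i + 1 + 1 : ℕ) * (i + 1).factorial : ℕ) : ℝ) *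
          (4 * (((i + 1 : ℕ) : ℝ) + 1) * (((i + 1 : ℕ) : ℝ) + κ / 2)) =
          C / ((i + 1).factorial : ℝ) * (4 * (((i + 1 : ℕ) : ℝ) + κ / 2)) := by
        push_cast
        field_simp
      rw [this]
      exact le_mul_of_one_le_right (by positivity) hd
  rcases i with _ | i
  · simpa [bc] using hC1
  · exact h1 i

private theorem bc_rel {κ : ℝ} (hκ : 0 < κ) (i : ℕ) :
    ((i : ℝ) + 1) * bc κ (i + 1) = -(1 / (2 * κ)) * bc (κ + 2) i := by
  induction i with
  | zero =>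
    simp only [bc]
    field_simp
    norm_num
    ring
  | succ i ih =>
    have e1 : bc κ (i + 1 + 1) =
        -bc κ (i + 1) / (4 * (((i + 1 : ℕ) : ℝ) + 1) * (((i + 1 : ℕ) : ℝ) + κ / 2)) := rfl
    have e2 : bc (κ + 2) (i + 1) =
        -bc (κ + 2) i / (4 * ((i : ℝ) + 1) * ((i : ℝ) + (κ + 2) / 2)) := rfl
    have hi : (0 : ℝ) ≤ i := Nat.cast_nonneg i
    have hne1 : (i : ℝ) + 1 ≠ 0 := by positivity
    have hne2 : (i : ℝ) + (κ + 2) / 2 ≠ 0 := by positivity
    have hne3 : (i : ℝ) + 1 + 1 ≠ 0 := by positivity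
    have e3 : -(1 / (2 * κ)) * bc (κ + 2) (i + 1) =
        -(-(1 / (2 * κ)) * bc (κ + 2) i) / (4 * ((i : ℝ) + 1) * ((i : ℝ) + (κ + 2) / 2)) := by
      rw [e2]; ring
    rw [e3, ← ih, e1]
    push_cast
    have e4 : (i : ℝ) + (κ + 2) / 2 = (i : ℝ) + 1 + κ / 2 := by ring
    have hne4 : (i : ℝ) + 1 + κ / 2 ≠ 0 := by positivity
    rw [e4]
    field_simp

theorem B_zero (κ : ℝ) : B κ 0 = 1 := by
  unfold B
  rw [tsum_eq_single 0]
  · simp [bc]
  · intro i hi
    simp [hi]

theorem B_hasDeriv {κ : ℝ} (hκ : 0 < κ) (w : ℝ) :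
    HasDerivAt (B κ) (-(1 / (2 * κ)) * B (κ + 2) w) w := by
  have h := ps_deriv (bc κ) _ (bc_bound hκ) w
  have e : ∑' i : ℕ, (((i : ℝ) + 1) * bc κ (i + 1)) * w ^ i = -(1 / (2 * κ)) * B (κ + 2) w := by
    unfold B
    rw [← tsum_mul_left]
    refine tsum_congr fun i => ?_
    rw [bc_rel hκ, mul_assoc]
  rw [e] at h
  exact h

theorem B_rec {κ : ℝ} (hκ : 0 < κ) (w : ℝ) :
    B κ w = B (κ + 2) w - w / (κ * (κ + 2)) * B (κ + 4) w := by
  have s0 := ps_summable (bc κ) _ (bc_bound hκ) w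
  have s2 := ps_summable (bc (κ + 2)) _ (bc_bound (by linarith : 0 < κ + 2)) w
  have s4 := ps_summable (bc (κ + 4)) _ (bc_bound (by linarith : 0 < κ + 4)) w
  have t2 := (summable_nat_add_iff 1).2 s2
  have t4 := s4.mul_left (w / (κ * (κ + 2)))
  unfold B
  rw [s0.tsum_eq_zero_add, s2.tsum_eq_zero_add, ← tsum_mul_left, add_sub_assoc,
    ← t2.tsum_sub t4]
  congr 1
  refine tsum_congr fun i => ?_
  have hi : (0 : ℝ) ≤ i := Nat.cast_nonneg i
  have r1 := bc_rel hκ i
  have r2 := bc_rel (by linarith : 0 < κ + 2) i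
  have e2 : bc (κ + 2) (i + 1) =
        -bc (κ + 2) i / (4 * ((i : ℝ) + 1) * ((i : ℝ) + (κ + 2) / 2)) := rfl
  have hne1 : (i : ℝ) + 1 ≠ 0 := by positivity
  have hne2 : (i : ℝ) + (κ + 2) / 2 ≠ 0 := by positivity
  have hne3 : κ ≠ 0 := hκ.ne'
  have hne4 : κ + 2 ≠ 0 := by positivity
  have e24 : κ + 2 + 2 = κ + 4 := by ring
  rw [e24] at r2
  set X := bc (κ + 2) (i + 1) with hX
  have f1 : bc (κ + 2) i = -(4 * ((i : ℝ) + 1) * ((i : ℝ) + (κ + 2) / 2)) * X := by
    rw [e2]; field_simp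
  have f2 : bc (κ + 4) i = -(2 * (κ + 2) * ((i : ℝ) + 1)) * X := by
    have : bc (κ + 4) i = -(2 * (κ + 2)) * (-(1 / (2 * (κ + 2))) * bc (κ + 4) i) := by
      field_simp
    rw [this, ← r2]; ring
  have f3 : bc κ (i + 1) = (-(1 / (2 * κ)) * bc (κ + 2) i) / ((i : ℝ) + 1) := by
    rw [← r1]; field_simp
  rw [f3, f1, f2, pow_succ]
  field_simp
  ring

theorem B_smooth {κ : ℝ} (hκ : 0 < κ) : ContDiff ℝ ∞ (B κ) := by
  have hmain : ∀ n : ℕ, ∀ κ : ℝ, 0 < κ → ContDiff ℝ n (B κ) := by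
    intro n
    induction n with
    | zero =>
      intro κ hκ
      rw [Nat.cast_zero, contDiff_zero]
      have hd : Differentiable ℝ (B κ) := fun w => (B_hasDeriv hκ w).differentiableAt
      exact hd.continuous
    | succ n ih =>
      intro κ hκ
      rw [Nat.cast_succ, contDiff_succ_iff_deriv]
      refine ⟨fun w => (B_hasDeriv hκ w).differentiableAt, fun h => ?_, ?_⟩
      · exact absurd h (by simp)
      · have : deriv (B κ) = fun w => -(1 / (2 * κ)) * B (κ + 2) w := by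
          funext w
          exact (B_hasDeriv hκ w).deriv
        rw [this]
        exact contDiff_const.mul (ih (κ + 2) (by linarith))
  exact contDiff_infty.2 fun n => hmain n κ hκ

theorem B_one (x : ℝ) : B 1 (x ^ 2) = Real.cos x := by
  have hb : ∀ i : ℕ, bc 1 i = (-1) ^ i / ((2 * i).factorial : ℝ) := by
    intro i
    induction i with
    | zero => simp [bc]
    | succ i ih =>
      have e : bc 1 (i + 1) = -bc 1 i / (4 * ((i : ℝ) + 1) * ((i : ℝ) + 1 / 2)) := rfl
      have hf : ((2 * (i + 1)).factorial : ℝ) = (2 * (i : ℝ) + 2) * (2 * i + 1) * ((2 * i).factorial : ℝ) := by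
        rw [show 2 * (i + 1) = 2 * i + 1 + 1 by ring, Nat.factorial_succ, Nat.factorial_succ]
        push_cast
        ring
      rw [e, ih, hf, pow_succ]
      have hi : (0 : ℝ) ≤ i := Nat.cast_nonneg i
      have h1 : ((2 * i).factorial : ℝ) ≠ 0 := by positivity
      have h2 : (i : ℝ) + 1 ≠ 0 := by positivity
      have h3 : 2 * (i : ℝ) + 1 ≠ 0 := by positivity
      have e5 : (i : ℝ) + 1 / 2 = (2 * i + 1) / 2 := by ring
      have e6 : 2 * (i : ℝ) + 2 = 2 * (i + 1) := by ring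
      rw [e5, e6]
      field_simp
      ring
  unfold B
  rw [Real.cos_eq_tsum]
  refine tsum_congr fun i => ?_
  rw [hb, ← pow_mul]
  ring

end Pool.Agent.TUB
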