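import Pool.Agent.TUB.BSer

/-!
# TUB-BZero: the first zero of `B κ` exists and is at most `κ (κ + 4) / 2`

Picone argument in the variable `w = s²`: `b = B κ` satisfies `(w^a b')' = - w^(a-1) b / 4` with `a = κ/2`. If `b > 0` on
`[0, ρ]`, then `G(w) = w^a b'(w) (ρ - w)²/b(w)` vanishes at `0` and `ρ`, and
`G' ≤ w^a - w^(a-1) (ρ - w)²/4 = H'`, where `H(0) = 0` and `H(ρ) < 0` if `ρ > κ(κ+4)/2`.
-/

open scoped BigOperators Topology ContDiff
open Filter Set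

namespace Pool.Agent.TUB

private theorem bz_cont {κ : ℝ} (hκ : 0 < κ) : Continuous (B κ) := (B_smooth hκ).continuous

private noncomputable def bzG (κ ρ w : ℝ) : ℝ :=
  w ^ (κ / 2) * (-(1 / (2 * κ)) * B (κ + 2) w) * (ρ - w) ^ 2 / B κ w

private noncomputable def bzH (κ ρ w : ℝ) : ℝ :=
  w ^ (κ / 2 + 1) / (κ / 2 + 1) - (1 / 4) * (ρ ^ 2 * (w ^ (κ / 2) / (κ / 2)) -
    2 * ρ * (w ^ (κ / 2 + 1) / (κ / 2 + 1)) + w ^ (κ / 2 + 2) / (κ / 2 + 2))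

private theorem bz_pow {a w : ℝ} (hw : 0 < w) : w ^ a = w ^ (a - 1) * w := by
  have h : w ^ (a - 1) * w = w ^ (a - 1) * w ^ (1 : ℝ) := by rw [Real.rpow_one]
  rw [h, ← Real.rpow_add hw, sub_add_cancel]

private theorem bzG_deriv {κ ρ w : ℝ} (hκ : 0 < κ) (hw : 0 < w) (hB : 0 < B κ w) :
    ∃ D : ℝ, HasDerivAt (bzG κ ρ) D w ∧
      D ≤ w ^ (κ / 2 - 1) * w - (1 / 4) * (w ^ (κ / 2 - 1) * (ρ - w) ^ 2) := by
  have h1 : HasDerivAt (fun x : ℝ => x ^ (κ / 2)) (κ / 2 * w ^ (κ / 2 - 1)) w :=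
    Real.hasDerivAt_rpow_const (Or.inl hw.ne')
  have h2 : HasDerivAt (fun x : ℝ => -(1 / (2 * κ)) * B (κ + 2) x)
      (-(1 / (2 * κ)) * (-(1 / (2 * (κ + 2))) * B (κ + 2 + 2) w)) w :=
    (B_hasDeriv (by linarith) w).const_mul _
  have h3 : HasDerivAt (fun x : ℝ => (ρ - x) ^ 2) (2 * (ρ - w) ^ (2 - 1) * (-1)) w :=
    ((hasDerivAt_id w).const_sub ρ).pow 2
  have h4 := B_hasDeriv hκ w
  have h5 := ((h1.mul h2).mul h3).div h4 hB.ne'
  refine ⟨_, h5, ?_⟩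
  have h6 := B_rec hκ w
  have h7 : κ + 2 + 2 = κ + 4 := by ring
  rw [h7]
  have h8 : w ^ (κ / 2) = w ^ (κ / 2 - 1) * w := bz_pow hw
  have hκ' : κ ≠ 0 := hκ.ne'
  have hκ2 : κ + 2 ≠ 0 := by linarith
  have hp : 0 < w ^ (κ / 2 - 1) := Real.rpow_pos_of_pos hw _
  have hB' := hB.ne'
  simp only [Pi.mul_apply]
  rw [h8]
  have key : ((κ / 2 * w ^ (κ / 2 - 1) * (-(1 / (2 * κ)) * B (κ + 2) w) +
        w ^ (κ / 2 - 1) * w * (-(1 / (2 * κ)) * (-(1 / (2 * (κ + 2))) * B (κ + 4) w))) * (ρ - w) ^ 2 +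
        w ^ (κ / 2 - 1) * w * (-(1 / (2 * κ)) * B (κ + 2) w) * (2 * (ρ - w) ^ (2 - 1) * (-1))) * B κ w -
        w ^ (κ / 2 - 1) * w * (-(1 / (2 * κ)) * B (κ + 2) w) * (ρ - w) ^ 2 *
          (-(1 / (2 * κ)) * B (κ + 2) w) =
      (w ^ (κ / 2 - 1) * w - (1 / 4) * (w ^ (κ / 2 - 1) * (ρ - w) ^ 2) -
        w ^ (κ / 2 - 1) * w * (1 + (ρ - w) * (-(1 / (2 * κ)) * B (κ + 2) w) / B κ w) ^ 2) * B κ w ^ 2 := by
    have h9 : w * B (κ + 4) w = κ * (κ + 2) * (B (κ + 2) w - B κ w) := by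
      rw [h6]
      field_simp
      ring
    have h10 : w * (-(1 / (2 * κ)) * (-(1 / (2 * (κ + 2))) * B (κ + 4) w)) =
        (B (κ + 2) w - B κ w) / 4 := by
      calc w * (-(1 / (2 * κ)) * (-(1 / (2 * (κ + 2))) * B (κ + 4) w))
          = (w * B (κ + 4) w) / (4 * κ * (κ + 2)) := by field_simp; ring
        _ = (B (κ + 2) w - B κ w) / 4 := by rw [h9]; field_simp
    have h11 : w ^ (κ / 2 - 1) * w * (-(1 / (2 * κ)) * (-(1 / (2 * (κ + 2))) * B (κ + 4) w)) =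
        w ^ (κ / 2 - 1) * ((B (κ + 2) w - B κ w) / 4) := by
      rw [mul_assoc, h10]
    rw [h11]
    field_simp
    ring
  rw [key, mul_div_assoc, div_self (pow_ne_zero 2 hB'), mul_one]
  have h12 : 0 ≤ w ^ (κ / 2 - 1) * w *
      (1 + (ρ - w) * (-(1 / (2 * κ)) * B (κ + 2) w) / B κ w) ^ 2 := by positivity
  linarith

private theorem bzH_deriv {κ ρ w : ℝ} (hκ : 0 < κ) (hw : 0 < w) :
    HasDerivAt (bzH κ ρ) (w ^ (κ / 2 - 1) * w - (1 / 4) * (w ^ (κ / 2 - 1) * (ρ - w) ^ 2)) w := by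
  have h1 : HasDerivAt (fun x : ℝ => x ^ (κ / 2)) (κ / 2 * w ^ (κ / 2 - 1)) w :=
    Real.hasDerivAt_rpow_const (Or.inl hw.ne')
  have h2 : HasDerivAt (fun x : ℝ => x ^ (κ / 2 + 1)) ((κ / 2 + 1) * w ^ (κ / 2 + 1 - 1)) w :=
    Real.hasDerivAt_rpow_const (Or.inl hw.ne')
  have h3 : HasDerivAt (fun x : ℝ => x ^ (κ / 2 + 2)) ((κ / 2 + 2) * w ^ (κ / 2 + 2 - 1)) w :=
    Real.hasDerivAt_rpow_const (Or.inl hw.ne')
  have h4 := (h2.div_const (κ / 2 + 1)).sub ((((h1.div_const (κ / 2)).const_mul (ρ ^ 2)).sub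
    ((h2.div_const (κ / 2 + 1)).const_mul (2 * ρ))).add (h3.div_const (κ / 2 + 2))|>.const_mul (1 / 4))
  refine HasDerivAt.congr_deriv h4 ?_
  have e1 : w ^ (κ / 2 + 1 - 1) = w ^ (κ / 2 - 1) * w := by
    rw [add_sub_cancel_right]
    exact bz_pow hw
  have e2 : w ^ (κ / 2 + 2 - 1) = w ^ (κ / 2 - 1) * w * w := by
    have : κ / 2 + 2 - 1 = κ / 2 + 1 := by ring
    rw [this, bz_pow hw (a := κ / 2 + 1), e1]
  rw [e1, e2]
  have h5 : κ / 2 + 1 ≠ 0 := by linarith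
  have h6 : κ / 2 + 2 ≠ 0 := by linarith
  have h7 : κ / 2 ≠ 0 := by linarith
  have e3 : κ / 2 * w ^ (κ / 2 - 1) / (κ / 2) = w ^ (κ / 2 - 1) := mul_div_cancel_left₀ _ h7
  have e4 : (κ / 2 + 1) * (w ^ (κ / 2 - 1) * w) / (κ / 2 + 1) = w ^ (κ / 2 - 1) * w :=
    mul_div_cancel_left₀ _ h5
  have e5 : (κ / 2 + 2) * (w ^ (κ / 2 - 1) * w * w) / (κ / 2 + 2) = w ^ (κ / 2 - 1) * w * w :=
    mul_div_cancel_left₀ _ h6
  rw [e3, e4, e5]
  ring

private theorem bz_exists {κ : ℝ} (hκ : 1 ≤ κ) {ρ : ℝ} (hρ : κ * (κ + 4) / 2 < ρ) :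
    ∃ w, 0 < w ∧ w ≤ ρ ∧ B κ w = 0 := by
  have hκ0 : 0 < κ := by linarith
  have hρ0 : 0 < ρ := lt_of_le_of_lt (by positivity) hρ
  by_contra hno
  push Not at hno
  have hpos : ∀ w ∈ Icc (0 : ℝ) ρ, 0 < B κ w := by
    intro w hw
    by_contra hneg
    push Not at hneg
    have h0 : (0 : ℝ) ∈ Icc (B κ w) (B κ 0) := by
      rw [B_zero]
      exact ⟨hneg, zero_le_one⟩
    obtain ⟨x, hx, hx0⟩ := intermediate_value_Icc' hw.1 (bz_cont hκ0).continuousOn h0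
    rcases hx.1.eq_or_lt with h | h
    · rw [← h, B_zero] at hx0
      exact one_ne_zero hx0
    · exact hno x h (hx.2.trans hw.2) hx0
  have hpc : Continuous fun w : ℝ => w ^ (κ / 2) := Real.continuous_rpow_const (by positivity)
  have hpc1 : Continuous fun w : ℝ => w ^ (κ / 2 + 1) := Real.continuous_rpow_const (by positivity)
  have hpc2 : Continuous fun w : ℝ => w ^ (κ / 2 + 2) := Real.continuous_rpow_const (by positivity)
  have hGc : ContinuousOn (bzG κ ρ) (Icc 0 ρ) := by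
    unfold bzG
    refine ContinuousOn.div ?_ (bz_cont hκ0).continuousOn fun w hw => (hpos w hw).ne'
    have hc2 := bz_cont (κ := κ + 2) (by linarith)
    exact ((hpc.mul (continuous_const.mul hc2)).mul ((continuous_const.sub continuous_id).pow 2)).continuousOn
  have hHc : Continuous (bzH κ ρ) := by
    unfold bzH
    exact (hpc1.div_const _).sub (continuous_const.mul (((continuous_const.mul (hpc.div_const _)).sub
      (continuous_const.mul (hpc1.div_const _))).add (hpc2.div_const _)))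
  have hanti : AntitoneOn (fun w => bzG κ ρ w - bzH κ ρ w) (Icc 0 ρ) := by
    refine antitoneOn_of_deriv_nonpos (convex_Icc 0 ρ) (hGc.sub hHc.continuousOn) ?_ ?_
    · intro w hw
      rw [interior_Icc] at hw
      obtain ⟨D, hD, -⟩ := bzG_deriv (ρ := ρ) hκ0 hw.1 (hpos w ⟨hw.1.le, hw.2.le⟩)
      exact (hD.sub (bzH_deriv (ρ := ρ) hκ0 hw.1)).differentiableAt.differentiableWithinAt
    · intro w hw
      rw [interior_Icc] at hw
      obtain ⟨D, hD, hD2⟩ := bzG_deriv (ρ := ρ) hκ0 hw.1 (hpos w ⟨hw.1.le, hw.2.le⟩)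
      have h1 := (hD.sub (bzH_deriv (ρ := ρ) hκ0 hw.1)).deriv
      have h2 : deriv (fun w => bzG κ ρ w - bzH κ ρ w) w =
          D - (w ^ (κ / 2 - 1) * w - (1 / 4) * (w ^ (κ / 2 - 1) * (ρ - w) ^ 2)) := h1
      rw [h2]
      linarith
  have h1 := hanti (left_mem_Icc.2 hρ0.le) (right_mem_Icc.2 hρ0.le) hρ0.le
  simp only at h1
  have hG0 : bzG κ ρ 0 = 0 := by
    unfold bzG
    rw [Real.zero_rpow (by positivity)]
    simp
  have hGρ : bzG κ ρ ρ = 0 := by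
    unfold bzG
    simp
  have hH0 : bzH κ ρ 0 = 0 := by
    unfold bzH
    rw [Real.zero_rpow (by positivity), Real.zero_rpow (by positivity), Real.zero_rpow (by positivity)]
    simp
  have hHρ : bzH κ ρ ρ < 0 := by
    have e1 : ρ ^ (κ / 2 + 1) = ρ ^ (κ / 2) * ρ := by
      rw [Real.rpow_add hρ0, Real.rpow_one]
    have e2 : ρ ^ (κ / 2 + 2) = ρ ^ (κ / 2) * ρ ^ 2 := by
      rw [Real.rpow_add hρ0, Real.rpow_two]
    have hp : 0 < ρ ^ (κ / 2) := Real.rpow_pos_of_pos hρ0 _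
    have e3 : bzH κ ρ ρ = -(ρ ^ (κ / 2) * ρ / (κ / 2 + 1) * ((ρ - κ * (κ + 4) / 2) / (κ * (κ + 4) / 2))) := by
      unfold bzH
      rw [e1, e2]
      field_simp
      ring
    rw [e3, neg_lt_zero]
    have h5 : 0 < ρ - κ * (κ + 4) / 2 := by linarith
    positivity
  rw [hG0, hGρ, hH0] at h1
  linarith

theorem jw_facts {κ : ℝ} (hκ : 1 ≤ κ) : 0 < jw κ ∧ B κ (jw κ) = 0 ∧
    (∀ w, 0 ≤ w → w < jw κ → 0 < B κ w) ∧ jw κ ≤ κ * (κ + 4) / 2 := by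
  have hκ0 : 0 < κ := by linarith
  have hc := bz_cont hκ0
  have hbdd : BddBelow {w : ℝ | 0 < w ∧ B κ w = 0} := ⟨0, fun w hw => hw.1.le⟩
  obtain ⟨w0, hw0, -, hw0'⟩ := bz_exists hκ (ρ := κ * (κ + 4) / 2 + 1) (by linarith)
  have hne : {w : ℝ | 0 < w ∧ B κ w = 0}.Nonempty := ⟨w0, hw0, hw0'⟩
  obtain ⟨δ, hδ, hδ'⟩ : ∃ δ > 0, ∀ w, |w| < δ → 0 < B κ w := by
    have h1 : ∀ᶠ w in 𝓝 (0 : ℝ), 0 < B κ w := by
      refine hc.continuousAt.eventually_const_lt ?_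
      rw [B_zero]
      exact zero_lt_one
    obtain ⟨δ, hδ, h⟩ := Metric.eventually_nhds_iff.1 h1
    exact ⟨δ, hδ, fun w hw => h (by rw [Real.dist_eq, sub_zero]; exact hw)⟩
  have hlow : δ ≤ jw κ := by
    refine le_csInf hne fun w hw => ?_
    by_contra h
    push Not at h
    have := hδ' w (by rw [abs_of_pos hw.1]; exact h)
    rw [hw.2] at this
    exact lt_irrefl 0 this
  have hpos : 0 < jw κ := lt_of_lt_of_le hδ hlow
  refine ⟨hpos, ?_, ?_, ?_⟩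
  · have h1 : jw κ ∈ closure {w : ℝ | 0 < w ∧ B κ w = 0} := csInf_mem_closure hne hbdd
    have h2 : closure {w : ℝ | 0 < w ∧ B κ w = 0} ⊆ {w : ℝ | B κ w = 0} := by
      refine closure_minimal (fun w hw => hw.2) ?_
      exact isClosed_eq hc continuous_const
    exact h2 h1
  · intro w hw hwj
    by_contra hneg
    push Not at hneg
    have h0 : (0 : ℝ) ∈ Icc (B κ w) (B κ 0) := by
      rw [B_zero]
      exact ⟨hneg, zero_le_one⟩
    obtain ⟨x, hx, hx0⟩ := intermediate_value_Icc' hw hc.continuousOn h0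
    rcases hx.1.eq_or_lt with h | h
    · rw [← h, B_zero] at hx0
      exact one_ne_zero hx0
    · have h3 : jw κ ≤ x := csInf_le hbdd ⟨h, hx0⟩
      linarith [hx.2]
  · refine le_of_forall_gt_imp_ge_of_dense fun ρ hρ => ?_
    obtain ⟨w, hw, hwρ, hw0⟩ := bz_exists hκ hρ
    exact (csInf_le hbdd ⟨hw, hw0⟩).trans hwρ

end Pool.Agent.TUB
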