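import Pool.Agent.TUB.Defs

/-!
# Project TUB: branches (definition)
-/

open scoped BigOperators Topology Manifold ContDiff
open Filter Set

namespace Pool.Agent.TUB

variable (m : ℕ) {n : ℕ} {X : Type*} [TopologicalSpace X] [ChartedSpace (E m) X]

/-- `ξ x`, `x ∈ I`, are the branches of the foot point map over the open set `W ∋ y₀`, for feet at distance `≤ r`. -/
structure Br (f : X → E n) (c r : ℝ) (y₀ : E n) (I : Finset X) (W : Set (E n))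
    (ξ : X → E n → X) : Prop where
  isOpen : IsOpen W
  mem : y₀ ∈ W
  base : ∀ x ∈ I, ξ x y₀ = x
  cont : ∀ x ∈ I, ContinuousOn (ξ x) W
  normal : ∀ x ∈ I, ∀ y ∈ W, y - f (ξ x y) ∈ (tan m f (ξ x y))ᗮ
  lt : ∀ x ∈ I, ∀ y ∈ W, ‖y - f (ξ x y)‖ < 1 / c
  der : ∀ x ∈ I, ∀ y ∈ W,
    HasFDerivAt (fun y => ‖y - f (ξ x y)‖ ^ 2) ((2 : ℝ) • innerSL ℝ (y - f (ξ x y))) y
  inj : ∀ y ∈ W, ∀ x ∈ I, ∀ x' ∈ I, ξ x y = ξ x' y → x = x'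
  all : ∀ y ∈ W, ∀ x : X, y - f x ∈ (tan m f x)ᗮ → ‖y - f x‖ ≤ r → ∃ x' ∈ I, ξ x' y = x

end Pool.Agent.TUB
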