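import Pool.Agent.TUB.BrDef

/-!
# Project TUB: the feet in terms of the branches

For `y ∈ W` and `s ≤ r` the map `x ↦ ξ x y` is a bijection from
`I.filter (fun x => ‖y - f (ξ x y)‖ < s)` to `feet m f y s`.
-/

open scoped BigOperators Topology Manifold ContDiff
open Filter Set

namespace Pool.Agent.TUB

variable {m n : ℕ} {X : Type*} [TopologicalSpace X] [ChartedSpace (E m) X]

open Classical in
theorem Br.feet_eq {f : X → E n} {c r : ℝ} {y₀ : E n} {I : Finset X} {W : Set (E n)}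
    {ξ : X → E n → X} (h : Br m f c r y₀ I W ξ) {y : E n} (hy : y ∈ W) {s : ℝ} (hs : s ≤ r) :
    feet m f y s = ↑((I.filter (fun x => ‖y - f (ξ x y)‖ < s)).image (fun x => ξ x y)) := by
  ext x
  simp only [feet, Set.mem_ofPred_eq, Finset.coe_image, Finset.coe_filter, Set.mem_image]
  constructor
  · rintro ⟨h1, h2⟩
    obtain ⟨x', hx', he⟩ := h.all y hy x h1 (h2.le.trans hs)
    exact ⟨x', ⟨hx', by rw [he]; exact h2⟩, he⟩
  · rintro ⟨x', ⟨hx', h2⟩, rfl⟩
    exact ⟨h.normal x' hx' y hy, h2⟩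

open Classical in
private theorem injOn_filter {f : X → E n} {c r : ℝ} {y₀ : E n} {I : Finset X} {W : Set (E n)}
    {ξ : X → E n → X} (h : Br m f c r y₀ I W ξ) {y : E n} (hy : y ∈ W) (s : ℝ) :
    Set.InjOn (fun x => ξ x y) ↑(I.filter (fun x => ‖y - f (ξ x y)‖ < s)) := by
  intro x hx x' hx' he
  rw [Finset.coe_filter] at hx hx'
  exact h.inj y hy x hx.1 x' hx'.1 he

theorem Br.finite {f : X → E n} {c r : ℝ} {y₀ : E n} {I : Finset X} {W : Set (E n)}
    {ξ : X → E n → X} (h : Br m f c r y₀ I W ξ) {y : E n} (hy : y ∈ W) {s : ℝ} (hs : s ≤ r) :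
    (feet m f y s).Finite := by
  classical
  rw [h.feet_eq hy hs]
  exact Finset.finite_toSet _

open Classical in
theorem Br.encard {f : X → E n} {c r : ℝ} {y₀ : E n} {I : Finset X} {W : Set (E n)}
    {ξ : X → E n → X} (h : Br m f c r y₀ I W ξ) {y : E n} (hy : y ∈ W) {s : ℝ} (hs : s ≤ r) :
    (feet m f y s).encard = ((I.filter (fun x => ‖y - f (ξ x y)‖ < s)).card : ℕ∞) := by
  rw [h.feet_eq hy hs, Set.encard_coe_eq_coe_finsetCard,
    Finset.card_image_of_injOn (injOn_filter h hy s)]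

open Classical in
theorem Br.finsum {f : X → E n} {c r : ℝ} {y₀ : E n} {I : Finset X} {W : Set (E n)}
    {ξ : X → E n → X} (h : Br m f c r y₀ I W ξ) {y : E n} (hy : y ∈ W) {s : ℝ} (hs : s ≤ r)
    (Φ : X → ℝ) : ∑ᶠ x ∈ feet m f y s, Φ x =
      ∑ x ∈ I.filter (fun x => ‖y - f (ξ x y)‖ < s), Φ (ξ x y) := by
  rw [h.feet_eq hy hs, finsum_mem_coe_finset]
  exact Finset.sum_image (injOn_filter h hy s)

end Pool.Agent.TUB
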