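import Pool.Agent.TUB.Meas

/-!
# TUB-Cake: integrals over the feet in terms of the tube volumes
-/

open scoped BigOperators Topology Manifold ContDiff
open MeasureTheory Filter Set

namespace Pool.Agent.TUB

variable {m n : ℕ} {X : Type*} [TopologicalSpace X] [T2Space X] [CompactSpace X]
  [ChartedSpace (E m) X] [IsManifold (𝓡 m) ∞ X]

omit [T2Space X] [CompactSpace X] [IsManifold (𝓡 m) ∞ X] in
private theorem ck_sub (f : X → E n) (y : E n) {s t : ℝ} (h : s ≤ t) :
    feet m f y s ⊆ feet m f y t :=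
  fun _ hx => ⟨hx.1, hx.2.trans_le h⟩

/-- the number of feet at distance less than `min s r`, as a real number -/
private noncomputable def ckK (f : X → E n) (r s : ℝ) (y : E n) : ℝ :=
  ((feet m f y (min s r)).encard : ENNReal).toReal

private theorem ck_ind (f : X → E n) (h1 : ∀ x, ‖f x‖ ≤ 1) {r : ℝ} {C : ℕ}
    (hC : ∀ y, (feet m f y r).encard ≤ C) (s : ℝ) (y : E n) :
    ((feet m f y (min s r)).encard : ENNReal) ≤
      (Metric.ball (0 : E n) (1 + r)).indicator (fun _ => (C : ENNReal)) y := by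
  have hsub := ck_sub (m := m) f y (min_le_right s r)
  by_cases hy : y ∈ Metric.ball (0 : E n) (1 + r)
  · rw [indicator_of_mem hy]
    have h2 : (feet m f y (min s r)).encard ≤ C := (encard_le_encard hsub).trans (hC y)
    have h3 := ENat.toENNReal_mono h2
    rwa [ENat.toENNReal_coe] at h3
  · rw [indicator_of_notMem hy]
    rw [mem_ball_zero_iff, not_lt] at hy
    have h2 : feet m f y (min s r) = ∅ := by
      rw [feet_empty f h1 hy] at hsub
      exact subset_empty_iff.1 hsub
    rw [h2, encard_empty]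
    simp

private theorem ck_le (f : X → E n) (h1 : ∀ x, ‖f x‖ ≤ 1) {r : ℝ} {C : ℕ}
    (hC : ∀ y, (feet m f y r).encard ≤ C) (s : ℝ) (y : E n) :
    ckK (m := m) f r s y ≤ (Metric.ball (0 : E n) (1 + r)).indicator (fun _ => (C : ℝ)) y := by
  have h2 := ck_ind f h1 hC s y
  unfold ckK
  by_cases hy : y ∈ Metric.ball (0 : E n) (1 + r)
  · rw [indicator_of_mem hy] at h2 ⊢
    have h3 := ENNReal.toReal_mono (ENNReal.natCast_ne_top C) h2
    rwa [ENNReal.toReal_natCast] at h3
  · rw [indicator_of_notMem hy] at h2 ⊢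
    have h3 := ENNReal.toReal_mono ENNReal.zero_ne_top h2
    rwa [ENNReal.toReal_zero] at h3

private theorem ck_meas (f : X → E n) (hf : Imm m f) {c r : ℝ} (hc0 : 0 < c)
    (hc : CurvLE m f c) (hr : r < 1 / c) :
    Measurable (fun p : ℝ × E n => ckK (m := m) f r p.1 p.2) :=
  (feet_meas f hf hc0 hc hr).ennreal_toReal

private theorem ck_meas1 (f : X → E n) (hf : Imm m f) {c r : ℝ} (hc0 : 0 < c)
    (hc : CurvLE m f c) (hr : r < 1 / c) (s : ℝ) :
    Measurable (fun y : E n => ((feet m f y (min s r)).encard : ENNReal)) := by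
  have h : Measurable (fun y : E n => (s, y)) := measurable_prodMk_left
  have h2 := Measurable.comp
    (g := fun p : ℝ × E n => ((feet m f p.2 (min p.1 r)).encard : ENNReal))
    (f := fun y : E n => (s, y)) (feet_meas f hf hc0 hc hr) h
  exact h2

omit [TopologicalSpace X] [T2Space X] [CompactSpace X] [ChartedSpace (E m) X]
  [IsManifold (𝓡 m) ∞ X] in
private theorem ck_card {A : Set X} (hA : A.Finite) : ((A.encard : ENNReal)).toReal = A.ncard := by
  rw [← hA.cast_ncard_eq, ENat.toENNReal_coe, ENNReal.toReal_natCast]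

theorem tubeVol_lt_top (f : X → E n) (hf : Imm m f) (h1 : ∀ x, ‖f x‖ ≤ 1) {c r : ℝ} (hc0 : 0 < c)
    (hc : CurvLE m f c) (hr : r < 1 / c) : tubeVol m f r < ⊤ := by
  obtain ⟨C, hC⟩ := feet_bd f hf h1 hc0 hc hr
  have h2 : tubeVol m f r ≤ ∫⁻ y, (Metric.ball (0 : E n) (1 + r)).indicator
      (fun _ => (C : ENNReal)) y := by
    refine lintegral_mono fun y => ?_
    have := ck_ind f h1 hC r y
    rwa [min_self] at this
  refine h2.trans_lt ?_
  rw [lintegral_indicator_const Metric.isOpen_ball.measurableSet]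
  exact ENNReal.mul_lt_top (ENNReal.natCast_lt_top C) measure_ball_lt_top

private theorem ck_int (f : X → E n) (hf : Imm m f) (h1 : ∀ x, ‖f x‖ ≤ 1) {c r : ℝ}
    (hc0 : 0 < c) (hc : CurvLE m f c) (hr : r < 1 / c) {s : ℝ} (hs : s ≤ r) :
    ∫ y, ckK (m := m) f r s y = (tubeVol m f s).toReal := by
  obtain ⟨C, hC⟩ := feet_bd f hf h1 hc0 hc hr
  unfold ckK
  rw [integral_toReal (ck_meas1 f hf hc0 hc hr s).aemeasurable, min_eq_left hs]
  · rfl
  · refine Eventually.of_forall fun y => ?_
    refine (ck_ind f h1 hC s y).trans_lt ?_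
    by_cases hy : y ∈ Metric.ball (0 : E n) (1 + r)
    · rw [indicator_of_mem hy]
      exact ENNReal.natCast_lt_top C
    · rw [indicator_of_notMem hy]
      exact ENNReal.zero_lt_top

private theorem ck_ftc {r : ℝ} {F F' : ℝ → ℝ}
    (hF : ∀ s ∈ Icc 0 r, HasDerivAt F (F' s) s) (hF' : ContinuousOn F' (Icc 0 r)) {d : ℝ}
    (hd0 : 0 ≤ d) (hdr : d < r) :
    IntegrableOn (fun s => F' s * (if d < s then 1 else 0)) (Ioc 0 r) ∧
      ∫ s in Ioc 0 r, F' s * (if d < s then 1 else 0) = F r - F d := by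
  have e1 : (fun s => F' s * (if d < s then 1 else 0)) = (Ioi d).indicator F' := by
    funext s
    by_cases hs : d < s
    · rw [if_pos hs, mul_one, indicator_of_mem (mem_Ioi.2 hs)]
    · rw [if_neg hs, mul_zero, indicator_of_notMem (fun h => hs (mem_Ioi.1 h))]
  have hint : IntegrableOn F' (Ioc 0 r) :=
    (hF'.integrableOn_compact isCompact_Icc).mono_set Ioc_subset_Icc_self
  rw [e1]
  refine ⟨hint.indicator measurableSet_Ioi, ?_⟩
  rw [setIntegral_indicator measurableSet_Ioi, Ioc_inter_Ioi, sup_eq_right.2 hd0,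
    ← intervalIntegral.integral_of_le hdr.le]
  refine intervalIntegral.integral_eq_sub_of_hasDerivAt (fun s hs => ?_) ?_
  · rw [uIcc_of_le hdr.le] at hs
    exact hF s ⟨hd0.trans hs.1, hs.2⟩
  · refine ContinuousOn.intervalIntegrable ?_
    rw [uIcc_of_le hdr.le]
    exact hF'.mono (Icc_subset_Icc_left hd0)

open Classical in
private theorem ck_point (f : X → E n) (hf : Imm m f) {c r : ℝ} (hc0 : 0 < c)
    (hc : CurvLE m f c) (hr : r < 1 / c) {F F' : ℝ → ℝ}
    (hF : ∀ s ∈ Icc 0 r, HasDerivAt F (F' s) s) (hF' : ContinuousOn F' (Icc 0 r)) (y : E n) :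
    ∑ᶠ x ∈ feet m f y r, F ‖y - f x‖ =
      F r * ckK (m := m) f r r y - ∫ s in Ioc 0 r, F' s * ckK (m := m) f r s y := by
  have hfin := feet_finite f hf hc0 hc hr y
  rw [finsum_mem_eq_finite_toFinset_sum _ hfin]
  obtain ⟨T, hT⟩ : ∃ T, T = hfin.toFinset := ⟨_, rfl⟩
  rw [← hT]
  have hTm : ∀ x, x ∈ T ↔ x ∈ feet m f y r := by
    intro x
    rw [hT, Set.Finite.mem_toFinset]
  have hTc : (T : Set X) = feet m f y r := by
    ext x
    rw [Finset.mem_coe]
    exact hTm x
  have hKr : ckK (m := m) f r r y = T.card := by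
    unfold ckK
    rw [min_self, ck_card hfin, ← hTc, ncard_coe_finset]
  have hKs : ∀ s ∈ Ioc 0 r, ckK (m := m) f r s y =
      ∑ x ∈ T, (if ‖y - f x‖ < s then (1 : ℝ) else 0) := by
    intro s hs
    have e1 : feet m f y s = ((T.filter fun x => ‖y - f x‖ < s : Finset X) : Set X) := by
      ext x
      rw [Finset.coe_filter]
      constructor
      · intro hx
        exact ⟨(hTm x).2 (ck_sub f y hs.2 hx), hx.2⟩
      · intro hx
        exact ⟨((hTm x).1 hx.1).1, hx.2⟩
    unfold ckK
    rw [min_eq_left hs.2, ck_card (hfin.subset (ck_sub f y hs.2)), e1, ncard_coe_finset,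
      Finset.card_filter, Nat.cast_sum]
    refine Finset.sum_congr rfl fun x _ => ?_
    split_ifs <;> simp
  have h2 : ∫ s in Ioc 0 r, F' s * ckK (m := m) f r s y = ∑ x ∈ T, (F r - F ‖y - f x‖) := by
    have h3 : ∫ s in Ioc 0 r, F' s * ckK (m := m) f r s y =
        ∫ s in Ioc 0 r, ∑ x ∈ T, F' s * (if ‖y - f x‖ < s then (1 : ℝ) else 0) := by
      refine setIntegral_congr_fun measurableSet_Ioc fun s hs => ?_
      show F' s * ckK (m := m) f r s y = _
      rw [hKs s hs, Finset.mul_sum]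
    rw [h3, integral_finsetSum]
    · refine Finset.sum_congr rfl fun x hx => ?_
      exact (ck_ftc hF hF' (norm_nonneg _) ((hTm x).1 hx).2).2
    · intro x hx
      exact (ck_ftc hF hF' (norm_nonneg _) ((hTm x).1 hx).2).1
  rw [h2, hKr, Finset.sum_sub_distrib, Finset.sum_const, nsmul_eq_mul]
  ring

theorem cake (f : X → E n) (hf : Imm m f) (h1 : ∀ x, ‖f x‖ ≤ 1) {c r : ℝ} (hc0 : 0 < c)
    (hc : CurvLE m f c) (hr0 : 0 < r) (hr : r < 1 / c) (F F' : ℝ → ℝ)
    (hF : ∀ s ∈ Icc 0 r, HasDerivAt F (F' s) s) (hF' : ContinuousOn F' (Icc 0 r)) :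
    Integrable (fun y => ∑ᶠ x ∈ feet m f y r, F ‖y - f x‖) ∧
      ∫ y, ∑ᶠ x ∈ feet m f y r, F ‖y - f x‖ =
        F r * (tubeVol m f r).toReal - ∫ s in (0 : ℝ)..r, F' s * (tubeVol m f s).toReal := by
  obtain ⟨C, hC⟩ := feet_bd f hf h1 hc0 hc hr
  have hint : IntegrableOn F' (Ioc 0 r) :=
    (hF'.integrableOn_compact isCompact_Icc).mono_set Ioc_subset_Icc_self
  have hind : Integrable ((Metric.ball (0 : E n) (1 + r)).indicator (fun _ => (C : ℝ))) := by
    refine (integrable_indicator_iff Metric.isOpen_ball.measurableSet).2 ?_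
    exact integrableOn_const measure_ball_lt_top.ne
  have hK0 : ∀ (s : ℝ) (y : E n), 0 ≤ ckK (m := m) f r s y := fun s y => ENNReal.toReal_nonneg
  have hprod : Integrable (fun p : ℝ × E n => F' p.1 * ckK (m := m) f r p.1 p.2)
      ((volume.restrict (Ioc 0 r)).prod volume) := by
    have hb : Integrable (fun p : ℝ × E n => |F' p.1| *
        (Metric.ball (0 : E n) (1 + r)).indicator (fun _ => (C : ℝ)) p.2)
        ((volume.restrict (Ioc 0 r)).prod volume) := Integrable.mul_prod hint.abs hind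
    refine hb.mono' ?_ ?_
    · refine AEStronglyMeasurable.mul ?_ (ck_meas f hf hc0 hc hr).aestronglyMeasurable
      exact hint.aestronglyMeasurable.comp_fst
    · refine Eventually.of_forall fun p => ?_
      rw [Real.norm_eq_abs, abs_mul, abs_of_nonneg (hK0 p.1 p.2)]
      exact mul_le_mul_of_nonneg_left (ck_le f h1 hC p.1 p.2) (abs_nonneg _)
  have hKr : Integrable (fun y : E n => ckK (m := m) f r r y) := by
    refine hind.mono' ?_ ?_
    · exact (ck_meas1 f hf hc0 hc hr r).ennreal_toReal.aestronglyMeasurable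
    · refine Eventually.of_forall fun y => ?_
      rw [Real.norm_eq_abs, abs_of_nonneg (hK0 r y)]
      exact ck_le f h1 hC r y
  have hsec : Integrable (fun y : E n => ∫ s in Ioc 0 r, F' s * ckK (m := m) f r s y) :=
    hprod.integral_prod_right
  have hpt := fun y => ck_point f hf hc0 hc hr hF hF' y
  simp only [hpt]
  refine ⟨(hKr.const_mul (F r)).sub hsec, ?_⟩
  rw [integral_sub (hKr.const_mul (F r)) hsec, integral_const_mul,
    ck_int f hf h1 hc0 hc hr le_rfl]
  congr 1
  have hswap := integral_integral_swap (f := fun (s : ℝ) (y : E n) => F' s * ckK (m := m) f r s y)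
    hprod
  rw [← hswap, intervalIntegral.integral_of_le hr0.le]
  refine setIntegral_congr_fun measurableSet_Ioc fun s hs => ?_
  show ∫ y, F' s * ckK (m := m) f r s y = F' s * (tubeVol m f s).toReal
  rw [integral_const_mul, ck_int f hf h1 hc0 hc hr hs.2]

end Pool.Agent.TUB
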