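import Pool.Agent.TUB.ChA

/-!
# TUB-ChB: the curvature bound in a chart (imports ChA; sorry there is fine)

PLAN.  `φ`, `O` as in ChA, `F = f ∘ φ`.  Given `u ∈ O`, `v : E m`, choose `δ > 0` with
`u + t • v ∈ O` for `|t| ≤ δ` (`O` open), and the curve `γ t = φ (u + (δ * Real.sin (t/δ)) • v)`; the
argument of `φ` stays in `O`, so `γ` is smooth (`contMDiffOn_extChartAt_symm`), `γ 0 = φ u`,
`f ∘ γ = F ∘ a`, `a t = u + (δ sin (t/δ)) • v`, `a 0 = u`, `a' 0 = v`, `a'' 0 = 0`.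
`deriv (f ∘ γ) t = cos(t/δ) • fderiv ℝ F (a t) v`, so `deriv (f ∘ γ) 0 = fderiv ℝ F u v` and
`deriv (deriv (f ∘ γ)) 0 = fderiv ℝ (fun u => fderiv ℝ F u v) u v`.
`CurvLE` and `chart_range`: `‖P (D²F(v,v))‖ ≤ c ‖DF v‖²` for the projection `P` to the orthogonal
complement of the range; for `ξ` in it, `⟪ξ, D²F(v,v)⟫ = ⟪ξ, P (D²F(v,v))⟫` (Cauchy-Schwarz).
-/

open scoped BigOperators Topology Manifold ContDiff
open Filter Set

namespace Pool.Agent.TUB

variable {m n : ℕ} {X : Type*} [TopologicalSpace X] [ChartedSpace (E m) X]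
  [IsManifold (𝓡 m) ∞ X]

theorem chart_locImm (f : X → E n) (hf : Imm m f) (c : ℝ) (hc : CurvLE m f c) (x₀ : X) :
    LocImm (f ∘ (extChartAt (𝓡 m) x₀).symm) (extChartAt (𝓡 m) x₀).target c := by
  have hO : IsOpen (extChartAt (𝓡 m) x₀).target := isOpen_extChartAt_target x₀
  refine ⟨hO, chart_smooth f hf x₀, fun u hu => chart_inj f hf x₀ u hu, ?_⟩
  intro u hu v ξ hξ
  set F : E m → E n := f ∘ (extChartAt (𝓡 m) x₀).symm with hF
  obtain ⟨ε, hε, hball⟩ := Metric.isOpen_iff.1 hO u hu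
  have hv0 : 0 < ‖v‖ + 1 := by positivity
  set δ : ℝ := ε / (2 * (‖v‖ + 1)) with hδ
  have hδ0 : 0 < δ := by positivity
  -- the curve in the chart
  set a : ℝ → E m := fun t => u + (δ * Real.sin (t / δ)) • v with ha
  have haO : ∀ t, a t ∈ (extChartAt (𝓡 m) x₀).target := by
    intro t
    apply hball
    rw [Metric.mem_ball, dist_eq_norm]
    have e : a t - u = (δ * Real.sin (t / δ)) • v := by
      simp only [ha]
      abel
    rw [e, norm_smul, Real.norm_eq_abs, abs_mul, abs_of_pos hδ0]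
    have h1 : |Real.sin (t / δ)| ≤ 1 := Real.abs_sin_le_one _
    have h2 : δ * |Real.sin (t / δ)| ≤ δ := by nlinarith
    have h3 : δ * |Real.sin (t / δ)| * ‖v‖ ≤ δ * ‖v‖ := mul_le_mul_of_nonneg_right h2 (norm_nonneg v)
    have h4 : δ * (2 * (‖v‖ + 1)) = ε := by
      rw [hδ]
      field_simp
    nlinarith [norm_nonneg v]
  have ha_smooth : ContDiff ℝ ∞ a := by
    simp only [ha]
    exact contDiff_const.add ((contDiff_const.mul (Real.contDiff_sin.comp
      (contDiff_id.div_const δ))).smul contDiff_const)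
  have hγ : ContMDiff 𝓘(ℝ, ℝ) (𝓡 m) ∞ ((extChartAt (𝓡 m) x₀).symm ∘ a) :=
    (contMDiffOn_extChartAt_symm (I := 𝓡 m) (n := ∞) x₀).comp_contMDiff
      ha_smooth.contMDiff haO
  have hsin : ∀ t : ℝ, HasDerivAt (fun s => δ * Real.sin (s / δ)) (Real.cos (t / δ)) t := by
    intro t
    have h1 : HasDerivAt (fun s : ℝ => s / δ) (1 / δ) t := (hasDerivAt_id t).div_const δ
    have h2 := (h1.sin).const_mul δ
    have e : δ * (Real.cos (t / δ) * (1 / δ)) = Real.cos (t / δ) := by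
      field_simp
    rw [e] at h2
    exact h2
  have hda : ∀ t : ℝ, HasDerivAt a (Real.cos (t / δ) • v) t := by
    intro t
    exact ((hsin t).smul_const v).const_add u
  have hFd : ∀ w ∈ (extChartAt (𝓡 m) x₀).target, ContDiffAt ℝ ∞ F w := fun w hw =>
    (chart_smooth f hf x₀).contDiffAt (hO.mem_nhds hw)
  have hd1 : ∀ t : ℝ, deriv (F ∘ a) t = Real.cos (t / δ) • fderiv ℝ F (a t) v := by
    intro t
    have h1 : HasFDerivAt F (fderiv ℝ F (a t)) (a t) :=
      ((hFd _ (haO t)).differentiableAt (by simp)).hasFDerivAt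
    have h2 := h1.comp_hasDerivAt t (hda t)
    rw [h2.deriv, map_smul]
  have ha0 : a 0 = u := by
    simp [ha]
  have hG : HasFDerivAt (fun w => fderiv ℝ F w v) (fderiv ℝ (fun w => fderiv ℝ F w v) u) u := by
    have h1 : ContDiffAt ℝ 1 (fderiv ℝ F) u := (hFd u hu).fderiv_right (by norm_cast)
    have h2 : DifferentiableAt ℝ (fderiv ℝ F) u := h1.differentiableAt (by simp)
    exact (h2.clm_apply (differentiableAt_const v)).hasFDerivAt
  have hd2 : deriv (deriv (F ∘ a)) 0 = fderiv ℝ (fun w => fderiv ℝ F w v) u v := by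
    have h0 : deriv (F ∘ a) = fun t => Real.cos (t / δ) • fderiv ℝ F (a t) v := funext hd1
    rw [h0]
    have h1 : HasDerivAt (fun s : ℝ => s / δ) (1 / δ) 0 := (hasDerivAt_id (0:ℝ)).div_const δ
    have h2 : HasDerivAt (fun s : ℝ => Real.cos (s / δ)) 0 0 := by
      have := h1.cos
      simpa using this
    have h3 : HasDerivAt (fun t => fderiv ℝ F (a t) v)
        (fderiv ℝ (fun w => fderiv ℝ F w v) u v) 0 := by
      have h4 := hda 0
      have h5 : HasDerivAt a v 0 := by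
        simpa using h4
      have h6 : HasFDerivAt (fun w => fderiv ℝ F w v) (fderiv ℝ (fun w => fderiv ℝ F w v) u) (a 0) := by
        rw [ha0]
        exact hG
      exact h6.comp_hasDerivAt 0 h5
    have h4 := h2.smul h3
    have h5 := h4.deriv
    have e : (fun t => Real.cos (t / δ) • fderiv ℝ F (a t) v) =
      (fun s : ℝ => Real.cos (s / δ)) • (fun t => fderiv ℝ F (a t) v) := rfl
    rw [e, h5]
    simp
  have key := hc ((extChartAt (𝓡 m) x₀).symm ∘ a) hγ
  have e1 : f ∘ ((extChartAt (𝓡 m) x₀).symm ∘ a) = F ∘ a := rfl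
  have e2 : ((extChartAt (𝓡 m) x₀).symm ∘ a) 0 = (extChartAt (𝓡 m) x₀).symm u := by
    rw [Function.comp_apply, ha0]
  have e3 : deriv (F ∘ a) 0 = fderiv ℝ F u v := by
    rw [hd1, ha0]
    simp
  have hT : tan m f (((extChartAt (𝓡 m) x₀).symm ∘ a) 0) =
      LinearMap.range (fderiv ℝ F u : E m →ₗ[ℝ] E n) := by
    rw [e2]
    exact chart_range f hf x₀ u hu
  have hproj : ∀ K L : Submodule ℝ (E n), K = L → ∀ w : E n,
      ‖Kᗮ.starProjection w‖ = ‖Lᗮ.starProjection w‖ := by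
    rintro K L rfl w
    rfl
  rw [e1, hproj _ _ hT, hd2, e3] at key
  set K := (LinearMap.range (fderiv ℝ F u : E m →ₗ[ℝ] E n))ᗮ with hK
  have h1 : K.starProjection ξ = ξ := Submodule.starProjection_eq_self_iff.2 hξ
  have h2 : inner ℝ ξ (fderiv ℝ (fun w => fderiv ℝ F w v) u v) =
      inner ℝ ξ (K.starProjection (fderiv ℝ (fun w => fderiv ℝ F w v) u v)) := by
    rw [← Submodule.inner_starProjection_left_eq_right, h1]
  rw [h2]
  calc |inner ℝ ξ (K.starProjection (fderiv ℝ (fun w => fderiv ℝ F w v) u v))|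
      ≤ ‖ξ‖ * ‖K.starProjection (fderiv ℝ (fun w => fderiv ℝ F w v) u v)‖ :=
        abs_real_inner_le_norm _ _
    _ ≤ ‖ξ‖ * (c * ‖fderiv ℝ F u v‖ ^ 2) := mul_le_mul_of_nonneg_left key (norm_nonneg ξ)
    _ = c * ‖ξ‖ * ‖fderiv ℝ F u v‖ ^ 2 := by ring

end Pool.Agent.TUB
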