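import Pool.Agent.TUB.ChA

/-!
# TUB-Clo: the normal condition is closed (imports ChA; sorry there is fine)

PLAN.  The complement is open: let `(x₀, y₀)` be in it; with `φ`, `u₀` as in TUB-Loc and `F = f ∘ φ`, there is
`v : E m` with `⟪y₀ - F u₀, DF(u₀) v⟫ ≠ 0` (`chart_range` at `u₀`, `Submodule.mem_orthogonal`).  The function
`(u, y) ↦ ⟪y - F u, fderiv ℝ F u v⟫` is continuous on `target × E n` (`chart_smooth`), so it is nonzero in a
neighbourhood of `(u₀, y₀)`; pull back by `extChartAt x₀` (continuous on its open source), `chart_range`.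
-/

open scoped BigOperators Topology Manifold ContDiff
open Filter Set

namespace Pool.Agent.TUB

variable {m n : ℕ} {X : Type*} [TopologicalSpace X] [ChartedSpace (E m) X]
  [IsManifold (𝓡 m) ∞ X]

theorem isClosed_normal (f : X → E n) (hf : Imm m f) :
    IsClosed {p : X × E n | p.2 - f p.1 ∈ (tan m f p.1)ᗮ} := by
  rw [← isOpen_compl_iff, isOpen_iff_mem_nhds]
  rintro ⟨x₀, y₀⟩ hp
  set e := extChartAt (𝓡 m) x₀ with he
  have hx₀ : x₀ ∈ e.source := mem_extChartAt_source x₀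
  have hu₀ : e x₀ ∈ e.target := e.map_source hx₀
  have key : ∀ x ∈ e.source, tan m f x =
      LinearMap.range (fderiv ℝ (f ∘ e.symm) (e x) : E m →ₗ[ℝ] E n) := by
    intro x hx
    have h1 := chart_range f hf x₀ (e x) (e.map_source hx)
    rw [← he, e.left_inv hx] at h1
    exact h1
  have hne : ∃ v : E m, inner ℝ (fderiv ℝ (f ∘ e.symm) (e x₀) v) (y₀ - f x₀) ≠ 0 := by
    by_contra hcon
    push Not at hcon
    apply hp
    change y₀ - f x₀ ∈ (tan m f x₀)ᗮ
    rw [key x₀ hx₀, Submodule.mem_orthogonal]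
    rintro _ ⟨v, rfl⟩
    exact hcon v
  obtain ⟨v, hv⟩ := hne
  have hopen : IsOpen e.target := isOpen_extChartAt_target x₀
  have hnh : e.target ∈ 𝓝 (e x₀) := hopen.mem_nhds hu₀
  have hsm : ContDiffOn ℝ ∞ (f ∘ e.symm) e.target := chart_smooth f hf x₀
  have hF : ContinuousAt (f ∘ e.symm) (e x₀) := hsm.continuousOn.continuousAt hnh
  have hD : ContinuousAt (fderiv ℝ (f ∘ e.symm)) (e x₀) :=
    (hsm.continuousOn_fderiv_of_isOpen hopen (by exact_mod_cast le_top)).continuousAt hnh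
  have hec : ContinuousAt e x₀ := continuousAt_extChartAt x₀
  have hfst : ContinuousAt (fun p : X × E n => e p.1) (x₀, y₀) :=
    ContinuousAt.comp (g := e) (f := Prod.fst) (x := (x₀, y₀)) hec continuousAt_fst
  have hF' : ContinuousAt (fun p : X × E n => (f ∘ e.symm) (e p.1)) (x₀, y₀) :=
    ContinuousAt.comp (g := f ∘ e.symm) (f := fun p : X × E n => e p.1) (x := (x₀, y₀)) hF hfst
  have hD' : ContinuousAt (fun p : X × E n => fderiv ℝ (f ∘ e.symm) (e p.1) v) (x₀, y₀) :=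
    (ContinuousAt.comp (g := fderiv ℝ (f ∘ e.symm)) (f := fun p : X × E n => e p.1)
      (x := (x₀, y₀)) hD hfst).clm_apply continuousAt_const
  have hG : ContinuousAt (fun p : X × E n =>
      inner ℝ (fderiv ℝ (f ∘ e.symm) (e p.1) v) (p.2 - (f ∘ e.symm) (e p.1))) (x₀, y₀) :=
    ContinuousAt.inner (𝕜 := ℝ) hD' (continuousAt_snd.sub hF')
  have h0 : inner ℝ (fderiv ℝ (f ∘ e.symm) (e (x₀, y₀).1) v)
      ((x₀, y₀).2 - (f ∘ e.symm) (e (x₀, y₀).1)) ≠ (0 : ℝ) := by
    change inner ℝ (fderiv ℝ (f ∘ e.symm) (e x₀) v) (y₀ - f (e.symm (e x₀))) ≠ (0 : ℝ)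
    rw [e.left_inv hx₀]
    exact hv
  have hev := hG.eventually_ne h0
  have hsrc : ∀ᶠ p : X × E n in 𝓝 (x₀, y₀), p.1 ∈ e.source :=
    continuousAt_fst.eventually (extChartAt_source_mem_nhds x₀)
  filter_upwards [hev, hsrc] with p hp1 hp2 hp3
  apply hp1
  change p.2 - f p.1 ∈ (tan m f p.1)ᗮ at hp3
  rw [key p.1 hp2, Submodule.mem_orthogonal] at hp3
  have h2 := hp3 (fderiv ℝ (f ∘ e.symm) (e p.1) v) ⟨v, rfl⟩
  change inner ℝ (fderiv ℝ (f ∘ e.symm) (e p.1) v) (p.2 - f (e.symm (e p.1))) = (0 : ℝ)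
  rw [e.left_inv hp2]
  exact h2

end Pool.Agent.TUB
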