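import Mathlib

/-!
# Project TUB (MP_d3ff36_gt): tube volumes and the normal curvature of immersions into a ball

Architect helper26.  Definitions only.
-/

open scoped BigOperators Topology Manifold ContDiff
open MeasureTheory Filter Set

namespace Pool.Agent.TUB

/-- Euclidean space `ℝ^n`. -/
abbrev E (n : ℕ) := EuclideanSpace ℝ (Fin n)

/-- The Bessel function of the first kind `J_ν(x)` for `x > 0`, by its power series. -/
noncomputable def besselJ (ν x : ℝ) : ℝ :=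
  ∑' i : ℕ, (-1 : ℝ) ^ i / ((i.factorial : ℝ) * Real.Gamma (i + ν + 1)) *
    (x / 2) ^ (2 * (i : ℝ) + ν)

/-- The first positive zero of `J_ν`. -/
noncomputable def jz (ν : ℝ) : ℝ := sInf {x : ℝ | 0 < x ∧ besselJ ν x = 0}

section Immersions

variable (m : ℕ) {n : ℕ} {X : Type*} [TopologicalSpace X] [ChartedSpace (E m) X]

/-- The derivative of `f` at `x`. -/
noncomputable def dm (f : X → E n) (x : X) : E m →L[ℝ] E n := mfderiv (𝓡 m) 𝓘(ℝ, E n) f x

/-- The tangent space of `f` at `x`, as a subspace of `ℝ^n`. -/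
noncomputable def tan (f : X → E n) (x : X) : Submodule ℝ (E n) :=
  LinearMap.range (dm m f x : E m →ₗ[ℝ] E n)

/-- `f` is a smooth immersion. -/
structure Imm (f : X → E n) : Prop where
  smooth : ContMDiff (𝓡 m) 𝓘(ℝ, E n) ∞ f
  inj : ∀ x, Function.Injective (dm m f x)

/-- The normal curvature of `f` is at most `c`: `‖II(v, v)‖ ≤ c ‖v‖²`.  (For a smooth curve `γ` in
`X` the normal part of the second derivative of `f ∘ γ` is `II(γ', γ')`.) -/
def CurvLE (f : X → E n) (c : ℝ) : Prop :=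
  ∀ γ : ℝ → X, ContMDiff 𝓘(ℝ, ℝ) (𝓡 m) ∞ γ →
    ‖(tan m f (γ 0))ᗮ.starProjection (deriv (deriv (f ∘ γ)) 0)‖ ≤ c * ‖deriv (f ∘ γ) 0‖ ^ 2

/-- The points `x` of `X` such that `y - f x` is normal to `f` at `x` and shorter than `s`. -/
def feet (f : X → E n) (y : E n) (s : ℝ) : Set X :=
  {x | y - f x ∈ (tan m f x)ᗮ ∧ ‖y - f x‖ < s}

/-- The volume of the tube of radius `s` around `f`, counted with multiplicity. -/
noncomputable def tubeVol (f : X → E n) (s : ℝ) : ENNReal :=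
  ∫⁻ y, ((feet m f y s).encard : ENNReal)

end Immersions

/-- Coefficients of `B`. -/
noncomputable def bc (κ : ℝ) : ℕ → ℝ
  | 0 => 1
  | i + 1 => -bc κ i / (4 * (i + 1) * (i + κ / 2))

/-- `B κ (s²)` is the radial solution of `- Δ u = u`, `u(0) = 1`, in dimension `κ`; it is
`Γ(κ/2) (2/s)^(κ/2-1) J_(κ/2-1)(s)`. -/
noncomputable def B (κ w : ℝ) : ℝ := ∑' i : ℕ, bc κ i * w ^ i

/-- The first positive zero of `B κ`. -/
noncomputable def jw (κ : ℝ) : ℝ := sInf {w : ℝ | 0 < w ∧ B κ w = 0}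

/-- The radial first eigenfunction of the ball of radius `r` in dimension `κ`. -/
noncomputable def ph (κ r s : ℝ) : ℝ := B κ (jw κ / r ^ 2 * s ^ 2)

/-- Its derivative. -/
noncomputable def ph1 (κ r s : ℝ) : ℝ := -(jw κ / r ^ 2 * s / κ) * B (κ + 2) (jw κ / r ^ 2 * s ^ 2)

/-- Its second derivative. -/
noncomputable def ph2 (κ r s : ℝ) : ℝ :=
  -(jw κ / r ^ 2 / κ) * B (κ + 2) (jw κ / r ^ 2 * s ^ 2) +
    (jw κ / r ^ 2) ^ 2 * s ^ 2 / (κ * (κ + 2)) * B (κ + 4) (jw κ / r ^ 2 * s ^ 2)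

/-- A local immersion with curvature at most `c`, in coordinates. -/
structure LocImm {m n : ℕ} (F : E m → E n) (O : Set (E m)) (c : ℝ) : Prop where
  isOpen : IsOpen O
  smooth : ContDiffOn ℝ ∞ F O
  inj : ∀ u ∈ O, Function.Injective (fderiv ℝ F u)
  curv : ∀ u ∈ O, ∀ v : E m, ∀ ξ ∈ (LinearMap.range (fderiv ℝ F u : E m →ₗ[ℝ] E n))ᗮ,
    |inner ℝ ξ (fderiv ℝ (fun u => fderiv ℝ F u v) u v)| ≤ c * ‖ξ‖ * ‖fderiv ℝ F u v‖ ^ 2

end Pool.Agent.TUB
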