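import Pool.Agent.TUB.Loc
import Pool.Agent.TUB.Clo
import Pool.Agent.TUB.BrDef

/-!
# TUB-Fin: finitely many branches (imports Loc, Clo, BrDef; sorry there is fine)

PLAN.  `Z = {x | y₀ - f x ∈ (tan m f x)ᗮ ∧ ‖y₀ - f x‖ ≤ r}` is closed in the compact space `X`
(`isClosed_normal`), and every point of it has a neighbourhood `U_x` in which it is the only point satisfying the normal condition for `y₀`
(`loc` with `y = y₀`: `x' ∈ U_x` implies `x' = ξ_x y₀ = x`), so `Z` is finite (compact and discrete); `I = Z`.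
Shrinking (Hausdorff) we can take the `U_x`, `x ∈ I`, pairwise disjoint (`Set.Finite.t2_separation` or finite
intersection), and shrink `W_x` accordingly (`ξ_x` is continuous at `y₀` and `ξ_x y₀ = x`) so that `ξ_x y ∈ U_x` (the new one) and
`‖y - f (ξ_x y)‖ < 1/c` on `W_x`.  (`inj`: different `x` have disjoint `U_x`.)
`all`: the set `C = {(x, y) | normal, ‖y - f x‖ ≤ r, x ∉ ⋃ U_x}` is closed in `X × E n`, its fibre over `y₀` is empty, and
the projection `X × E n → E n` is closed (`X` compact, `isClosedMap_snd_of_compactSpace`), so there is a neighbourhood of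
`y₀` over which `C` is empty: a foot `x` of `y` at distance `≤ r` lies in some `U_{x'}`, hence `x = ξ_{x'} y`
(uniqueness in `loc`; keep it for the smaller sets).
-/

open scoped BigOperators Topology Manifold ContDiff
open Filter Set

namespace Pool.Agent.TUB

variable {m n : ℕ} {X : Type*} [TopologicalSpace X] [T2Space X] [CompactSpace X]
  [ChartedSpace (E m) X] [IsManifold (𝓡 m) ∞ X]

theorem exists_br (f : X → E n) (hf : Imm m f) {c r : ℝ} (hc0 : 0 < c) (hc : CurvLE m f c)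
    (hr : r < 1 / c) (y₀ : E n) : ∃ I W ξ, Br m f c r y₀ I W ξ := by
  classical
  have hfc : Continuous f := hf.smooth.continuous
  have hS := isClosed_normal (X := X) f hf
  let Z : Set X := {x | y₀ - f x ∈ (tan m f x)ᗮ ∧ ‖y₀ - f x‖ ≤ r}
  have hZc : IsClosed Z := by
    have h1 : IsClosed {x : X | y₀ - f x ∈ (tan m f x)ᗮ} :=
      hS.preimage (continuous_id.prodMk continuous_const : Continuous fun x : X => (x, y₀))
    have h2 : IsClosed {x : X | ‖y₀ - f x‖ ≤ r} :=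
      isClosed_le (continuous_const.sub hfc).norm continuous_const
    exact h1.inter h2
  have H : ∀ x : X, ∃ (W : Set (E n)) (U : Set X) (ξ : E n → X), x ∈ Z →
      (IsOpen W ∧ y₀ ∈ W ∧ IsOpen U ∧ x ∈ U ∧
      ξ y₀ = x ∧ ContinuousOn ξ W ∧ ∀ y ∈ W, ξ y ∈ U ∧ y - f (ξ y) ∈ (tan m f (ξ y))ᗮ ∧
        HasFDerivAt (fun y => ‖y - f (ξ y)‖ ^ 2) ((2 : ℝ) • innerSL ℝ (y - f (ξ y))) y ∧
        ∀ x' ∈ U, y - f x' ∈ (tan m f x')ᗮ → x' = ξ y) := by
    intro x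
    by_cases hx : x ∈ Z
    · obtain ⟨W, U, ξ, h⟩ := loc f hf hc0 hc x y₀ hx.1 (lt_of_le_of_lt hx.2 hr)
      exact ⟨W, U, ξ, fun _ => h⟩
    · exact ⟨∅, ∅, fun _ => x, fun h => absurd h hx⟩
  choose W U ξ h using H
  have hfin : Z.Finite := by
    obtain ⟨t, ht⟩ := hZc.isCompact.elim_nhds_subcover' (fun x _ => U x)
      (fun x hx => (h x hx).2.2.1.mem_nhds (h x hx).2.2.2.1)
    refine (t.finite_toSet.image Subtype.val).subset ?_
    intro z hz
    obtain ⟨x, hx⟩ := mem_iUnion.1 (ht hz)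
    obtain ⟨hxt, hzU⟩ := mem_iUnion.1 hx
    have h1 := h x.1 x.2
    have h2 : z = ξ x.1 y₀ := (h1.2.2.2.2.2.2 y₀ h1.2.1).2.2.2 z hzU hz.1
    refine ⟨x, hxt, ?_⟩
    rw [h2, h1.2.2.2.2.1]
  obtain ⟨V, hV, hVd⟩ := hfin.t2_separation
  let U' : X → Set X := fun x => U x ∩ V x
  have hU'o : ∀ x ∈ Z, IsOpen (U' x) := fun x hx => (h x hx).2.2.1.inter (hV x).2
  have hU'm : ∀ x ∈ Z, x ∈ U' x := fun x hx => ⟨(h x hx).2.2.2.1, (hV x).1⟩
  let W' : X → Set (E n) := fun x => (W x ∩ ξ x ⁻¹' U' x) ∩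
    (W x ∩ (fun y => ‖y - f (ξ x y)‖) ⁻¹' Iio (1 / c))
  have hW'o : ∀ x ∈ Z, IsOpen (W' x) := by
    intro x hx
    have h1 := h x hx
    refine (h1.2.2.2.2.2.1.isOpen_inter_preimage h1.1 (hU'o x hx)).inter ?_
    refine ContinuousOn.isOpen_inter_preimage ?_ h1.1 isOpen_Iio
    exact (continuousOn_id.sub (hfc.comp_continuousOn h1.2.2.2.2.2.1)).norm
  have hW'm : ∀ x ∈ Z, y₀ ∈ W' x := by
    intro x hx
    have h1 := h x hx
    refine ⟨⟨h1.2.1, ?_⟩, h1.2.1, ?_⟩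
    · show ξ x y₀ ∈ U' x
      rw [h1.2.2.2.2.1]
      exact hU'm x hx
    · show ‖y₀ - f (ξ x y₀)‖ < 1 / c
      rw [h1.2.2.2.2.1]
      exact lt_of_le_of_lt hx.2 hr
  let C : Set (X × E n) := {p | p.2 - f p.1 ∈ (tan m f p.1)ᗮ} ∩ {p | ‖p.2 - f p.1‖ ≤ r} ∩
    {p | p.1 ∉ ⋃ x ∈ Z, U' x}
  have hCc : IsClosed C := by
    refine (hS.inter ?_).inter ?_
    · exact isClosed_le (continuous_snd.sub (hfc.comp continuous_fst)).norm continuous_const
    · have h1 : IsOpen (⋃ x ∈ Z, U' x) := isOpen_biUnion hU'o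
      exact (h1.preimage continuous_fst).isClosed_compl
  have hW₀c : IsClosed (Prod.snd '' C) := isClosedMap_snd_of_compactSpace C hCc
  have hW₀m : y₀ ∉ Prod.snd '' C := by
    rintro ⟨⟨x, y⟩, hp, rfl⟩
    apply hp.2
    have hxZ : x ∈ Z := ⟨hp.1.1, hp.1.2⟩
    exact mem_biUnion hxZ (hU'm x hxZ)
  refine ⟨hfin.toFinset, (Prod.snd '' C)ᶜ ∩ ⋂ x ∈ Z, W' x, ξ, ?_⟩
  have hI : ∀ x, x ∈ hfin.toFinset → x ∈ Z := fun x hx => hfin.mem_toFinset.1 hx
  have hin : ∀ x ∈ Z, ∀ y ∈ (Prod.snd '' C)ᶜ ∩ ⋂ x ∈ Z, W' x, y ∈ W' x :=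
    fun x hx y hy => mem_iInter₂.1 hy.2 x hx
  refine ⟨hW₀c.isOpen_compl.inter (hfin.isOpen_biInter hW'o), ⟨hW₀m, mem_iInter₂.2 hW'm⟩,
    fun x hx => (h x (hI x hx)).2.2.2.2.1, ?_, ?_, ?_, ?_, ?_, ?_⟩
  · intro x hx
    exact (h x (hI x hx)).2.2.2.2.2.1.mono fun y hy => (hin x (hI x hx) y hy).1.1
  · intro x hx y hy
    exact ((h x (hI x hx)).2.2.2.2.2.2 y (hin x (hI x hx) y hy).1.1).2.1
  · intro x hx y hy
    exact (hin x (hI x hx) y hy).2.2
  · intro x hx y hy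
    exact ((h x (hI x hx)).2.2.2.2.2.2 y (hin x (hI x hx) y hy).1.1).2.2.1
  · intro y hy x hx x' hx' he
    by_contra hne
    have h1 : ξ x y ∈ V x := (hin x (hI x hx) y hy).1.2.2
    have h2 : ξ x' y ∈ V x' := (hin x' (hI x' hx') y hy).1.2.2
    rw [← he] at h2
    exact Set.disjoint_left.1 (hVd (hI x hx) (hI x' hx') hne) h1 h2
  · intro y hy x hx1 hx2
    have h1 : x ∈ ⋃ x ∈ Z, U' x := by
      by_contra hno
      exact hy.1 ⟨(x, y), ⟨⟨hx1, hx2⟩, hno⟩, rfl⟩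
    obtain ⟨x', hx', hxU⟩ := mem_iUnion₂.1 h1
    refine ⟨x', hfin.mem_toFinset.2 hx', ?_⟩
    exact (((h x' hx').2.2.2.2.2.2 y (hin x' hx' y hy).1.1).2.2.2 x hxU.1 hx1).symm

end Pool.Agent.TUB
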