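import Pool.Agent.TUB.Defs

/-!
# TUB-Ift: the local branches of the foot point map, in coordinates

The condition `y - F u ∈ (range DF(u))ᗮ` is `(Ψ (u, y)).1 = 0` for
`Ψ (u, y) = ((⟪y - F u, DF(u) e_i⟫)_i, y)`; the derivative of `Ψ` is injective at `(u₀, y₀)` by the curvature
bound, and the inverse function theorem applies.
-/

open scoped BigOperators Topology ContDiff
open Filter Set

namespace Pool.Agent.TUB

private noncomputable def ee {m : ℕ} (i : Fin m) : E m := EuclideanSpace.single i 1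

private theorem expand {m : ℕ} (v : E m) : v = ∑ i, v i • ee i := by
  ext j
  rw [WithLp.ofLp_sum, Finset.sum_apply]
  simp [ee]

/-- the coordinates of the tangential part -/
private noncomputable def Ph {m n : ℕ} (F : E m → E n) (p : E m × E n) : Fin m → ℝ :=
  fun i => inner ℝ (p.2 - F p.1) (fderiv ℝ F p.1 (ee i))

private noncomputable def Ps {m n : ℕ} (F : E m → E n) (p : E m × E n) : (Fin m → ℝ) × E n :=
  (Ph F p, p.2)

private theorem Ph_zero_iff {m n : ℕ} (F : E m → E n) (u : E m) (y : E n) :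
    Ph F (u, y) = 0 ↔
      y - F u ∈ (LinearMap.range (fderiv ℝ F u : E m →ₗ[ℝ] E n))ᗮ := by
  rw [Submodule.mem_orthogonal']
  constructor
  · rintro h _ ⟨v, rfl⟩
    show inner ℝ (y - F u) (fderiv ℝ F u v) = 0
    rw [expand v, map_sum, inner_sum]
    apply Finset.sum_eq_zero
    intro i _
    rw [map_smul, inner_smul_right]
    have h1 : inner ℝ (y - F u) (fderiv ℝ F u (ee i)) = 0 := congrFun h i
    rw [h1, mul_zero]
  · intro h
    funext i
    exact h _ ⟨ee i, rfl⟩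

private theorem smooth_D {m n : ℕ} {F : E m → E n} {O : Set (E m)} {c : ℝ} (hF : LocImm F O c)
    {u : E m} (hu : u ∈ O) : ContDiffAt ℝ 1 (fderiv ℝ F) u :=
  ((hF.smooth.contDiffAt (hF.isOpen.mem_nhds hu)).fderiv_right (m := 1) (by norm_cast))

private theorem smooth_F {m n : ℕ} {F : E m → E n} {O : Set (E m)} {c : ℝ} (hF : LocImm F O c)
    {u : E m} (hu : u ∈ O) : ContDiffAt ℝ 1 F u :=
  (hF.smooth.contDiffAt (hF.isOpen.mem_nhds hu)).of_le (by norm_cast)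

private theorem smooth_Ps {m n : ℕ} {F : E m → E n} {O : Set (E m)} {c : ℝ} (hF : LocImm F O c)
    {u : E m} (hu : u ∈ O) (y : E n) : ContDiffAt ℝ 1 (Ps F) (u, y) := by
  unfold Ps
  refine ContDiffAt.prodMk ?_ contDiffAt_snd
  unfold Ph
  rw [contDiffAt_pi]
  intro i
  have h1 : ContDiffAt ℝ 1 (fun p : E m × E n => p.2 - F p.1) (u, y) :=
    contDiffAt_snd.sub (ContDiffAt.comp (u, y) (smooth_F hF hu) contDiffAt_fst)
  have h2 : ContDiffAt ℝ 1 (fun p : E m × E n => fderiv ℝ F p.1) (u, y) :=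
    ContDiffAt.comp (u, y) (smooth_D hF hu) contDiffAt_fst
  exact h1.inner ℝ (h2.clm_apply contDiffAt_const)

/-- the derivative of a component -/
private theorem deriv_comp {m n : ℕ} {F : E m → E n} {O : Set (E m)} {c : ℝ} (hF : LocImm F O c)
    {u : E m} (hu : u ∈ O) (y : E n) (w : E m) (z : E n) (v : E m) :
    fderiv ℝ (fun p : E m × E n => inner ℝ (p.2 - F p.1) (fderiv ℝ F p.1 v)) (u, y) (w, z) =
      inner ℝ (z - fderiv ℝ F u w) (fderiv ℝ F u v) +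
        inner ℝ (y - F u) (fderiv ℝ (fderiv ℝ F) u w v) := by
  have hFu : HasFDerivAt F (fderiv ℝ F u) u :=
    ((smooth_F hF hu).differentiableAt one_ne_zero).hasFDerivAt
  have hDu : HasFDerivAt (fderiv ℝ F) (fderiv ℝ (fderiv ℝ F) u) u :=
    ((smooth_D hF hu).differentiableAt one_ne_zero).hasFDerivAt
  have h1 : HasFDerivAt (fun p : E m × E n => p.2 - F p.1)
      (ContinuousLinearMap.snd ℝ (E m) (E n) -
        (fderiv ℝ F u).comp (ContinuousLinearMap.fst ℝ (E m) (E n))) (u, y) :=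
    hasFDerivAt_snd.sub (HasFDerivAt.comp (u, y) hFu hasFDerivAt_fst)
  have h2 : HasFDerivAt (fun p : E m × E n => fderiv ℝ F p.1)
      ((fderiv ℝ (fderiv ℝ F) u).comp (ContinuousLinearMap.fst ℝ (E m) (E n))) (u, y) :=
    HasFDerivAt.comp (u, y) hDu hasFDerivAt_fst
  have h3 : HasFDerivAt (fun p : E m × E n => fderiv ℝ F p.1 v)
      (((fderiv ℝ (fderiv ℝ F) u).comp (ContinuousLinearMap.fst ℝ (E m) (E n))).flip v) (u, y) := by
    have h4 := h2.clm_apply (hasFDerivAt_const v (u, y))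
    simpa using h4
  have h5 := (h1.inner ℝ h3).fderiv
  rw [h5]
  simp [fderivInnerCLM_apply]
  ring

private theorem inj_Ps {m n : ℕ} {F : E m → E n} {O : Set (E m)} {c : ℝ} (hF : LocImm F O c)
    (hc : 0 < c) {u₀ : E m} (hu₀ : u₀ ∈ O) {y₀ : E n}
    (hN : y₀ - F u₀ ∈ (LinearMap.range (fderiv ℝ F u₀ : E m →ₗ[ℝ] E n))ᗮ)
    (hd : ‖y₀ - F u₀‖ < 1 / c) : Function.Injective (fderiv ℝ (Ps F) (u₀, y₀)) := by
  rw [injective_iff_map_eq_zero]
  rintro ⟨w, z⟩ h0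
  have hs := smooth_Ps hF hu₀ y₀
  have hd1 : DifferentiableAt ℝ (Ps F) (u₀, y₀) := hs.differentiableAt one_ne_zero
  have hz : z = 0 := by
    have h1 : HasFDerivAt (fun p : E m × E n => (Ps F p).2)
        ((ContinuousLinearMap.snd ℝ (Fin m → ℝ) (E n)).comp (fderiv ℝ (Ps F) (u₀, y₀))) (u₀, y₀) :=
      HasFDerivAt.comp (u₀, y₀) hasFDerivAt_snd hd1.hasFDerivAt
    have h2 : HasFDerivAt (fun p : E m × E n => (Ps F p).2)
        (ContinuousLinearMap.snd ℝ (E m) (E n)) (u₀, y₀) := hasFDerivAt_snd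
    have h3 := congrArg (fun L : E m × E n →L[ℝ] E n => L (w, z)) (h1.unique h2)
    simpa [h0] using h3.symm
  have hcomp : ∀ i, fderiv ℝ (fun p : E m × E n => inner ℝ (p.2 - F p.1)
      (fderiv ℝ F p.1 (ee i))) (u₀, y₀) (w, z) = 0 := by
    intro i
    have h1 : HasFDerivAt (fun p : E m × E n => (Ps F p).1 i)
        (((ContinuousLinearMap.proj i : (Fin m → ℝ) →L[ℝ] ℝ).comp
          (ContinuousLinearMap.fst ℝ (Fin m → ℝ) (E n))).comp (fderiv ℝ (Ps F) (u₀, y₀)))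
        (u₀, y₀) := by
      have h2 := ((ContinuousLinearMap.proj i : (Fin m → ℝ) →L[ℝ] ℝ).comp
          (ContinuousLinearMap.fst ℝ (Fin m → ℝ) (E n))).hasFDerivAt (x := Ps F (u₀, y₀))
      exact HasFDerivAt.comp (u₀, y₀) h2 hd1.hasFDerivAt
    have h3 : fderiv ℝ (fun p : E m × E n => inner ℝ (p.2 - F p.1)
      (fderiv ℝ F p.1 (ee i))) (u₀, y₀) = _ := h1.fderiv
    rw [h3]
    simp [h0]
  have hall : ∀ v, inner ℝ (z - fderiv ℝ F u₀ w) (fderiv ℝ F u₀ v) +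
        inner ℝ (y₀ - F u₀) (fderiv ℝ (fderiv ℝ F) u₀ w v) = 0 := by
    intro v
    rw [expand v, map_sum, map_sum, inner_sum, inner_sum, ← Finset.sum_add_distrib]
    apply Finset.sum_eq_zero
    intro i _
    have h1 := hcomp i
    rw [deriv_comp hF hu₀] at h1
    rw [map_smul, map_smul, inner_smul_right, inner_smul_right, ← mul_add, h1, mul_zero]
  have h1 := hall w
  rw [hz, zero_sub, inner_neg_left, real_inner_self_eq_norm_sq] at h1
  have h2 := hF.curv u₀ hu₀ w (y₀ - F u₀) hN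
  have h3 : fderiv ℝ (fun u => fderiv ℝ F u w) u₀ w = fderiv ℝ (fderiv ℝ F) u₀ w w := by
    have hDu : HasFDerivAt (fderiv ℝ F) (fderiv ℝ (fderiv ℝ F) u₀) u₀ :=
      ((smooth_D hF hu₀).differentiableAt one_ne_zero).hasFDerivAt
    have h4 := (hDu.clm_apply (hasFDerivAt_const w u₀)).fderiv
    rw [h4]
    simp
  rw [h3] at h2
  have h4 : inner ℝ (y₀ - F u₀) (fderiv ℝ (fderiv ℝ F) u₀ w w) = ‖fderiv ℝ F u₀ w‖ ^ 2 := by
    linarith
  rw [h4, abs_of_nonneg (by positivity)] at h2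
  have h5 : c * ‖y₀ - F u₀‖ < 1 := by
    rw [lt_div_iff₀ hc] at hd
    linarith
  have h6 : ‖fderiv ℝ F u₀ w‖ ^ 2 = 0 := by
    by_contra hne
    have h7 : 0 < ‖fderiv ℝ F u₀ w‖ ^ 2 := lt_of_le_of_ne (by positivity) (Ne.symm hne)
    nlinarith
  have h7 : fderiv ℝ F u₀ w = 0 := by
    rw [← norm_eq_zero]
    exact pow_eq_zero_iff (two_ne_zero) |>.1 h6
  have h8 : w = 0 := hF.inj u₀ hu₀ (by rw [h7, map_zero])
  rw [h8, hz]
  rfl

theorem ift {m n : ℕ} {F : E m → E n} {O : Set (E m)} {c : ℝ} (hF : LocImm F O c) (hc : 0 < c)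
    {u₀ : E m} (hu₀ : u₀ ∈ O) {y₀ : E n}
    (hN : y₀ - F u₀ ∈ (LinearMap.range (fderiv ℝ F u₀ : E m →ₗ[ℝ] E n))ᗮ)
    (hd : ‖y₀ - F u₀‖ < 1 / c) :
    ∃ (W : Set (E n)) (U : Set (E m)) (ξ : E n → E m), IsOpen W ∧ y₀ ∈ W ∧ IsOpen U ∧ u₀ ∈ U ∧
      U ⊆ O ∧ ξ y₀ = u₀ ∧ ContinuousOn ξ W ∧ ∀ y ∈ W, ξ y ∈ U ∧
        y - F (ξ y) ∈ (LinearMap.range (fderiv ℝ F (ξ y) : E m →ₗ[ℝ] E n))ᗮ ∧
        HasFDerivAt (fun y => ‖y - F (ξ y)‖ ^ 2) ((2 : ℝ) • innerSL ℝ (y - F (ξ y))) y ∧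
        ∀ u ∈ U, y - F u ∈ (LinearMap.range (fderiv ℝ F u : E m →ₗ[ℝ] E n))ᗮ → u = ξ y := by
  have hs := smooth_Ps hF hu₀ y₀
  have hinj := inj_Ps hF hc hu₀ hN hd
  have hdim : Module.finrank ℝ (E m × E n) = Module.finrank ℝ ((Fin m → ℝ) × E n) := by
    simp
  let L : (E m × E n) ≃L[ℝ] ((Fin m → ℝ) × E n) :=
    (LinearMap.linearEquivOfInjective (fderiv ℝ (Ps F) (u₀, y₀) : E m × E n →ₗ[ℝ] _) hinj
      hdim).toContinuousLinearEquiv
  have hL : (L : E m × E n →L[ℝ] (Fin m → ℝ) × E n) = fderiv ℝ (Ps F) (u₀, y₀) := by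
    ext x <;> rfl
  have hder : HasFDerivAt (Ps F) (L : E m × E n →L[ℝ] (Fin m → ℝ) × E n) (u₀, y₀) := by
    rw [hL]
    exact (hs.differentiableAt one_ne_zero).hasFDerivAt
  let Θ := hs.toOpenPartialHomeomorph (Ps F) hder one_ne_zero
  have hΘ : ∀ p, Θ p = Ps F p := fun p =>
    congrFun (ContDiffAt.toOpenPartialHomeomorph_coe hs hder one_ne_zero) p
  have hsrc : ((u₀, y₀) : E m × E n) ∈ Θ.source :=
    ContDiffAt.mem_toOpenPartialHomeomorph_source hs hder one_ne_zero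
  have hP0 : Ps F (u₀, y₀) = (0, y₀) := by
    unfold Ps
    rw [(Ph_zero_iff F u₀ y₀).2 hN]
  have htgt : ((0, y₀) : (Fin m → ℝ) × E n) ∈ Θ.target := by
    have := Θ.map_source hsrc
    rwa [hΘ, hP0] at this
  have hsymm : ContDiffAt ℝ 1 Θ.symm ((0, y₀) : (Fin m → ℝ) × E n) := by
    have := ContDiffAt.to_localInverse hs hder one_ne_zero
    rw [hP0] at this
    exact this
  have hval : Θ.symm ((0, y₀) : (Fin m → ℝ) × E n) = (u₀, y₀) := by
    have := Θ.left_inv hsrc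
    rwa [hΘ, hP0] at this
  -- the neighbourhoods
  obtain ⟨U₁, W₁, hU₁, hW₁, hu1, hy1, hUW⟩ := isOpen_prod_iff.1 Θ.open_source u₀ y₀ hsrc
  have hj : Continuous fun y : E n => ((0, y) : (Fin m → ℝ) × E n) := by fun_prop
  have hev : ∀ᶠ y in 𝓝 y₀, y ∈ W₁ ∧ ((0, y) : (Fin m → ℝ) × E n) ∈ Θ.target ∧
      (Θ.symm ((0, y) : (Fin m → ℝ) × E n)).1 ∈ U₁ ∩ O ∧
      ContDiffAt ℝ 1 Θ.symm ((0, y) : (Fin m → ℝ) × E n) := by
    refine Filter.Eventually.and (hW₁.eventually_mem hy1) ?_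
    refine Filter.Eventually.and
      (hj.continuousAt.eventually (Θ.open_target.eventually_mem htgt)) ?_
    refine Filter.Eventually.and ?_ (hj.continuousAt.eventually (hsymm.eventually (by simp)))
    have h1 : ContinuousAt (fun y : E n => (Θ.symm ((0, y) : (Fin m → ℝ) × E n)).1) y₀ :=
      continuousAt_fst.comp (hsymm.continuousAt.comp hj.continuousAt)
    refine h1.eventually ((hU₁.inter hF.isOpen).eventually_mem ?_)
    show (Θ.symm ((0, y₀) : (Fin m → ℝ) × E n)).1 ∈ U₁ ∩ O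
    rw [hval]
    exact ⟨hu1, hu₀⟩
  obtain ⟨W, hWsub, hWo, hyW⟩ := mem_nhds_iff.1 hev
  refine ⟨W, U₁ ∩ O, fun y => (Θ.symm ((0, y) : (Fin m → ℝ) × E n)).1, hWo, hyW,
    hU₁.inter hF.isOpen, ⟨hu1, hu₀⟩, Set.inter_subset_right, ?_, ?_, ?_⟩
  · show (Θ.symm ((0, y₀) : (Fin m → ℝ) × E n)).1 = u₀
    rw [hval]
  · intro y hy
    obtain ⟨-, -, -, h4⟩ := hWsub hy
    exact (continuousAt_fst.comp (h4.continuousAt.comp hj.continuousAt)).continuousWithinAt
  · intro y hy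
    obtain ⟨h1, h2, h3, h4⟩ := hWsub hy
    have h5 : Ps F (Θ.symm ((0, y) : (Fin m → ℝ) × E n)) = (0, y) := by
      rw [← hΘ]
      exact Θ.right_inv h2
    have h6 : (Θ.symm ((0, y) : (Fin m → ℝ) × E n)).2 = y := congrArg Prod.snd h5
    have h7 : Ph F ((Θ.symm ((0, y) : (Fin m → ℝ) × E n)).1, y) = 0 := by
      have h8 : Ph F (Θ.symm ((0, y) : (Fin m → ℝ) × E n)) = 0 := congrArg Prod.fst h5
      have hp : Θ.symm ((0, y) : (Fin m → ℝ) × E n) =
        ((Θ.symm ((0, y) : (Fin m → ℝ) × E n)).1, y) := Prod.ext rfl h6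
      rw [hp] at h8
      exact h8
    have horth := (Ph_zero_iff F _ y).1 h7
    refine ⟨h3, horth, ?_, ?_⟩
    · have hξ : DifferentiableAt ℝ (fun y : E n => (Θ.symm ((0, y) : (Fin m → ℝ) × E n)).1) y := by
        have h8 : DifferentiableAt ℝ Θ.symm ((0, y) : (Fin m → ℝ) × E n) :=
          h4.differentiableAt one_ne_zero
        have h9 : DifferentiableAt ℝ (fun y : E n => ((0, y) : (Fin m → ℝ) × E n)) y := by
          fun_prop
        exact differentiableAt_fst.comp y (DifferentiableAt.comp y h8 h9)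
      have hFξ : HasFDerivAt F (fderiv ℝ F (Θ.symm ((0, y) : (Fin m → ℝ) × E n)).1)
          (Θ.symm ((0, y) : (Fin m → ℝ) × E n)).1 :=
        ((smooth_F hF h3.2).differentiableAt one_ne_zero).hasFDerivAt
      have hg : HasFDerivAt (fun y : E n => y - F (Θ.symm ((0, y) : (Fin m → ℝ) × E n)).1)
          (ContinuousLinearMap.id ℝ (E n) -
            (fderiv ℝ F (Θ.symm ((0, y) : (Fin m → ℝ) × E n)).1).comp
              (fderiv ℝ (fun y : E n => (Θ.symm ((0, y) : (Fin m → ℝ) × E n)).1) y)) y :=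
        (hasFDerivAt_id y).sub (HasFDerivAt.comp y hFξ hξ.hasFDerivAt)
      have hn := hg.norm_sq
      refine hn.congr_fderiv ?_
      ext z
      rw [Submodule.mem_orthogonal'] at horth
      have h10 := horth _ ⟨fderiv ℝ (fun y : E n =>
        (Θ.symm ((0, y) : (Fin m → ℝ) × E n)).1) y z, rfl⟩
      have h11 : inner ℝ (y - F (Θ.symm ((0, y) : (Fin m → ℝ) × E n)).1)
          (fderiv ℝ F (Θ.symm ((0, y) : (Fin m → ℝ) × E n)).1
            (fderiv ℝ (fun y : E n => (Θ.symm ((0, y) : (Fin m → ℝ) × E n)).1) y z)) = 0 := h10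
      rw [inner_sub_left] at h11
      simp
      exact h11
    · intro u hu hu'
      have h8 : ((u, y) : E m × E n) ∈ Θ.source := hUW ⟨hu.1, h1⟩
      have h9 := Θ.left_inv h8
      have h10 : Θ (u, y) = (0, y) := by
        rw [hΘ]
        unfold Ps
        rw [(Ph_zero_iff F u y).2 hu']
      rw [h10] at h9
      show u = (Θ.symm ((0, y) : (Fin m → ℝ) × E n)).1
      rw [h9]

end Pool.Agent.TUB
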