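import Pool.Agent.TUB.Defs

/-!
# Project TUB: the push-forward functions (definition)
-/

open scoped BigOperators Topology Manifold ContDiff
open Filter Set

namespace Pool.Agent.TUB

variable (m : ℕ) {n : ℕ} {X : Type*} [TopologicalSpace X] [ChartedSpace (E m) X]

/-- `∑ φ(d)²` over the feet at distance `d < r`, where `φ(d) = b(d²)`. -/
noncomputable def Sf (f : X → E n) (r : ℝ) (b : ℝ → ℝ) (y : E n) : ℝ :=
  ∑ᶠ x ∈ feet m f y r, b (‖y - f x‖ ^ 2) ^ 2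

/-- `∑ φ'(d)²` over the feet at distance `d < r`, where `φ(d) = b(d²)`. -/
noncomputable def Tf (f : X → E n) (r : ℝ) (b : ℝ → ℝ) (y : E n) : ℝ :=
  ∑ᶠ x ∈ feet m f y r, 4 * ‖y - f x‖ ^ 2 * deriv b (‖y - f x‖ ^ 2) ^ 2

end Pool.Agent.TUB
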