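import Pool.Agent.TUB.Fin
import Pool.Agent.TUB.BrUse
import Pool.Agent.TUB.SDef

/-!
# TUB-Meas: measurability and boundedness of the number of feet (imports Fin, BrUse, SDef; sorry there is fine)

PLAN.  `feet_meas`: lower semicontinuous: at `(s₀, y₀)`, `t₀ = min s₀ r`, `exists_br` at `y₀`: the points `x ∈ I` with
`‖y₀ - f x‖ < t₀` (`ξ x y₀ = x`) satisfy `‖y - f (ξ x y)‖ < min s r` for `(s, y)` near `(s₀, y₀)` by continuity, so by
`Br.encard` (`min s r ≤ r`) the number does not decrease.  `LowerSemicontinuous.measurable` (value in `ENNReal`, or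
in `ℕ∞`).
`feet_bd`: by `Br.encard` the number is at most `I.card` near each `y₀`; it is `0` for `‖y‖ ≥ 1 + r` (`feet_empty`), and the closed ball is compact
(finite subcover).
`feet_empty`: if `‖y - f x‖ < r` then `‖y‖ < 1 + r`.
-/

open scoped BigOperators Topology Manifold ContDiff
open MeasureTheory Filter Set

namespace Pool.Agent.TUB

variable {m n : ℕ} {X : Type*} [TopologicalSpace X] [T2Space X] [CompactSpace X]
  [ChartedSpace (E m) X] [IsManifold (𝓡 m) ∞ X]

theorem feet_empty (f : X → E n) (h1 : ∀ x, ‖f x‖ ≤ 1) {r : ℝ} {y : E n} (hy : 1 + r ≤ ‖y‖) :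
    feet m f y r = ∅ := by
  ext x
  simp only [feet, Set.mem_ofPred_eq, Set.mem_empty_iff_false, iff_false, not_and, not_lt]
  intro _
  have h := norm_le_norm_sub_add y (f x)
  have h2 := h1 x
  linarith

theorem feet_meas (f : X → E n) (hf : Imm m f) {c r : ℝ} (hc0 : 0 < c) (hc : CurvLE m f c)
    (hr : r < 1 / c) :
    Measurable (fun p : ℝ × E n => ((feet m f p.2 (min p.1 r)).encard : ENNReal)) := by
  classical
  apply LowerSemicontinuous.measurable
  intro p₀
  obtain ⟨I, W, ξ, h⟩ := exists_br f hf hc0 hc hr p₀.2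
  have hW : ∀ᶠ p in 𝓝 p₀, p.2 ∈ W :=
    continuous_snd.continuousAt.preimage_mem_nhds (h.isOpen.mem_nhds h.mem)
  have hfc : Continuous f := hf.smooth.continuous
  have hx : ∀ x ∈ I, ∀ᶠ p : ℝ × E n in 𝓝 p₀, ‖p₀.2 - f (ξ x p₀.2)‖ < min p₀.1 r →
      ‖p.2 - f (ξ x p.2)‖ < min p.1 r := by
    intro x hxI
    by_cases hlt : ‖p₀.2 - f (ξ x p₀.2)‖ < min p₀.1 r
    · have hξ : ContinuousAt (ξ x) p₀.2 := (h.cont x hxI).continuousAt (h.isOpen.mem_nhds h.mem)
      have hξ2 : ContinuousAt (fun p : ℝ × E n => ξ x p.2) p₀ :=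
        ContinuousAt.comp (g := ξ x) (f := Prod.snd) hξ continuous_snd.continuousAt
      have hc1 : ContinuousAt (fun p : ℝ × E n => ‖p.2 - f (ξ x p.2)‖) p₀ := by
        apply ContinuousAt.norm
        apply ContinuousAt.sub continuous_snd.continuousAt
        exact ContinuousAt.comp (g := f) (f := fun p : ℝ × E n => ξ x p.2) hfc.continuousAt hξ2
      have hc2 : ContinuousAt (fun p : ℝ × E n => min p.1 r) p₀ :=
        (continuous_fst.min continuous_const).continuousAt
      filter_upwards [hc1.eventually_lt hc2 hlt] with p hp _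
      exact hp
    · exact Filter.Eventually.of_forall fun p hp => absurd hp hlt
  have hall := (Filter.eventually_all_finset I).2 hx
  intro a ha
  filter_upwards [hW, hall] with p hp1 hp2
  refine lt_of_lt_of_le ha ?_
  show ((feet m f p₀.2 (min p₀.1 r)).encard : ENNReal) ≤
    ((feet m f p.2 (min p.1 r)).encard : ENNReal)
  rw [h.encard h.mem (min_le_right _ _), h.encard hp1 (min_le_right _ _)]
  simp only [ENat.toENNReal_coe, Nat.cast_le]
  apply Finset.card_le_card
  intro x hxx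
  rw [Finset.mem_filter] at hxx ⊢
  exact ⟨hxx.1, hp2 x hxx.1 hxx.2⟩

private theorem feet_loc (f : X → E n) (hf : Imm m f) {c r : ℝ} (hc0 : 0 < c)
    (hc : CurvLE m f c) (hr : r < 1 / c) (y₀ : E n) :
    ∃ (W : Set (E n)) (C : ℕ), W ∈ 𝓝 y₀ ∧ ∀ y ∈ W, (feet m f y r).encard ≤ C := by
  classical
  obtain ⟨I, W, ξ, h⟩ := exists_br f hf hc0 hc hr y₀
  refine ⟨W, I.card, h.isOpen.mem_nhds h.mem, fun y hy => ?_⟩
  rw [h.encard hy le_rfl]
  exact_mod_cast Finset.card_filter_le _ _

theorem feet_bd (f : X → E n) (hf : Imm m f) (h1 : ∀ x, ‖f x‖ ≤ 1) {c r : ℝ} (hc0 : 0 < c)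
    (hc : CurvLE m f c) (hr : r < 1 / c) : ∃ C : ℕ, ∀ y, (feet m f y r).encard ≤ C := by
  classical
  choose W C hW hC using feet_loc f hf hc0 hc hr
  obtain ⟨t, _, ht⟩ := (isCompact_closedBall (0 : E n) (1 + r)).elim_nhds_subcover W
    (fun y _ => hW y)
  refine ⟨t.sup C, fun y => ?_⟩
  by_cases hy : y ∈ Metric.closedBall (0 : E n) (1 + r)
  · obtain ⟨z, hz, hyz⟩ := Set.mem_iUnion₂.1 (ht hy)
    refine (hC z y hyz).trans ?_
    exact_mod_cast Finset.le_sup (f := C) hz
  · rw [feet_empty f h1]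
    · simp
    · rw [mem_closedBall_zero_iff, not_le] at hy
      exact hy.le

theorem feet_finite (f : X → E n) (hf : Imm m f) {c r : ℝ} (hc0 : 0 < c)
    (hc : CurvLE m f c) (hr : r < 1 / c) (y : E n) : (feet m f y r).Finite := by
  obtain ⟨I, W, ξ, h⟩ := exists_br f hf hc0 hc hr y
  exact h.finite h.mem le_rfl

end Pool.Agent.TUB
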