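import Pool.Agent.TUB.SC1
import Pool.Agent.TUB.Meas

/-!
# TUB-Pos: positivity

Let `x₀ : X`, `y₀ = f x₀`: `y₀ - f x₀ = 0` is normal and of length `0 < r`, so `x₀ ∈ feet m f y₀ r`.
`tubeVol_pos`: lower semicontinuity, or directly: `exists_br` at `y₀`: on a neighbourhood of `y₀` the branch `ξ x₀ y` is a foot at distance
`< s`, so `1 ≤ encard`, and open nonempty sets have positive measure.
`Sf_int_pos`: `Sf ≥ 0` is continuous (`Sf_contDiff`) with `Sf y₀ ≥ b(0)² > 0` (`feet_finite`, single term of a finsum of nonnegative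
terms), zero for `‖y‖ ≥ 1 + r` (`feet_empty`), so integrable with positive integral
(`Continuous.integral_pos_of_hasCompactSupport_nonneg_nonzero` or similar).
-/

open scoped BigOperators Topology Manifold ContDiff
open MeasureTheory Filter Set

namespace Pool.Agent.TUB

variable {m n : ℕ} {X : Type*} [TopologicalSpace X] [T2Space X] [CompactSpace X] [Nonempty X]
  [ChartedSpace (E m) X] [IsManifold (𝓡 m) ∞ X]

theorem Sf_nonneg (f : X → E n) (r : ℝ) (b : ℝ → ℝ) (y : E n) : 0 ≤ Sf m f r b y := by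
  unfold Sf
  exact finsum_nonneg fun x => finsum_nonneg fun _ => sq_nonneg _

theorem Tf_nonneg (f : X → E n) (r : ℝ) (b : ℝ → ℝ) (y : E n) : 0 ≤ Tf m f r b y := by
  unfold Tf
  refine finsum_nonneg fun x => finsum_nonneg fun _ => ?_
  positivity

theorem tubeVol_pos (f : X → E n) (hf : Imm m f) {c s : ℝ} (hc0 : 0 < c) (hc : CurvLE m f c)
    (hs0 : 0 < s) (hs : s < 1 / c) : 0 < tubeVol m f s := by
  classical
  obtain ⟨x₀⟩ : Nonempty X := inferInstance
  obtain ⟨I, W, ξ, h⟩ := exists_br f hf hc0 hc hs (f x₀)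
  have hn : f x₀ - f x₀ ∈ (tan m f x₀)ᗮ := by
    rw [sub_self]
    exact Submodule.zero_mem _
  obtain ⟨x', hx', he⟩ := h.all (f x₀) h.mem x₀ hn (by rw [sub_self, norm_zero]; exact hs0.le)
  have hW : W ∈ 𝓝 (f x₀) := h.isOpen.mem_nhds h.mem
  have hξ : ContinuousAt (ξ x') (f x₀) := (h.cont x' hx').continuousAt hW
  have hc1 : ContinuousAt (fun y : E n => ‖y - f (ξ x' y)‖) (f x₀) := by
    apply ContinuousAt.norm
    apply ContinuousAt.sub continuousAt_id
    exact ContinuousAt.comp (g := f) (f := ξ x') hf.smooth.continuous.continuousAt hξ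
  have h0 : ‖f x₀ - f (ξ x' (f x₀))‖ < s := by
    rw [he, sub_self, norm_zero]
    exact hs0
  have h1 : ∀ᶠ y in 𝓝 (f x₀), y ∈ W ∧ ‖y - f (ξ x' y)‖ < s :=
    (show ∀ᶠ y in 𝓝 (f x₀), y ∈ W from hW).and (hc1.eventually_lt continuousAt_const h0)
  obtain ⟨ε, hε, hball⟩ := Metric.eventually_nhds_iff_ball.1 h1
  have h2 : volume (Metric.ball (f x₀) ε) ≤ tubeVol m f s := by
    unfold tubeVol
    rw [← MeasureTheory.lintegral_indicator_one Metric.isOpen_ball.measurableSet]
    refine MeasureTheory.lintegral_mono fun y => ?_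
    by_cases hy : y ∈ Metric.ball (f x₀) ε
    · rw [Set.indicator_of_mem hy]
      have h3 := hball y hy
      have h4 : (1 : ℕ∞) ≤ (feet m f y s).encard := by
        rw [Set.one_le_encard_iff_nonempty]
        exact ⟨ξ x' y, h.normal x' hx' y h3.1, h3.2⟩
      have h5 : ((1 : ℕ∞) : ENNReal) ≤ ((feet m f y s).encard : ENNReal) :=
        ENat.toENNReal_le.2 h4
      simpa using h5
    · rw [Set.indicator_of_notMem hy]
      exact zero_le
  exact lt_of_lt_of_le (Metric.measure_ball_pos volume (f x₀) hε) h2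

theorem Sf_int_pos (f : X → E n) (hf : Imm m f) (h1 : ∀ x, ‖f x‖ ≤ 1) {c r : ℝ} (hc0 : 0 < c)
    (hc : CurvLE m f c) (hr0 : 0 < r) (hr : r < 1 / c) (b : ℝ → ℝ) (hb : ContDiff ℝ 1 b)
    (hbr : b (r ^ 2) = 0) (hb0 : b 0 ≠ 0) : 0 < ∫ y, Sf m f r b y := by
  classical
  obtain ⟨x₀⟩ : Nonempty X := inferInstance
  have hn : f x₀ - f x₀ ∈ (tan m f x₀)ᗮ := by
    rw [sub_self]
    exact Submodule.zero_mem _
  have hx : x₀ ∈ feet m f (f x₀) r := by
    refine ⟨hn, ?_⟩
    rw [sub_self, norm_zero]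
    exact hr0
  have hcont : Continuous (Sf m f r b) := (Sf_contDiff f hf hc0 hc hr0 hr b hb hbr).continuous
  have hcs : HasCompactSupport (Sf m f r b) := by
    refine HasCompactSupport.intro (isCompact_closedBall (0 : E n) (1 + r)) fun y hy => ?_
    rw [mem_closedBall_zero_iff, not_le] at hy
    unfold Sf
    rw [feet_empty f h1 hy.le]
    exact finsum_mem_empty
  have hne : Sf m f r b (f x₀) ≠ 0 := by
    have hfin := feet_finite f hf hc0 hc hr (f x₀)
    have hle : b (‖f x₀ - f x₀‖ ^ 2) ^ 2 ≤ Sf m f r b (f x₀) := by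
      unfold Sf
      rw [finsum_mem_eq_finite_toFinset_sum _ hfin]
      exact Finset.single_le_sum (f := fun x => b (‖f x₀ - f x‖ ^ 2) ^ 2)
        (fun x _ => sq_nonneg _) (hfin.mem_toFinset.2 hx)
    rw [sub_self, norm_zero, show (0 : ℝ) ^ 2 = 0 by norm_num] at hle
    exact (lt_of_lt_of_le (by positivity) hle).ne'
  exact hcont.integral_pos_of_hasCompactSupport_nonneg_nonzero hcs (fun y => Sf_nonneg f r b y) hne

end Pool.Agent.TUB
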