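import Pool.Agent.TUB.OneD
import Pool.Agent.TUB.Barta
import Pool.Agent.TUB.Cake
import Pool.Agent.TUB.Pos

/-!
# TUB-Ineq: the inequality for one radius (imports OneD, Barta, Cake, Pos; sorry there is fine)

PLAN.  `b w = B κ (jw κ / r² * w)`: smooth (`B_smooth`), `b (r²) = B κ (jw κ) = 0`, `b 0 = 1`,
`b (d²) = ph κ r d`, `2 d b'(d²) = ph1 κ r d` (`ph_deriv` and chain rule), so
`Sf m f r b y = ∑ᶠ (ph κ r d)²`, `Tf m f r b y = ∑ᶠ (ph1 κ r d)²`.
`cake` with `F = (ph κ r)²`, `F' = 2 ph ph1`: `∫ Sf = 0 - ∫_0^r 2 ph ph1 V`; with `F = (ph1 κ r)²`, `F' = 2 ph1 ph2`: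
`∫ Tf = ph1(r)² V(r) - ∫_0^r 2 ph1 ph2 V`, `V s = (tubeVol m f s).toReal`.
`one_d`: `∫ Tf ≤ (jw κ/r²) ∫ Sf` (`V` is monotone: `feet m f y s ⊆ feet m f y t`, `tubeVol_lt_top`; the growth hypothesis in real form:
`ENNReal.toReal` of `hV`, finite values).
`barta` with `ρ = 1 + r`, every `l < jw n/(1+r)²`, `S = Sf`, `T = Tf`: `l ∫ Sf ≤ ∫ Tf` (`Sf = 0` for `‖y‖ > 1 + r`: `feet_empty`;
`Integrable Tf` from `cake`).  So `l ∫ Sf ≤ (jw κ/r²) ∫ Sf` with `∫ Sf > 0` (`Sf_int_pos`): `l ≤ jw κ/r²`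
(for `l > 0`); let `l` increase to `jw n/(1+r)²`.
-/

open scoped BigOperators Topology Manifold ContDiff
open MeasureTheory Filter Set

namespace Pool.Agent.TUB

variable {m n : ℕ} {X : Type*} [TopologicalSpace X] [T2Space X] [CompactSpace X] [Nonempty X]
  [ChartedSpace (E m) X] [IsManifold (𝓡 m) ∞ X]

private lemma deriv_b {κ : ℝ} (hκ : 0 < κ) (a w : ℝ) :
    HasDerivAt (fun w => B κ (a * w)) (-(1 / (2 * κ)) * B (κ + 2) (a * w) * a) w := by
  have h1 : HasDerivAt (fun w : ℝ => a * w) a w := by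
    simpa using (hasDerivAt_id w).const_mul a
  exact (B_hasDeriv hκ (a * w)).comp w h1

omit [T2Space X] [CompactSpace X] [Nonempty X] [IsManifold (𝓡 m) ∞ X] in
private lemma tubeVol_mono (f : X → E n) {s t : ℝ} (h : s ≤ t) :
    tubeVol m f s ≤ tubeVol m f t := by
  refine lintegral_mono fun y => ?_
  have hsub : feet m f y s ⊆ feet m f y t := fun x hx => ⟨hx.1, lt_of_lt_of_le hx.2 h⟩
  exact ENat.toENNReal_mono (Set.encard_le_encard hsub)

theorem ineq (hn : 1 ≤ n) (f : X → E n) (hf : Imm m f) (h1 : ∀ x, ‖f x‖ ≤ 1) {c r κ : ℝ}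
    (hc0 : 0 < c) (hc : CurvLE m f c) (hr0 : 0 < r) (hr : r < 1 / c) (hκ : 1 ≤ κ)
    (hV : ∀ s t, 0 < s → s ≤ t → t ≤ r →
      tubeVol m f t * ENNReal.ofReal (s ^ κ) ≤ tubeVol m f s * ENNReal.ofReal (t ^ κ)) :
    jw n / (1 + r) ^ 2 ≤ jw κ / r ^ 2 := by
  have hκ0 : 0 < κ := by linarith
  obtain ⟨hj0, hjz, -, -⟩ := jw_facts hκ
  have hn1 : (1 : ℝ) ≤ (n : ℝ) := by exact_mod_cast hn
  obtain ⟨hjn, -, -, -⟩ := jw_facts hn1
  set a : ℝ := jw κ / r ^ 2 with ha
  have ha0 : 0 < a := by positivity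
  set b : ℝ → ℝ := fun w => B κ (a * w) with hb
  have hbs : ContDiff ℝ 1 b := by
    have h := (B_smooth hκ0).comp (contDiff_const.mul contDiff_id : ContDiff ℝ ∞ fun w : ℝ => a * w)
    exact h.of_le (by exact_mod_cast le_top)
  have hbr : b (r ^ 2) = 0 := by
    have : a * r ^ 2 = jw κ := by rw [ha]; field_simp
    simp only [hb, this, hjz]
  have hb0 : b 0 ≠ 0 := by simp [hb, B_zero]
  have hS : ∀ y, Sf m f r b y = ∑ᶠ x ∈ feet m f y r, (fun d => ph κ r d ^ 2) ‖y - f x‖ := by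
    intro y
    rfl
  have hT : ∀ y, Tf m f r b y = ∑ᶠ x ∈ feet m f y r, (fun d => ph1 κ r d ^ 2) ‖y - f x‖ := by
    intro y
    refine finsum_congr fun x => finsum_congr fun _ => ?_
    have hd : deriv b (‖y - f x‖ ^ 2) = -(1 / (2 * κ)) * B (κ + 2) (a * ‖y - f x‖ ^ 2) * a :=
      (deriv_b hκ0 a _).deriv
    rw [hd]
    simp only [ph1]
    rw [← ha]
    field_simp
    ring
  -- real volumes
  set V : ℝ → ℝ := fun s => (tubeVol m f s).toReal with hVd
  have hfin : ∀ s, s ≤ r → tubeVol m f s < ⊤ := fun s hs =>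
    tubeVol_lt_top f hf h1 hc0 hc (lt_of_le_of_lt hs hr)
  have hVm : MonotoneOn V (Ioc 0 r) := by
    intro s _ t ht hst
    exact ENNReal.toReal_mono (hfin t ht.2).ne (tubeVol_mono f hst)
  have hVg : ∀ s t, 0 < s → s ≤ t → t ≤ r → V t * s ^ κ ≤ V s * t ^ κ := by
    intro s t hs hst htr
    have h := hV s t hs hst htr
    have h' := ENNReal.toReal_mono
      (ENNReal.mul_ne_top (hfin s (hst.trans htr)).ne ENNReal.ofReal_ne_top) h
    rw [ENNReal.toReal_mul, ENNReal.toReal_mul, ENNReal.toReal_ofReal (by positivity),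
      ENNReal.toReal_ofReal (Real.rpow_nonneg (hs.le.trans hst) _)] at h'
    exact h'
  have hone := one_d hκ hr0 V (fun s _ => ENNReal.toReal_nonneg) hVm hVg
  -- cake
  have hcS := cake f hf h1 hc0 hc hr0 hr (fun d => ph κ r d ^ 2)
    (fun d => 2 * ph κ r d * ph1 κ r d)
    (fun s _ => by
      have := (ph_deriv hκ0 r s).fun_pow 2
      simpa using this)
    (by
      have h1 : Continuous (ph κ r) :=
        continuous_iff_continuousAt.2 fun s => (ph_deriv hκ0 r s).continuousAt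
      have h2 : Continuous (ph1 κ r) :=
        continuous_iff_continuousAt.2 fun s => (ph1_deriv hκ0 r s).continuousAt
      exact ((continuous_const.mul h1).mul h2).continuousOn)
  have hcT := cake f hf h1 hc0 hc hr0 hr (fun d => ph1 κ r d ^ 2)
    (fun d => 2 * ph1 κ r d * ph2 κ r d)
    (fun s _ => by
      have := (ph1_deriv hκ0 r s).fun_pow 2
      simpa using this)
    (by
      have h2 : Continuous (ph1 κ r) :=
        continuous_iff_continuousAt.2 fun s => (ph1_deriv hκ0 r s).continuousAt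
      exact ((continuous_const.mul h2).mul (ph2_cont hκ0 r)).continuousOn)
  have hSi : ∫ y, Sf m f r b y = -∫ s in (0 : ℝ)..r, (2 * ph κ r s * ph1 κ r s) * V s := by
    rw [show (fun y => Sf m f r b y) = _ from funext hS, hcS.2]
    simp only [ph_r hκ hr0]
    ring
  have hTi : ∫ y, Tf m f r b y =
      ph1 κ r r ^ 2 * V r - ∫ s in (0 : ℝ)..r, (2 * ph1 κ r s * ph2 κ r s) * V s := by
    rw [show (fun y => Tf m f r b y) = _ from funext hT, hcT.2]
  have hTint : Integrable (Tf m f r b) := by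
    rw [show Tf m f r b = _ from funext hT]
    exact hcT.1
  rw [← hSi, ← hTi] at hone
  have hpos := Sf_int_pos f hf h1 hc0 hc hr0 hr b hbs hbr hb0
  -- the inequality for every l below the bound
  have key : ∀ l, 0 < l → l < jw n / (1 + r) ^ 2 → l ≤ a := by
    intro l hl0 hl
    have hl' : l * (1 + r) ^ 2 < jw n := (lt_div_iff₀ (by positivity)).1 hl
    have hb := barta hn hl0 (by positivity : 0 < 1 + r) hl' (Sf m f r b) (Tf m f r b)
      (Sf_contDiff f hf hc0 hc hr0 hr b hbs hbr) (Sf_nonneg f r b)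
      (fun y hy => by
        simp only [Sf, feet_empty f h1 hy.le]
        simp)
      hTint (Tf_nonneg f r b) (Sf_grad f hf hc0 hc hr0 hr b hbs hbr)
    have h2 : l * ∫ y, Sf m f r b y ≤ a * ∫ y, Sf m f r b y := hb.trans hone
    exact le_of_mul_le_mul_right h2 hpos
  by_contra hcon
  push Not at hcon
  have hmid : a < (a + jw n / (1 + r) ^ 2) / 2 := by linarith
  have := key ((a + jw n / (1 + r) ^ 2) / 2) (by linarith) (by linarith)
  linarith

end Pool.Agent.TUB
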