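import Pool.Agent.TUB.ChB
import Pool.Agent.TUB.Ift

/-!
# TUB-Loc: the local branches of the foot point map

The branches in the coordinates of a chart (`ift`), transported to the manifold.
-/

open scoped BigOperators Topology Manifold ContDiff
open Filter Set

namespace Pool.Agent.TUB

variable {m n : ℕ} {X : Type*} [TopologicalSpace X] [ChartedSpace (E m) X]
  [IsManifold (𝓡 m) ∞ X]

theorem loc (f : X → E n) (hf : Imm m f) {c : ℝ} (hc0 : 0 < c) (hc : CurvLE m f c) (x₀ : X)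
    (y₀ : E n) (hN : y₀ - f x₀ ∈ (tan m f x₀)ᗮ) (hd : ‖y₀ - f x₀‖ < 1 / c) :
    ∃ (W : Set (E n)) (U : Set X) (ξ : E n → X), IsOpen W ∧ y₀ ∈ W ∧ IsOpen U ∧ x₀ ∈ U ∧
      ξ y₀ = x₀ ∧ ContinuousOn ξ W ∧ ∀ y ∈ W, ξ y ∈ U ∧ y - f (ξ y) ∈ (tan m f (ξ y))ᗮ ∧
        HasFDerivAt (fun y => ‖y - f (ξ y)‖ ^ 2) ((2 : ℝ) • innerSL ℝ (y - f (ξ y))) y ∧
        ∀ x ∈ U, y - f x ∈ (tan m f x)ᗮ → x = ξ y := by
  have hu₀ : extChartAt (𝓡 m) x₀ x₀ ∈ (extChartAt (𝓡 m) x₀).target := mem_extChartAt_target x₀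
  have hφ₀ : (extChartAt (𝓡 m) x₀).symm (extChartAt (𝓡 m) x₀ x₀) = x₀ := extChartAt_to_inv x₀
  have hN' : y₀ - (f ∘ (extChartAt (𝓡 m) x₀).symm) (extChartAt (𝓡 m) x₀ x₀) ∈
      (LinearMap.range (fderiv ℝ (f ∘ (extChartAt (𝓡 m) x₀).symm)
        (extChartAt (𝓡 m) x₀ x₀) : E m →ₗ[ℝ] E n))ᗮ := by
    rw [← chart_range f hf x₀ _ hu₀, Function.comp_apply, hφ₀]
    exact hN
  have hd' : ‖y₀ - (f ∘ (extChartAt (𝓡 m) x₀).symm) (extChartAt (𝓡 m) x₀ x₀)‖ < 1 / c := by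
    rw [Function.comp_apply, hφ₀]
    exact hd
  obtain ⟨W, U', ξ', hW, hyW, hU', hu', hUO, hξ0, hξc, hall⟩ :=
    ift (chart_locImm f hf c hc x₀) hc0 hu₀ hN' hd'
  refine ⟨W, (extChartAt (𝓡 m) x₀).source ∩ extChartAt (𝓡 m) x₀ ⁻¹' U',
    fun y => (extChartAt (𝓡 m) x₀).symm (ξ' y), hW, hyW,
    (continuousOn_extChartAt x₀).isOpen_inter_preimage (isOpen_extChartAt_source x₀) hU',
    ⟨mem_extChartAt_source x₀, hu'⟩, ?_,
    (continuousOn_extChartAt_symm x₀).comp hξc (fun y hy => hUO (hall y hy).1), ?_⟩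
  · show (extChartAt (𝓡 m) x₀).symm (ξ' y₀) = x₀
    rw [hξ0, hφ₀]
  · intro y hy
    obtain ⟨h1, h2, h3, h4⟩ := hall y hy
    have ht := hUO h1
    refine ⟨⟨(extChartAt (𝓡 m) x₀).map_target ht, ?_⟩, ?_, h3, ?_⟩
    · show extChartAt (𝓡 m) x₀ ((extChartAt (𝓡 m) x₀).symm (ξ' y)) ∈ U'
      rw [(extChartAt (𝓡 m) x₀).right_inv ht]
      exact h1
    · rw [chart_range f hf x₀ _ ht]
      exact h2
    · rintro x ⟨hxs, hxU⟩ hx
      have hx1 : (extChartAt (𝓡 m) x₀).symm (extChartAt (𝓡 m) x₀ x) = x :=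
        (extChartAt (𝓡 m) x₀).left_inv hxs
      have hx2 : extChartAt (𝓡 m) x₀ x = ξ' y := by
        apply h4 _ hxU
        rw [← chart_range f hf x₀ _ ((extChartAt (𝓡 m) x₀).map_source hxs), Function.comp_apply,
          hx1]
        exact hx
      show x = (extChartAt (𝓡 m) x₀).symm (ξ' y)
      rw [← hx2, hx1]

end Pool.Agent.TUB
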