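import Pool.Agent.TUB.Ineq
import Pool.Agent.TUB.BJ

/-!
# TUB-Main: the theorem (imports Ineq, BJ; sorry there is fine)

PLAN.  `main_ratio`: `ineq` for all `r < 1/c`: `√(jw n) r ≤ √(jw κ) (1 + r)`; let `r → 1/c`: `√(jw n) ≤ √(jw κ) (c + 1)`;
`jz_eq` for `κ` and for `n` (`(n:ℝ) ≥ 1`), `jz > 0`.
`main_q1`: if `κ = n - m =: k` (natural number `≥ 1`): `jz (κ/2-1) ≤ k π/2` (`jz_le`), so
`jz (n/2-1) ≤ (c+1) k π/2`.  If `κ (κ+4) ≤ π² k²/2`: `jz (κ/2-1)² = jw κ ≤ κ(κ+4)/2 ≤ (kπ/2)²` (`jw_facts`).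
-/

open scoped BigOperators Topology Manifold ContDiff
open MeasureTheory Filter Set

namespace Pool.Agent.TUB

variable {m n : ℕ} {X : Type*} [TopologicalSpace X] [T2Space X] [CompactSpace X] [Nonempty X]
  [ChartedSpace (E m) X] [IsManifold (𝓡 m) ∞ X]

theorem main_ratio (hn : 1 ≤ n) (f : X → E n) (hf : Imm m f) (h1 : ∀ x, ‖f x‖ ≤ 1) {c κ : ℝ}
    (hc0 : 0 < c) (hc : CurvLE m f c) (hκ : 1 ≤ κ)
    (hV : ∀ s t, 0 < s → s ≤ t → t < 1 / c →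
      tubeVol m f t * ENNReal.ofReal (s ^ κ) ≤ tubeVol m f s * ENNReal.ofReal (t ^ κ)) :
    jz ((n : ℝ) / 2 - 1) / jz (κ / 2 - 1) - 1 ≤ c := by
  have hn1 : (1 : ℝ) ≤ (n : ℝ) := by exact_mod_cast hn
  have hic : (0 : ℝ) < 1 / c := by positivity
  have key : ∀ r : ℝ, 0 < r → r < 1 / c → jw n / (1 + r) ^ 2 ≤ jw κ / r ^ 2 := by
    intro r hr0 hr
    exact ineq hn f hf h1 hc0 hc hr0 hr hκ
      (fun s t hs hst htr => hV s t hs hst (lt_of_le_of_lt htr hr))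
  have hlim : jw n / (1 + 1 / c) ^ 2 ≤ jw κ / (1 / c) ^ 2 := by
    have hA : Tendsto (fun r : ℝ => jw n / (1 + r) ^ 2) (𝓝[<] (1 / c))
        (𝓝 (jw n / (1 + 1 / c) ^ 2)) := by
      have : ContinuousAt (fun r : ℝ => jw n / (1 + r) ^ 2) (1 / c) := by
        refine ContinuousAt.div continuousAt_const ?_ ?_
        · fun_prop
        · have : (0 : ℝ) < 1 + 1 / c := by positivity
          positivity
      exact this.tendsto.mono_left nhdsWithin_le_nhds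
    have hB : Tendsto (fun r : ℝ => jw κ / r ^ 2) (𝓝[<] (1 / c))
        (𝓝 (jw κ / (1 / c) ^ 2)) := by
      have : ContinuousAt (fun r : ℝ => jw κ / r ^ 2) (1 / c) := by
        refine ContinuousAt.div continuousAt_const ?_ ?_
        · fun_prop
        · positivity
      exact this.tendsto.mono_left nhdsWithin_le_nhds
    refine le_of_tendsto_of_tendsto hA hB ?_
    have hmem : Ioo (0 : ℝ) (1 / c) ∈ 𝓝[<] (1 / c) := Ioo_mem_nhdsLT hic
    filter_upwards [hmem] with r hr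
    exact key r hr.1 hr.2
  have h2 : jw n ≤ jw κ * (c + 1) ^ 2 := by
    have e1 : jw n / (1 + 1 / c) ^ 2 = jw n * c ^ 2 / (c + 1) ^ 2 := by
      field_simp
    have e2 : jw κ / (1 / c) ^ 2 = jw κ * c ^ 2 := by
      field_simp
    rw [e1, e2, div_le_iff₀ (by positivity)] at hlim
    have hc2 : (0 : ℝ) < c ^ 2 := by positivity
    have h3 : jw n * c ^ 2 ≤ (jw κ * (c + 1) ^ 2) * c ^ 2 := by
      calc jw n * c ^ 2 ≤ jw κ * c ^ 2 * (c + 1) ^ 2 := hlim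
        _ = (jw κ * (c + 1) ^ 2) * c ^ 2 := by ring
    exact le_of_mul_le_mul_right h3 hc2
  have hzn := (jz_eq hn1).1
  have hzκ := (jz_eq hκ).1
  have hpos : 0 < jz (κ / 2 - 1) := by
    rw [hzκ]
    exact Real.sqrt_pos.2 (jw_facts hκ).1
  have h4 : jz ((n : ℝ) / 2 - 1) ≤ (c + 1) * jz (κ / 2 - 1) := by
    rw [hzn, hzκ]
    calc Real.sqrt (jw n) ≤ Real.sqrt (jw κ * (c + 1) ^ 2) := Real.sqrt_le_sqrt h2
      _ = Real.sqrt (jw κ) * Real.sqrt ((c + 1) ^ 2) := Real.sqrt_mul (jw_facts hκ).1.le _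
      _ = (c + 1) * Real.sqrt (jw κ) := by
        rw [Real.sqrt_sq (by positivity), mul_comm]
  have h5 : jz ((n : ℝ) / 2 - 1) / jz (κ / 2 - 1) ≤ c + 1 := by
    rw [div_le_iff₀ hpos]
    exact h4
  linarith

theorem main_q1 (hmn : m < n) (f : X → E n) (hf : Imm m f) (h1 : ∀ x, ‖f x‖ ≤ 1) {c κ : ℝ}
    (hc0 : 0 < c) (hc : CurvLE m f c) (hκ : 1 ≤ κ)
    (hκ2 : κ = (n : ℝ) - m ∨ κ * (κ + 4) ≤ Real.pi ^ 2 * ((n : ℝ) - m) ^ 2 / 2 ∨
      jz (κ / 2 - 1) ≤ ((n : ℝ) - m) * Real.pi / 2)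
    (hV : ∀ s t, 0 < s → s ≤ t → t < 1 / c →
      tubeVol m f t * ENNReal.ofReal (s ^ κ) ≤ tubeVol m f s * ENNReal.ofReal (t ^ κ)) :
    2 * jz ((n : ℝ) / 2 - 1) / (((n : ℝ) - m) * Real.pi) - 1 ≤ c := by
  have hn : 1 ≤ n := by omega
  have hnm : (0 : ℝ) < (n : ℝ) - m := by
    have : (m : ℝ) < n := by exact_mod_cast hmn
    linarith
  have hP : 0 < ((n : ℝ) - m) * Real.pi / 2 := by
    have := Real.pi_pos
    positivity
  have hzκ := (jz_eq hκ).1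
  have hpos : 0 < jz (κ / 2 - 1) := by
    rw [hzκ]
    exact Real.sqrt_pos.2 (jw_facts hκ).1
  have h2 : jz (κ / 2 - 1) ≤ ((n : ℝ) - m) * Real.pi / 2 := by
    rcases hκ2 with h | h | h
    · have hk : 1 ≤ n - m := by omega
      have h3 := jz_le hk
      have h4 : ((n - m : ℕ) : ℝ) = (n : ℝ) - m := by
        push_cast [Nat.cast_sub hmn.le]
        ring
      rw [h4] at h3
      rw [h]
      exact h3
    · rw [hzκ]
      have h3 := (jw_facts hκ).2.2.2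
      have h4 : jw κ ≤ (((n : ℝ) - m) * Real.pi / 2) ^ 2 := by
        have h5 : (((n : ℝ) - m) * Real.pi / 2) ^ 2 =
            (Real.pi ^ 2 * ((n : ℝ) - m) ^ 2 / 2) / 2 := by ring
        rw [h5]
        linarith
      calc Real.sqrt (jw κ) ≤ Real.sqrt ((((n : ℝ) - m) * Real.pi / 2) ^ 2) :=
            Real.sqrt_le_sqrt h4
        _ = ((n : ℝ) - m) * Real.pi / 2 := Real.sqrt_sq hP.le
    · exact h
  have h3 := main_ratio hn f hf h1 hc0 hc hκ hV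
  have h4 : jz ((n : ℝ) / 2 - 1) ≤ (c + 1) * jz (κ / 2 - 1) := by
    have h5 : jz ((n : ℝ) / 2 - 1) / jz (κ / 2 - 1) ≤ c + 1 := by linarith
    rwa [div_le_iff₀ hpos] at h5
  have h6 : jz ((n : ℝ) / 2 - 1) ≤ (c + 1) * (((n : ℝ) - m) * Real.pi / 2) :=
    h4.trans (mul_le_mul_of_nonneg_left h2 (by linarith))
  have h7 : 2 * jz ((n : ℝ) / 2 - 1) / (((n : ℝ) - m) * Real.pi) ≤ c + 1 := by
    rw [div_le_iff₀ (by linarith)]
    linarith
  linarith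

end Pool.Agent.TUB
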