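import Pool.Agent.TUB.Ph
import Pool.Agent.TUB.Abel

/-!
# TUB-OneD: the one-dimensional inequality (imports Ph, Abel; sorry there is fine)

PLAN.  `λ = jw κ/r²`, `φ = ph κ r`, `φ' = ph1 κ r`, `φ'' = ph2 κ r`, `q = φ'² - λ φ²`,
`q' = 2 φ' φ'' - 2 λ φ φ'`.  The claim is `q(r) V(r) - ∫_0^r q'(s) V(s) ds ≤ 0` (`q(r) = φ'(r)²` as
`φ(r) = 0`; linearity of the integral; `V` is monotone and bounded, so measurable and integrable on
`(0,r]`; continuous functions times `V` are integrable).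
Put `w(u) = u^κ q'(u)` (`Real.rpow`) and `Q(s) = s^κ q(s) - κ s^(κ-1) φ(s) φ'(s)`.  By `ph_ode`,
`Q'(s) = w(s)` for `s > 0`, `Q` is continuous on `[0,∞)` (`κ ≥ 1`) with `Q(0) = 0` (for `κ = 1`:
`φ'(0) = ph1 = 0`), so `∫_0^s w = Q(s)`.  `Q(s) ≥ 0` on `[0,r]`:
`Q(s) = s^(κ-1) (s φ'² - λ s φ² - κ φ φ')` and `-κ φ φ' ≥ λ s φ²` (`ph_lower` times `φ ≥ 0`).
`Q(r) = r^κ φ'(r)²`.  Put `A(u) = V(u)/u^κ`, antitone on `(0,r]` (`hV`).  `w A = q' V` on `(0,r]`.
`abel_pos`: `A(r) Q(r) ≤ ∫_0^r q' V`, and `A(r) Q(r) = V(r) φ'(r)²`.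
-/

open scoped BigOperators Topology
open MeasureTheory Filter Set

namespace Pool.Agent.TUB

private theorem q_deriv {κ : ℝ} (hκ : 1 ≤ κ) (r : ℝ) {s : ℝ} (hs : 0 < s) :
    HasDerivAt (fun s => s ^ κ * (ph1 κ r s ^ 2 - jw κ / r ^ 2 * ph κ r s ^ 2) -
      κ * s ^ (κ - 1) * (ph κ r s * ph1 κ r s))
      (s ^ κ * (2 * ph1 κ r s * ph2 κ r s - jw κ / r ^ 2 * (2 * ph κ r s * ph1 κ r s))) s := by
  have hκ0 : 0 < κ := by linarith
  have h0 := ph_deriv hκ0 r s
  have h1 := ph1_deriv hκ0 r s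
  have hp : HasDerivAt (fun s : ℝ => s ^ κ) (κ * s ^ (κ - 1)) s :=
    Real.hasDerivAt_rpow_const (Or.inl hs.ne')
  have hp1 : HasDerivAt (fun s : ℝ => s ^ (κ - 1)) ((κ - 1) * s ^ (κ - 1 - 1)) s :=
    Real.hasDerivAt_rpow_const (Or.inl hs.ne')
  have hq := (h1.pow 2).sub ((h0.pow 2).const_mul (jw κ / r ^ 2))
  have hA := hp.mul hq
  have hB := (hp1.const_mul κ).mul (h0.mul h1)
  refine (hA.sub hB).congr_deriv ?_
  have e1 : s ^ κ = s ^ (κ - 1 - 1) * (s * s) := by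
    rw [Real.rpow_sub_one hs.ne', Real.rpow_sub_one hs.ne']
    field_simp
  have e2 : s ^ (κ - 1) = s ^ (κ - 1 - 1) * s := by
    rw [Real.rpow_sub_one hs.ne' (κ - 1)]
    field_simp
  have hode := ph_ode hκ0 r s
  simp only [Pi.pow_apply, Pi.mul_apply, Pi.sub_apply]
  rw [e1, e2]
  generalize s ^ (κ - 1 - 1) = z at *
  generalize ph κ r s = f at *
  generalize ph1 κ r s = g at *
  generalize ph2 κ r s = k at *
  generalize jw κ / r ^ 2 = lam at *
  push_cast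
  linear_combination (-(κ * z * f)) * hode

theorem one_d {κ r : ℝ} (hκ : 1 ≤ κ) (hr : 0 < r) (V : ℝ → ℝ) (hV0 : ∀ s ∈ Ioc 0 r, 0 ≤ V s)
    (hVm : MonotoneOn V (Ioc 0 r))
    (hV : ∀ s t, 0 < s → s ≤ t → t ≤ r → V t * s ^ κ ≤ V s * t ^ κ) :
    ph1 κ r r ^ 2 * V r - ∫ s in (0 : ℝ)..r, (2 * ph1 κ r s * ph2 κ r s) * V s ≤
      jw κ / r ^ 2 * -∫ s in (0 : ℝ)..r, (2 * ph κ r s * ph1 κ r s) * V s := by
  have hκ0 : 0 < κ := by linarith
  have hf : Continuous (ph κ r) :=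
    continuous_iff_continuousAt.2 fun s => (ph_deriv hκ0 r s).continuousAt
  have hf1 : Continuous (ph1 κ r) :=
    continuous_iff_continuousAt.2 fun s => (ph1_deriv hκ0 r s).continuousAt
  have hf2 : Continuous (ph2 κ r) := ph2_cont hκ0 r
  -- integrability of continuous functions times V
  have hVint : IntegrableOn V (Ioc 0 r) := by
    have hmeas : AEMeasurable V (volume.restrict (Ioc 0 r)) :=
      aemeasurable_restrict_of_monotoneOn measurableSet_Ioc hVm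
    refine Integrable.of_bound hmeas.aestronglyMeasurable (V r) ?_
    refine (ae_restrict_iff' measurableSet_Ioc).2 (Eventually.of_forall fun s hs => ?_)
    rw [Real.norm_eq_abs, abs_of_nonneg (hV0 s hs)]
    exact hVm hs ⟨hr, le_refl r⟩ hs.2
  have hcV : ∀ c : ℝ → ℝ, Continuous c → IntegrableOn (fun s => c s * V s) (Ioc 0 r) := by
    intro c hc
    have h1 : ContinuousOn c (Icc 0 r) := hc.continuousOn
    obtain ⟨C, hC⟩ := isCompact_Icc.exists_bound_of_continuousOn h1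
    refine Integrable.bdd_mul (c := C) hVint hc.aestronglyMeasurable ?_
    refine (ae_restrict_iff' measurableSet_Ioc).2 (Eventually.of_forall fun s hs => ?_)
    exact hC s ⟨hs.1.le, hs.2⟩
  have hi1 : IntervalIntegrable (fun s => (2 * ph1 κ r s * ph2 κ r s) * V s) volume 0 r :=
    (intervalIntegrable_iff_integrableOn_Ioc_of_le hr.le).2
      (hcV (fun s => 2 * ph1 κ r s * ph2 κ r s) ((continuous_const.mul hf1).mul hf2))
  have hi2 : IntervalIntegrable (fun s => (2 * ph κ r s * ph1 κ r s) * V s) volume 0 r :=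
    (intervalIntegrable_iff_integrableOn_Ioc_of_le hr.le).2
      (hcV (fun s => 2 * ph κ r s * ph1 κ r s) ((continuous_const.mul hf).mul hf1))
  -- the functions w, A, Q
  obtain ⟨qd, hqd⟩ : ∃ qd : ℝ → ℝ, qd = fun s => 2 * ph1 κ r s * ph2 κ r s -
      jw κ / r ^ 2 * (2 * ph κ r s * ph1 κ r s) := ⟨_, rfl⟩
  have hqdc : Continuous qd := by
    rw [hqd]
    exact ((continuous_const.mul hf1).mul hf2).sub
      (continuous_const.mul ((continuous_const.mul hf).mul hf1))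
  obtain ⟨w, hw⟩ : ∃ w : ℝ → ℝ, w = fun u => u ^ κ * qd u := ⟨_, rfl⟩
  have hwc : Continuous w := by
    rw [hw]
    exact (Real.continuous_rpow_const (by linarith)).mul hqdc
  obtain ⟨A, hA⟩ : ∃ A : ℝ → ℝ, A = fun u => V u / u ^ κ := ⟨_, rfl⟩
  obtain ⟨Q, hQ⟩ : ∃ Q : ℝ → ℝ, Q = fun s => s ^ κ * (ph1 κ r s ^ 2 - jw κ / r ^ 2 * ph κ r s ^ 2) -
      κ * s ^ (κ - 1) * (ph κ r s * ph1 κ r s) := ⟨_, rfl⟩
  have hQc : Continuous Q := by
    rw [hQ]
    exact ((Real.continuous_rpow_const (by linarith)).mul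
      ((hf1.pow 2).sub (continuous_const.mul (hf.pow 2)))).sub
      ((continuous_const.mul (Real.continuous_rpow_const (by linarith))).mul (hf.mul hf1))
  have hQ0 : Q 0 = 0 := by
    have h1 : ph1 κ r 0 = 0 := by
      unfold ph1
      simp
    rw [hQ]
    simp only [h1]
    rw [Real.zero_rpow hκ0.ne']
    ring
  have hQi : ∀ s, 0 ≤ s → ∫ u in (0 : ℝ)..s, w u = Q s := by
    intro s hs
    have h := intervalIntegral.integral_eq_sub_of_hasDerivAt_of_le hs hQc.continuousOn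
      (f' := w) (fun u hu => by
        rw [hw, hQ, hqd]
        exact q_deriv hκ r hu.1) (hwc.intervalIntegrable _ _)
    rw [h, hQ0, sub_zero]
  have hφ0 : ∀ s, 0 ≤ s → s ≤ r → 0 ≤ ph κ r s := by
    intro s h0 h1
    rcases lt_or_eq_of_le h1 with h | h
    · exact (ph_pos hκ hr h0 h).le
    · rw [h, ph_r hκ hr]
  have hQpos : ∀ s ∈ Ioc 0 r, 0 ≤ Q s := by
    intro s hs
    have h1 := ph_lower hκ hr hs.1.le hs.2
    have h2 := mul_le_mul_of_nonneg_right h1 (hφ0 s hs.1.le hs.2)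
    have h3 : s ^ κ = s ^ (κ - 1) * s := by
      rw [Real.rpow_sub_one hs.1.ne', div_mul_cancel₀ _ hs.1.ne']
    have h4 : 0 ≤ s ^ (κ - 1) := Real.rpow_nonneg hs.1.le _
    have h5 : Q s = s ^ (κ - 1) * (s * ph1 κ r s ^ 2 +
        (-κ * ph1 κ r s * ph κ r s - jw κ / r ^ 2 * s * ph κ r s * ph κ r s)) := by
      rw [hQ]
      simp only
      rw [h3]
      ring
    rw [h5]
    apply mul_nonneg h4
    have h6 : 0 ≤ s * ph1 κ r s ^ 2 := mul_nonneg hs.1.le (sq_nonneg _)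
    linarith
  have hAanti : AntitoneOn A (Ioc 0 r) := by
    intro s hs t ht hst
    rw [hA]
    simp only
    rw [div_le_div_iff₀ (Real.rpow_pos_of_pos ht.1 _) (Real.rpow_pos_of_pos hs.1 _)]
    exact hV s t hs.1 hst ht.2
  have hwA : ∀ u ∈ Ioc 0 r, w u * A u = qd u * V u := by
    intro u hu
    have h1 : u ^ κ ≠ 0 := (Real.rpow_pos_of_pos hu.1 _).ne'
    rw [hw, hA]
    simp only
    field_simp
  have hint : IntegrableOn (fun u => w u * A u) (Ioc 0 r) :=
    (integrableOn_congr_fun hwA measurableSet_Ioc).2 (hcV qd hqdc)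
  have hmain := abel_pos hr w A hAanti hwc.continuousOn
    (fun s hs => by rw [hQi s hs.1.le]; exact hQpos s hs) hint
  rw [hQi r hr.le] at hmain
  have hQr : A r * Q r = ph1 κ r r ^ 2 * V r := by
    have h1 : r ^ κ ≠ 0 := (Real.rpow_pos_of_pos hr _).ne'
    rw [hA, hQ]
    simp only
    rw [ph_r hκ hr]
    field_simp
    ring
  have hsplit : ∫ u in (0 : ℝ)..r, w u * A u =
      (∫ s in (0 : ℝ)..r, (2 * ph1 κ r s * ph2 κ r s) * V s) -
        jw κ / r ^ 2 * ∫ s in (0 : ℝ)..r, (2 * ph κ r s * ph1 κ r s) * V s := by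
    rw [← intervalIntegral.integral_const_mul, ← intervalIntegral.integral_sub hi1 (hi2.const_mul _)]
    rw [intervalIntegral.integral_of_le hr.le, intervalIntegral.integral_of_le hr.le]
    refine setIntegral_congr_fun measurableSet_Ioc fun u hu => ?_
    show w u * A u = _
    rw [hwA u hu, hqd]
    ring
  rw [hQr, hsplit] at hmain
  linarith

end Pool.Agent.TUB
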