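import Pool.Agent.TUB.BPos

/-!
# TUB-Ph: the radial eigenfunction `ph κ r` (imports BPos; sorry there is fine)

PLAN.  Chain rule with `B_hasDeriv` (for `κ`, `κ + 2`); `λ = jw κ / r²`, `λ r² = jw κ`.
`ph_ode`: `B_rec`.  `ph_r`, `ph_pos`: `jw_facts`, `λ s² < λ r² = jw κ` for `0 ≤ s < r`.
`ph1_nonpos`: `B_two_pos`.  `ph_lower`: `λ s B κ (λ s²) ≤ λ s B (κ+2) (λ s²) = -κ ph1`, `B_le_two`.
-/

open scoped BigOperators Topology ContDiff
open Filter Set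

namespace Pool.Agent.TUB

private theorem inner_deriv (c s : ℝ) : HasDerivAt (fun s : ℝ => c * s ^ 2) (c * (2 * s)) s := by
  have h := (hasDerivAt_pow 2 s).const_mul c
  simpa using h

private theorem Bc {κ : ℝ} (hκ : 0 < κ) (c s : ℝ) :
    HasDerivAt (fun s : ℝ => B κ (c * s ^ 2)) (-(1 / (2 * κ)) * B (κ + 2) (c * s ^ 2) * (c * (2 * s))) s := by
  have h : HasDerivAt (B κ) (-(1 / (2 * κ)) * B (κ + 2) (c * s ^ 2)) ((fun s : ℝ => c * s ^ 2) s) :=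
    B_hasDeriv hκ (c * s ^ 2)
  exact HasDerivAt.comp (h₂ := B κ) (h := fun s : ℝ => c * s ^ 2) s h (inner_deriv c s)

theorem ph_deriv {κ : ℝ} (hκ : 0 < κ) (r s : ℝ) : HasDerivAt (ph κ r) (ph1 κ r s) s := by
  have h := Bc hκ (jw κ / r ^ 2) s
  have he : -(1 / (2 * κ)) * B (κ + 2) (jw κ / r ^ 2 * s ^ 2) * (jw κ / r ^ 2 * (2 * s)) = ph1 κ r s := by
    unfold ph1
    generalize jw κ / r ^ 2 = c
    field_simp
  rw [he] at h
  exact h

theorem ph1_deriv {κ : ℝ} (hκ : 0 < κ) (r s : ℝ) : HasDerivAt (ph1 κ r) (ph2 κ r s) s := by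
  have h2 : 0 < κ + 2 := by linarith
  have h := Bc h2 (jw κ / r ^ 2) s
  have h1 : HasDerivAt (fun s : ℝ => -(jw κ / r ^ 2 * s / κ)) (-(jw κ / r ^ 2 / κ)) s := by
    have h3 := ((hasDerivAt_id s).const_mul (-(jw κ / r ^ 2 / κ)))
    have h4 : (fun s : ℝ => -(jw κ / r ^ 2 * s / κ)) = fun s : ℝ => -(jw κ / r ^ 2 / κ) * id s := by
      funext s
      simp only [id]
      ring
    rw [h4]
    simpa using h3
  have h5 := h1.mul h
  have he : -(jw κ / r ^ 2 / κ) * B (κ + 2) (jw κ / r ^ 2 * s ^ 2) +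
      -(jw κ / r ^ 2 * s / κ) * (-(1 / (2 * (κ + 2))) * B (κ + 2 + 2) (jw κ / r ^ 2 * s ^ 2) *
        (jw κ / r ^ 2 * (2 * s))) = ph2 κ r s := by
    unfold ph2
    rw [show κ + 2 + 2 = κ + 4 by ring]
    generalize jw κ / r ^ 2 = c
    field_simp
  rw [he] at h5
  exact h5

private theorem B_cont {κ : ℝ} (hκ : 0 < κ) : Continuous (B κ) := (B_smooth hκ).continuous

theorem ph2_cont {κ : ℝ} (hκ : 0 < κ) (r : ℝ) : Continuous (ph2 κ r) := by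
  have h2 : 0 < κ + 2 := by linarith
  have h4 : 0 < κ + 4 := by linarith
  have hc : Continuous fun s : ℝ => jw κ / r ^ 2 * s ^ 2 := by fun_prop
  have e2 := (B_cont h2).comp hc
  have e4 := (B_cont h4).comp hc
  have e0 : Continuous fun s : ℝ => (jw κ / r ^ 2) ^ 2 * s ^ 2 / (κ * (κ + 2)) := by fun_prop
  exact (continuous_const.mul e2).add (e0.mul e4)

theorem ph_ode {κ : ℝ} (hκ : 0 < κ) (r s : ℝ) :
    s * ph2 κ r s = -(κ - 1) * ph1 κ r s - jw κ / r ^ 2 * s * ph κ r s := by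
  have h2 : 0 < κ + 2 := by linarith
  unfold ph ph1 ph2
  generalize jw κ / r ^ 2 = c
  rw [B_rec hκ]
  field_simp
  ring

theorem ph_r {κ r : ℝ} (hκ : 1 ≤ κ) (hr : 0 < r) : ph κ r r = 0 := by
  unfold ph
  have h : jw κ / r ^ 2 * r ^ 2 = jw κ := by field_simp
  rw [h]
  exact (jw_facts hκ).2.1

private theorem bd {κ r s : ℝ} (hκ : 1 ≤ κ) (hr : 0 < r) (h0 : 0 ≤ s) (h1 : s ≤ r) :
    0 ≤ jw κ / r ^ 2 * s ^ 2 ∧ jw κ / r ^ 2 * s ^ 2 ≤ jw κ := by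
  have hj := (jw_facts hκ).1
  have hc : 0 < jw κ / r ^ 2 := by positivity
  refine ⟨by positivity, ?_⟩
  have h : jw κ / r ^ 2 * r ^ 2 = jw κ := by field_simp
  calc jw κ / r ^ 2 * s ^ 2 ≤ jw κ / r ^ 2 * r ^ 2 := by gcongr
    _ = jw κ := h

theorem ph_pos {κ r s : ℝ} (hκ : 1 ≤ κ) (hr : 0 < r) (h0 : 0 ≤ s) (h1 : s < r) :
    0 < ph κ r s := by
  have hj := (jw_facts hκ).1
  have hc : 0 < jw κ / r ^ 2 := by positivity
  have h : jw κ / r ^ 2 * r ^ 2 = jw κ := by field_simp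
  have h2 : jw κ / r ^ 2 * s ^ 2 < jw κ := by
    calc jw κ / r ^ 2 * s ^ 2 < jw κ / r ^ 2 * r ^ 2 := by gcongr
      _ = jw κ := h
  exact (jw_facts hκ).2.2.1 _ (bd hκ hr h0 h1.le).1 h2

theorem ph1_nonpos {κ r s : ℝ} (hκ : 1 ≤ κ) (hr : 0 < r) (h0 : 0 ≤ s) (h1 : s ≤ r) :
    ph1 κ r s ≤ 0 := by
  have hj := (jw_facts hκ).1
  have hb := bd hκ hr h0 h1
  have hB := B_two_pos hκ hb.1 hb.2
  have hκ0 : 0 < κ := by linarith
  unfold ph1
  have h3 : 0 ≤ jw κ / r ^ 2 * s / κ := by positivity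
  nlinarith [mul_nonneg h3 hB.le]

theorem ph_lower {κ r s : ℝ} (hκ : 1 ≤ κ) (hr : 0 < r) (h0 : 0 ≤ s) (h1 : s ≤ r) :
    jw κ / r ^ 2 * s * ph κ r s ≤ -κ * ph1 κ r s := by
  have hj := (jw_facts hκ).1
  have hb := bd hκ hr h0 h1
  have hB := B_le_two hκ hb.1 hb.2
  have hκ0 : 0 < κ := by linarith
  have hc : 0 ≤ jw κ / r ^ 2 * s := by positivity
  have h2 : -κ * ph1 κ r s = jw κ / r ^ 2 * s * B (κ + 2) (jw κ / r ^ 2 * s ^ 2) := by
    unfold ph1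
    generalize jw κ / r ^ 2 = c
    field_simp
  rw [h2]
  unfold ph
  exact mul_le_mul_of_nonneg_left hB hc

end Pool.Agent.TUB
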