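import Pool.Agent.TUB.Fin
import Pool.Agent.TUB.BrUse
import Pool.Agent.TUB.SDef

/-!
# TUB-SC1: the push-forward is `C^1` and the gradient inequality

Near `y₀` the function `Sf` is the sum over the branches of `ψ (‖y - f (ξ x y)‖²)`, `ψ = b²` below `r²` and `0` above.
-/

open scoped BigOperators Topology Manifold ContDiff
open Filter Set

namespace Pool.Agent.TUB

variable {m n : ℕ} {X : Type*} [TopologicalSpace X] [T2Space X] [CompactSpace X]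
  [ChartedSpace (E m) X] [IsManifold (𝓡 m) ∞ X]

private noncomputable def psi (r : ℝ) (b : ℝ → ℝ) (w : ℝ) : ℝ := if r ^ 2 ≤ w then 0 else b w ^ 2

private noncomputable def psi1 (r : ℝ) (b : ℝ → ℝ) (w : ℝ) : ℝ :=
  if r ^ 2 ≤ w then 0 else 2 * b w * deriv b w

private theorem psi_hasDerivAt {r : ℝ} {b : ℝ → ℝ} (hb : ContDiff ℝ 1 b) (hbr : b (r ^ 2) = 0)
    (w : ℝ) : HasDerivAt (psi r b) (psi1 r b w) w := by
  have hd : Differentiable ℝ b := hb.differentiable one_ne_zero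
  have h2 : ∀ w, HasDerivAt (fun w => b w ^ 2) (2 * b w * deriv b w) w := fun w => by
    have := (hd w).hasDerivAt.fun_pow 2
    simpa using this
  rcases lt_trichotomy w (r ^ 2) with h | h | h
  · have e : psi r b =ᶠ[𝓝 w] fun w => b w ^ 2 := by
      filter_upwards [Iio_mem_nhds h] with v hv
      exact if_neg (not_le.2 hv)
    rw [psi1, if_neg (not_le.2 h)]
    exact (h2 w).congr_of_eventuallyEq e
  · rw [psi1, if_pos h.ge]
    have h3 := h2 w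
    have hbw : b w = 0 := by rw [h, hbr]
    rw [hbw, mul_zero, zero_mul] at h3
    rw [hasDerivAt_iff_isLittleO] at h3 ⊢
    refine Asymptotics.IsBigO.trans_isLittleO
      (Asymptotics.IsBigO.of_bound 1 (Eventually.of_forall fun v => ?_)) h3
    have h4 : psi r b w = 0 := if_pos h.ge
    rw [h4, hbw, smul_zero, sub_zero, sub_zero, one_mul]
    rw [show (0 : ℝ) ^ 2 = 0 by norm_num, sub_zero, sub_zero]
    unfold psi
    split_ifs
    · rw [norm_zero]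
      exact norm_nonneg _
    · exact le_rfl
  · have e : psi r b =ᶠ[𝓝 w] fun _ => (0 : ℝ) := by
      filter_upwards [Ioi_mem_nhds h] with v hv
      exact if_pos (le_of_lt hv)
    rw [psi1, if_pos h.le]
    exact (hasDerivAt_const w (0 : ℝ)).congr_of_eventuallyEq e

private theorem psi1_cont {r : ℝ} {b : ℝ → ℝ} (hb : ContDiff ℝ 1 b) (hbr : b (r ^ 2) = 0) :
    Continuous (psi1 r b) := by
  have h1 : Continuous (deriv b) := hb.continuous_deriv le_rfl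
  have h2 : Continuous (fun w => 2 * b w * deriv b w) :=
    (continuous_const.mul hb.continuous).mul h1
  refine Continuous.if_le continuous_const h2 continuous_const continuous_id ?_
  intro w hw
  have hw' : w = r ^ 2 := hw.symm
  show (0 : ℝ) = 2 * b w * deriv b w
  rw [hw', hbr, mul_zero, zero_mul]

private theorem psi_contDiff {r : ℝ} {b : ℝ → ℝ} (hb : ContDiff ℝ 1 b) (hbr : b (r ^ 2) = 0) :
    ContDiff ℝ 1 (psi r b) := by
  rw [contDiff_one_iff_deriv]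
  refine ⟨fun w => (psi_hasDerivAt hb hbr w).differentiableAt, ?_⟩
  have h1 : deriv (psi r b) = psi1 r b := funext fun w => (psi_hasDerivAt hb hbr w).deriv
  rw [h1]
  exact psi1_cont hb hbr

omit [T2Space X] [CompactSpace X] [IsManifold (𝓡 m) ∞ X] in
private theorem q_contDiffOn {f : X → E n} (hfc : Continuous f) {c r : ℝ} {y₀ : E n}
    {I : Finset X} {W : Set (E n)} {ξ : X → E n → X} (h : Br m f c r y₀ I W ξ) {x : X}
    (hx : x ∈ I) : ContDiffOn ℝ 1 (fun y => ‖y - f (ξ x y)‖ ^ 2) W := by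
  have h1 : ((0 : ℕ∞ω) + 1 : ℕ∞ω) = 1 := zero_add 1
  rw [← h1, contDiffOn_succ_iff_fderiv_of_isOpen h.isOpen]
  refine ⟨fun y hy => (h.der x hx y hy).differentiableAt.differentiableWithinAt, ?_, ?_⟩
  · intro h2
    exact absurd h2 (by simp)
  · rw [contDiffOn_zero]
    have h2 : ContinuousOn (fun y => (2 : ℝ) • innerSL ℝ (y - f (ξ x y))) W := by
      have h3 : ContinuousOn (fun y : E n => y - f (ξ x y)) W :=
        continuousOn_id.sub (hfc.comp_continuousOn (h.cont x hx))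
      exact ((innerSL ℝ (E := E n)).continuous.comp_continuousOn h3).const_smul (2 : ℝ)
    refine h2.congr ?_
    intro y hy
    exact (h.der x hx y hy).fderiv

omit [T2Space X] [CompactSpace X] [IsManifold (𝓡 m) ∞ X] in
private theorem sf_eq {f : X → E n} {c r : ℝ} (hr0 : 0 < r) {y₀ : E n}
    {I : Finset X} {W : Set (E n)} {ξ : X → E n → X} (h : Br m f c r y₀ I W ξ) (b : ℝ → ℝ)
    {y : E n} (hy : y ∈ W) : Sf m f r b y = ∑ x ∈ I, psi r b (‖y - f (ξ x y)‖ ^ 2) := by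
  classical
  unfold Sf
  rw [h.finsum hy le_rfl (fun x => b (‖y - f x‖ ^ 2) ^ 2), Finset.sum_filter]
  refine Finset.sum_congr rfl fun x _ => ?_
  by_cases hlt : ‖y - f (ξ x y)‖ < r
  · have h1 : ¬ r ^ 2 ≤ ‖y - f (ξ x y)‖ ^ 2 :=
      not_le.2 (pow_lt_pow_left₀ hlt (norm_nonneg _) two_ne_zero)
    rw [if_pos hlt, psi, if_neg h1]
  · have h1 : r ^ 2 ≤ ‖y - f (ξ x y)‖ ^ 2 := pow_le_pow_left₀ hr0.le (not_lt.1 hlt) 2
    rw [if_neg hlt, psi, if_pos h1]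

theorem Sf_contDiff (f : X → E n) (hf : Imm m f) {c r : ℝ} (hc0 : 0 < c) (hc : CurvLE m f c)
    (hr0 : 0 < r) (hr : r < 1 / c) (b : ℝ → ℝ) (hb : ContDiff ℝ 1 b) (hbr : b (r ^ 2) = 0) :
    ContDiff ℝ 1 (Sf m f r b) := by
  rw [contDiff_iff_contDiffAt]
  intro y₀
  obtain ⟨I, W, ξ, h⟩ := exists_br f hf hc0 hc hr y₀
  have hW : W ∈ 𝓝 y₀ := h.isOpen.mem_nhds h.mem
  have h1 : ContDiffAt ℝ 1 (fun y => ∑ x ∈ I, psi r b (‖y - f (ξ x y)‖ ^ 2)) y₀ := by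
    refine ContDiffAt.sum fun x hx => ?_
    exact (psi_contDiff hb hbr).contDiffAt.comp y₀
      ((q_contDiffOn hf.smooth.continuous h hx).contDiffAt hW)
  refine h1.congr_of_eventuallyEq ?_
  filter_upwards [hW] with y hy
  exact sf_eq hr0 h b hy

theorem Sf_grad (f : X → E n) (hf : Imm m f) {c r : ℝ} (hc0 : 0 < c) (hc : CurvLE m f c)
    (hr0 : 0 < r) (hr : r < 1 / c) (b : ℝ → ℝ) (hb : ContDiff ℝ 1 b) (hbr : b (r ^ 2) = 0)
    (y : E n) : ‖fderiv ℝ (Sf m f r b) y‖ ^ 2 ≤ 4 * Sf m f r b y * Tf m f r b y := by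
  classical
  obtain ⟨I, W, ξ, h⟩ := exists_br f hf hc0 hc hr y
  have hW : W ∈ 𝓝 y := h.isOpen.mem_nhds h.mem
  have h1 : HasFDerivAt (fun y => ∑ x ∈ I, psi r b (‖y - f (ξ x y)‖ ^ 2))
      (∑ x ∈ I, psi1 r b (‖y - f (ξ x y)‖ ^ 2) • ((2 : ℝ) • innerSL ℝ (y - f (ξ x y)))) y := by
    refine HasFDerivAt.fun_sum fun x hx => ?_
    exact (psi_hasDerivAt hb hbr _).comp_hasFDerivAt y (h.der x hx y h.mem)
  have h2 : Sf m f r b =ᶠ[𝓝 y] fun y => ∑ x ∈ I, psi r b (‖y - f (ξ x y)‖ ^ 2) := by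
    filter_upwards [hW] with z hz
    exact sf_eq hr0 h b hz
  have h3 := (h1.congr_of_eventuallyEq h2).fderiv
  rw [h3]
  have hS : Sf m f r b y = ∑ x ∈ I.filter (fun x => ‖y - f (ξ x y)‖ < r),
      b (‖y - f (ξ x y)‖ ^ 2) ^ 2 := h.finsum h.mem le_rfl (fun x => b (‖y - f x‖ ^ 2) ^ 2)
  have hT : Tf m f r b y = ∑ x ∈ I.filter (fun x => ‖y - f (ξ x y)‖ < r),
      4 * ‖y - f (ξ x y)‖ ^ 2 * deriv b (‖y - f (ξ x y)‖ ^ 2) ^ 2 :=
    h.finsum h.mem le_rfl (fun x => 4 * ‖y - f x‖ ^ 2 * deriv b (‖y - f x‖ ^ 2) ^ 2)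
  have h4 : ‖∑ x ∈ I, psi1 r b (‖y - f (ξ x y)‖ ^ 2) • ((2 : ℝ) • innerSL ℝ (y - f (ξ x y)))‖ ≤
      ∑ x ∈ I.filter (fun x => ‖y - f (ξ x y)‖ < r), (2 * |b (‖y - f (ξ x y)‖ ^ 2)|) *
        (2 * ‖y - f (ξ x y)‖ * |deriv b (‖y - f (ξ x y)‖ ^ 2)|) := by
    refine (norm_sum_le _ _).trans ?_
    rw [Finset.sum_filter]
    refine Finset.sum_le_sum fun x _ => ?_
    by_cases hlt : ‖y - f (ξ x y)‖ < r
    · have h5 : ¬ r ^ 2 ≤ ‖y - f (ξ x y)‖ ^ 2 :=
        not_le.2 (pow_lt_pow_left₀ hlt (norm_nonneg _) two_ne_zero)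
      rw [if_pos hlt, psi1, if_neg h5, norm_smul, norm_smul, innerSL_apply_norm, Real.norm_eq_abs,
        Real.norm_eq_abs, abs_mul, abs_mul, abs_two]
      refine le_of_eq ?_
      ring
    · have h5 : r ^ 2 ≤ ‖y - f (ξ x y)‖ ^ 2 := pow_le_pow_left₀ hr0.le (not_lt.1 hlt) 2
      rw [if_neg hlt, psi1, if_pos h5, zero_smul, norm_zero]
  calc _ ≤ (∑ x ∈ I.filter (fun x => ‖y - f (ξ x y)‖ < r), (2 * |b (‖y - f (ξ x y)‖ ^ 2)|) *
        (2 * ‖y - f (ξ x y)‖ * |deriv b (‖y - f (ξ x y)‖ ^ 2)|)) ^ 2 :=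
        pow_le_pow_left₀ (norm_nonneg _) h4 2
    _ ≤ (∑ x ∈ I.filter (fun x => ‖y - f (ξ x y)‖ < r), (2 * |b (‖y - f (ξ x y)‖ ^ 2)|) ^ 2) *
        ∑ x ∈ I.filter (fun x => ‖y - f (ξ x y)‖ < r),
          (2 * ‖y - f (ξ x y)‖ * |deriv b (‖y - f (ξ x y)‖ ^ 2)|) ^ 2 :=
        Finset.sum_mul_sq_le_sq_mul_sq _ _ _
    _ = 4 * Sf m f r b y * Tf m f r b y := by
        have e1 : ∑ x ∈ I.filter (fun x => ‖y - f (ξ x y)‖ < r),
            (2 * |b (‖y - f (ξ x y)‖ ^ 2)|) ^ 2 =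
            4 * ∑ x ∈ I.filter (fun x => ‖y - f (ξ x y)‖ < r), b (‖y - f (ξ x y)‖ ^ 2) ^ 2 := by
          rw [Finset.mul_sum]
          refine Finset.sum_congr rfl fun x _ => ?_
          rw [mul_pow, sq_abs]
          ring
        have e2 : ∑ x ∈ I.filter (fun x => ‖y - f (ξ x y)‖ < r),
            (2 * ‖y - f (ξ x y)‖ * |deriv b (‖y - f (ξ x y)‖ ^ 2)|) ^ 2 =
            ∑ x ∈ I.filter (fun x => ‖y - f (ξ x y)‖ < r),
              4 * ‖y - f (ξ x y)‖ ^ 2 * deriv b (‖y - f (ξ x y)‖ ^ 2) ^ 2 := by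
          refine Finset.sum_congr rfl fun x _ => ?_
          rw [mul_pow, mul_pow, sq_abs]
          ring
        rw [hS, hT, e1, e2]

end Pool.Agent.TUB
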