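import Pool.Agent.TUB.BPos

/-!
# Project TUB: the logarithmic gradient of the first eigenfunction of a ball (definition)
-/

namespace Pool.Agent.TUB

/-- `∇h/h` for `h(y) = B n (λ ‖y‖²)`. -/
noncomputable def Zf (n : ℕ) (l : ℝ) (y : E n) : E n :=
  (-(l / n) * B (n + 2) (l * ‖y‖ ^ 2) / B n (l * ‖y‖ ^ 2)) • y

end Pool.Agent.TUB
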