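import Pool.Agent.TUB.ZDef

/-!
# TUB-ZField: the Riccati equation of the logarithmic gradient (imports ZDef; imports may hold unfinished lemmas)

PLAN.  `n ≥ 1`, so `κ = n ≥ 1`.  For `l ‖y‖² < jw n`: `B n (l ‖y‖²) > 0` (`jw_facts`).
`Zf` is a product of a smooth scalar function (`B_smooth`, `ContDiff` of `‖y‖²`: `contDiff_norm_sq ℝ`;
denominator nonzero) and `y`: `ContDiffAt`.
Divergence: with `z(w) = -(l/n) B(n+2) w/B n w` (`w = l ‖y‖²`) and `Zf y = z(w) • y`: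
`∑_i ∂_i (z y_i) = n z + ∑_i y_i z'(w) 2 l y_i = n z + 2 w z'(w)`.
`z' = -(l/n) [B(n+2)'/B n - B(n+2) (B n)'/(B n)²]`, `B(n+2)' = -B(n+4)/(2(n+2))`, `(B n)' = -B(n+2)/(2n)`.
`2 w z' = (l/n) w B(n+4)/((n+2) B n) - (w l/n²) B(n+2)²/(B n)²`; by `B_rec`,
`w B(n+4)/(n+2) = n (B(n+2) - B n)`, so `2 w z' = l B(n+2)/B n - l - (w l/n²) (B(n+2)/B n)²`, and
`n z = - l B(n+2)/B n`; the sum is `-l - (w l/n²)(B(n+2)/B n)² = -l - ‖Zf y‖²`
(`‖Zf y‖² = z² ‖y‖² = (l²/n²)(B(n+2)/B n)² ‖y‖²`, `w = l ‖y‖²`).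
-/

open scoped BigOperators Topology ContDiff
open Filter Set

namespace Pool.Agent.TUB

private noncomputable def zz (n : ℕ) (l : ℝ) (w : ℝ) : ℝ := -(l / n) * B (n + 2) w / B n w

private theorem npos {n : ℕ} (hn : 1 ≤ n) : (1 : ℝ) ≤ n := by exact_mod_cast hn

private theorem Bpos {n : ℕ} (hn : 1 ≤ n) {w : ℝ} (h0 : 0 ≤ w) (h1 : w < jw n) : 0 < B n w :=
  (jw_facts (npos hn)).2.2.1 w h0 h1

private theorem zz_hasDeriv {n : ℕ} (hn : 1 ≤ n) (l : ℝ) {w : ℝ} (h : B n w ≠ 0) :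
    HasDerivAt (zz n l) ((-(l / n) * (-(1 / (2 * ((n : ℝ) + 2))) * B ((n : ℝ) + 2 + 2) w) * B n w -
      -(l / n) * B (n + 2) w * (-(1 / (2 * (n : ℝ))) * B (n + 2) w)) / B n w ^ 2) w := by
  have hn1 := npos hn
  have h1 := B_hasDeriv (κ := (n : ℝ)) (by linarith) w
  have h2 := B_hasDeriv (κ := (n : ℝ) + 2) (by linarith) w
  exact (h2.const_mul (-(l / n))).div h1 h

private theorem nz {n : ℕ} (hn : 1 ≤ n) {l : ℝ} (hl : 0 < l) {y : E n}
    (hy : l * ‖y‖ ^ 2 < jw n) : B n (l * ‖y‖ ^ 2) ≠ 0 :=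
  (Bpos hn (by positivity) hy).ne'

theorem Zf_contDiffAt {n : ℕ} (hn : 1 ≤ n) {l : ℝ} (hl : 0 < l) {y : E n}
    (hy : l * ‖y‖ ^ 2 < jw n) : ContDiffAt ℝ 1 (Zf n l) y := by
  have hn1 := npos hn
  have h1 : ContDiff ℝ ∞ (B (n : ℝ)) := B_smooth (by linarith)
  have h2 : ContDiff ℝ ∞ (B ((n : ℝ) + 2)) := B_smooth (by linarith)
  have h3 : ContDiff ℝ ∞ (fun y : E n => l * ‖y‖ ^ 2) := contDiff_const.mul (contDiff_norm_sq ℝ)
  have h4 : ContDiff ℝ ∞ (fun y : E n => B (n : ℝ) (l * ‖y‖ ^ 2)) := h1.comp h3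
  have h5 : ContDiff ℝ ∞ (fun y : E n => B ((n : ℝ) + 2) (l * ‖y‖ ^ 2)) := h2.comp h3
  have h6 : ContDiffAt ℝ ∞ (fun y : E n => -(l / n) * B (n + 2) (l * ‖y‖ ^ 2) / B n (l * ‖y‖ ^ 2)) y :=
    (contDiffAt_const.mul h5.contDiffAt).div h4.contDiffAt (nz hn hl hy)
  have h7 : ContDiffAt ℝ ∞ (Zf n l) y := h6.smul contDiffAt_id
  exact h7.of_le (by exact_mod_cast le_top)

theorem Zf_div {n : ℕ} (hn : 1 ≤ n) {l : ℝ} (hl : 0 < l) {y : E n} (hy : l * ‖y‖ ^ 2 < jw n) :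
    ∑ i : Fin n, (fderiv ℝ (Zf n l) y (EuclideanSpace.single i 1)) i = -l - ‖Zf n l y‖ ^ 2 := by
  have hn1 := npos hn
  have hB := nz hn hl hy
  have hz := zz_hasDeriv hn l hB
  set w : ℝ := l * ‖y‖ ^ 2 with hw
  set z' : ℝ := ((-(l / n) * (-(1 / (2 * ((n : ℝ) + 2))) * B ((n : ℝ) + 2 + 2) w) * B n w -
      -(l / n) * B (n + 2) w * (-(1 / (2 * (n : ℝ))) * B (n + 2) w)) / B n w ^ 2) with hz'
  have h1 : HasFDerivAt (fun y : E n => l * ‖y‖ ^ 2) (l • ((2 : ℝ) • (innerSL ℝ y))) y := by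
    refine ((hasStrictFDerivAt_norm_sq y).hasFDerivAt.const_mul l).congr_fderiv ?_
    ext v
    simp [two_smul]
  have hz2 : HasDerivAt (zz n l) z' ((fun y : E n => l * ‖y‖ ^ 2) y) := hz
  have h2 : HasFDerivAt (fun y : E n => zz n l (l * ‖y‖ ^ 2)) (z' • (l • ((2 : ℝ) • (innerSL ℝ y)))) y := by
    have h := hz2.comp_hasFDerivAt y h1
    exact h
  have h3 : HasFDerivAt (Zf n l) (zz n l w • ContinuousLinearMap.id ℝ (E n) +
      (z' • (l • ((2 : ℝ) • (innerSL ℝ y)))).smulRight y) y := by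
    have := h2.smul (hasFDerivAt_id y)
    exact this
  rw [h3.fderiv]
  have h4 : ∀ i : Fin n, ((zz n l w • ContinuousLinearMap.id ℝ (E n) +
      (z' • (l • ((2 : ℝ) • (innerSL ℝ y)))).smulRight y) (EuclideanSpace.single i 1)) i =
      zz n l w + z' * (l * (2 * (y i) ^ 2)) := by
    intro i
    have : inner ℝ y (EuclideanSpace.single i (1 : ℝ)) = y i := by
      rw [real_inner_comm]
      simp [EuclideanSpace.inner_single_left]
    simp [this]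
    ring
  rw [Finset.sum_congr rfl fun i _ => h4 i, Finset.sum_add_distrib, Finset.sum_const, Finset.card_univ,
    Fintype.card_fin, ← Finset.mul_sum, ← Finset.mul_sum, ← Finset.mul_sum]
  have h5 : ∑ i : Fin n, y i ^ 2 = ‖y‖ ^ 2 := by
    rw [EuclideanSpace.norm_sq_eq]
    simp
  have h6 : ‖Zf n l y‖ ^ 2 = zz n l w ^ 2 * ‖y‖ ^ 2 := by
    have : Zf n l y = zz n l w • y := rfl
    rw [this, norm_smul, mul_pow, Real.norm_eq_abs, sq_abs]
  rw [h5, h6]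
  have hrec := B_rec (κ := (n : ℝ)) (by linarith) w
  have h44 : (n : ℝ) + 2 + 2 = n + 4 := by ring
  rw [hz', h44]
  unfold zz
  have hn0 : (n : ℝ) ≠ 0 := by linarith
  have hn2 : (n : ℝ) + 2 ≠ 0 := by linarith
  have e1 : l * (2 * ‖y‖ ^ 2) = 2 * w := by rw [hw]; ring
  have hyw : ‖y‖ ^ 2 = w / l := by rw [hw]; field_simp
  rw [e1, hyw, nsmul_eq_mul]
  -- express w * B(n+4) by the recursion
  have hr2 : w * B (n + 4) w = n * (n + 2) * (B (n + 2) w - B n w) := by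
    have : w / (n * (n + 2)) * B (n + 4) w = B (n + 2) w - B n w := by linarith
    field_simp at this
    linarith
  generalize B ((n : ℝ) + 4) w = b4 at *
  generalize B ((n : ℝ) + 2) w = b2 at *
  generalize B (n : ℝ) w = b0 at *
  field_simp
  linear_combination (n * b0) * hr2

end Pool.Agent.TUB
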